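import Mathlib

/-!
# WT7: weak Turan-goodness for three-chromatic graphs (MP_aeb998_co, helper7)

Goal (`Results/MP_aeb998_co`). Let `F` be a 3-chromatic graph with a colour-critical edge `u v` such that `u`, `v` have at
most one common neighbour, and let `H` be bipartite. Then for all large `n` every `F`-free graph on `n` vertices has at
most `ex(n, H, K₃)` copies of `H`. So if `H` is weakly `K₃`-Turan-good then `H` is weakly `F`-Turan-good.

Notation: `h = |V(H)|`, `inj` = number of labelled copies (injective homomorphisms), `a3 n`, `bF n` = maximum of `inj` over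
triangle-free, `F`-free graphs on `n` vertices, `π = sup hom(H, G) / |G|^h` over triangle-free `G`, `dg v` = number of the
labelled copies through `v`, `D A` = number of labelled copies through a new vertex attached to `A`.

Overview (first for `H` without isolated vertices).
* (Growth) `a3 (n+1) ≥ a3 n + (π h - ε) (n+1)^(h-1)` for large `n` (clone the best vertex). (MainInj) progressive
  induction: it suffices that for some `ε > 0` and all large `n` every `F`-free `G` with `inj H G > a3 n` has a vertex with
  `dg v ≤ (π h - ε) n^(h-1)`. Suppose not.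
* (Few) every `N(x)` spans `o(n²)` edges, so `G` has `o(n³)` triangles, and a triangle-free `G' ≤ G` with `o(n²)` fewer edges.
* (Star) if `A` spans at most `τ n²` edges then `D A ≤ (π h + ε') n^(h-1)`: delete the edges inside `A` and add `σ n` new
  vertices attached to `A`.
* (Low) `D I ≥ c(ρ) n^(h-1)` if `|I| ≥ ρ n` (`H` is bipartite; all degrees are `≥ c₀ n`).
* (PropP) for every `u` all but `ρ n` of the `y ∉ N(u)` have at least `δ n` neighbours in `N(u)`: otherwise there is a sparse set
  `I` of exceptions and `D (N(u) ∪ I) ≥ dg u + D I` contradicts (Star).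
* (Tri) an edge has less than `δ₁ n` common neighbours (else `K_{t,t}` plus an edge); a triangle `u v w`: many `y ∈ N(w)` have
  `≥ δ n` neighbours in `N(u)` and in `N(v)`, which gives `Y ⊆ N(w)`, `P ⊆ N(u)`, `Q ⊆ N(v)` of size `t`, `Y` complete to `P ∪ Q`,
  and this contains `F` (Emb). So `G` is triangle-free and `inj H G ≤ a3 n`.
-/

set_option autoImplicit false

namespace Pool.Agent.WT7

variable {α β V W : Type}

/-- homomorphisms from `H` to `G` -/
def IsHom (H : SimpleGraph α) (G : SimpleGraph V) (f : α → V) : Prop := ∀ x y, H.Adj x y → G.Adj (f x) (f y)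

/-- injective homomorphisms from `H` to `G` -/
def IsInj (H : SimpleGraph α) (G : SimpleGraph V) (f : α → V) : Prop := Function.Injective f ∧ IsHom H G f

/-- number of homomorphisms -/
noncomputable def hom (H : SimpleGraph α) (G : SimpleGraph V) : ℕ := Set.ncard {f : α → V | IsHom H G f}

/-- number of injective homomorphisms (labelled copies of `H` in `G`) -/
noncomputable def inj (H : SimpleGraph α) (G : SimpleGraph V) : ℕ := Set.ncard {f : α → V | IsInj H G f}

/-- number of the labelled copies through `v` -/
noncomputable def dg (H : SimpleGraph α) (G : SimpleGraph V) (v : V) : ℕ :=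
  Set.ncard {f : α → V | IsInj H G f ∧ ∃ x, f x = v}

/-- `G` with one new vertex `none` attached to `A` -/
def Ext (G : SimpleGraph V) (A : Set V) : SimpleGraph (Option V) where
  Adj a b := match a, b with
    | some x, some y => G.Adj x y
    | none, some y => y ∈ A
    | some x, none => x ∈ A
    | none, none => False
  symm := ⟨by
    intro a b h
    cases a <;> cases b <;> simp_all [G.adj_comm]⟩
  loopless := ⟨by
    intro a h
    cases a <;> simp_all⟩

/-- number of the labelled copies in `Ext G A` through the new vertex -/
noncomputable def D (H : SimpleGraph α) (G : SimpleGraph V) (A : Set V) : ℕ :=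
  Set.ncard {f : α → Option V | IsInj H (Ext G A) f ∧ ∃ x, f x = none}

/-- `G` with `m` new vertices attached to `A` -/
def Cl (G : SimpleGraph V) (A : Set V) (m : ℕ) : SimpleGraph (V ⊕ Fin m) where
  Adj a b := match a, b with
    | .inl x, .inl y => G.Adj x y
    | .inr _, .inl y => y ∈ A
    | .inl x, .inr _ => x ∈ A
    | .inr _, .inr _ => False
  symm := ⟨by
    intro a b h
    cases a <;> cases b <;> simp_all [G.adj_comm]⟩
  loopless := ⟨by
    intro a h
    cases a <;> simp_all⟩

/-- number of ordered pairs `(a, b)` of adjacent vertices, `a ∈ A`, `b ∈ B` -/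
noncomputable def pe (G : SimpleGraph V) (A B : Set V) : ℕ :=
  Set.ncard {p : V × V | p.1 ∈ A ∧ p.2 ∈ B ∧ G.Adj p.1 p.2}

/-- number of ordered pairs adjacent in `G` but not in `G'` -/
noncomputable def df (G G' : SimpleGraph V) : ℕ := Set.ncard {p : V × V | G.Adj p.1 p.2 ∧ ¬ G'.Adj p.1 p.2}

/-- maximum of `inj H G` over the triangle-free graphs `G` on `n` vertices -/
noncomputable def a3 (H : SimpleGraph α) (n : ℕ) : ℕ :=
  sSup {m | ∃ G : SimpleGraph (Fin n), G.CliqueFree 3 ∧ inj H G = m}

/-- maximum of `inj H G` over the `F`-free graphs `G` on `n` vertices -/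
noncomputable def bF (H : SimpleGraph α) (F : SimpleGraph β) (n : ℕ) : ℕ :=
  sSup {m | ∃ G : SimpleGraph (Fin n), F.Free G ∧ inj H G = m}

/-- supremum of the homomorphism density of `H` in triangle-free graphs -/
noncomputable def pi3 (H : SimpleGraph α) : ℝ :=
  sSup {r | ∃ n : ℕ, 1 ≤ n ∧ ∃ G : SimpleGraph (Fin n), G.CliqueFree 3 ∧ r = (hom H G : ℝ) / (n : ℝ) ^ Nat.card α}

/-- no isolated vertices -/
def NoIso (H : SimpleGraph α) : Prop := ∀ x, ∃ y, H.Adj x y

/-- `c` is a proper 2-colouring of `F` minus the edge `u v`, `u` and `v` have the same colour, and `u`, `v` have at most one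
common neighbour -/
structure Crit (F : SimpleGraph β) (u v : β) (c : β → Bool) : Prop where
  adj : F.Adj u v
  cu : c u = true
  cv : c v = true
  col : ∀ x y, F.Adj x y → c x ≠ c y ∨ (x = u ∧ y = v) ∨ (x = v ∧ y = u)
  one : ∀ w w', F.Adj u w → F.Adj v w → F.Adj u w' → F.Adj v w' → w = w'

/-- `A` is complete to `B` -/
def Full (G : SimpleGraph V) (A B : Set V) : Prop := ∀ a ∈ A, ∀ b ∈ B, G.Adj a b

/-- the vertices outside `N(u)` with fewer than `d` neighbours in `N(u)` -/
def Z (G : SimpleGraph V) (u : V) (d : ℝ) : Set V :=
  {y | ¬ G.Adj u y ∧ ((G.neighborSet y ∩ G.neighborSet u).ncard : ℝ) < d}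

end Pool.Agent.WT7
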