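import Pool.Agent.WT7.Defs

/-!
# [WT7-DegL] large `dg` gives large degree

`dg v ≤ h * deg(v) * n^(h-2)`: for every `x` the labelled copies `f` with `f x = v` have `f y ∈ N(v)` for a neighbour `y` of `x` (`NoIso`), so there are at most `deg(v) * n^(h-2)` of them (`f ↦ (f y, f` on the other points`)`).
`h ≥ 2` because of `NoIso`.
-/

set_option autoImplicit false

namespace Pool.Agent.WT7

variable {α β V W : Type}

theorem two_le_card [Finite α] [Nonempty α] {H : SimpleGraph α} (hI : NoIso H) : 2 ≤ Nat.card α := by
  obtain ⟨x⟩ := (inferInstance : Nonempty α)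
  obtain ⟨y, hy⟩ := hI x
  haveI : Nontrivial α := ⟨x, y, hy.ne⟩
  exact Finite.one_lt_card

private theorem prod_two [Fintype α] [DecidableEq α] {x y : α} (hxy : y ≠ x) (d n : ℕ) :
    ∏ z : α, (if z = x then 1 else if z = y then d else n) = d * n ^ (Fintype.card α - 2) := by
  rw [← Finset.mul_prod_erase Finset.univ _ (Finset.mem_univ x), if_pos rfl, one_mul,
    ← Finset.mul_prod_erase (Finset.univ.erase x) _
      (Finset.mem_erase.2 ⟨hxy, Finset.mem_univ y⟩), if_neg hxy, if_pos rfl]
  congr 1
  rw [Finset.prod_congr rfl (g := fun _ => n), Finset.prod_const,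
    Finset.card_erase_of_mem (Finset.mem_erase.2 ⟨hxy, Finset.mem_univ y⟩),
    Finset.card_erase_of_mem (Finset.mem_univ x), Finset.card_univ]
  · rfl
  · intro z hz
    obtain ⟨h1, h2⟩ := Finset.mem_erase.1 hz
    obtain ⟨h3, _⟩ := Finset.mem_erase.1 h2
    rw [if_neg h3, if_neg h1]

theorem dg_le [Finite α] [Finite V] {H : SimpleGraph α} (hI : NoIso H) (G : SimpleGraph V) (v : V) :
    dg H G v ≤ Nat.card α * ((G.neighborSet v).ncard * Nat.card V ^ (Nat.card α - 2)) := by
  classical
  haveI := Fintype.ofFinite α
  haveI := Fintype.ofFinite V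
  choose y hy using hI
  unfold dg
  rw [Nat.card_eq_fintype_card, Nat.card_eq_fintype_card, Set.ncard_eq_toFinset_card']
  refine (Finset.card_le_card (t := Finset.univ.biUnion (fun x : α =>
    Fintype.piFinset (fun z : α => if z = x then ({v} : Finset V) else if z = y x then
      (G.neighborSet v).toFinset else Finset.univ))) ?_).trans ?_
  · intro f hf
    rw [Set.mem_toFinset] at hf
    obtain ⟨⟨_, h2⟩, x, hx⟩ := hf
    rw [Finset.mem_biUnion]
    refine ⟨x, Finset.mem_univ _, ?_⟩
    rw [Fintype.mem_piFinset]
    intro z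
    by_cases h3 : z = x
    · rw [if_pos h3, h3, Finset.mem_singleton]
      exact hx
    · rw [if_neg h3]
      by_cases h4 : z = y x
      · rw [if_pos h4, h4, Set.mem_toFinset, SimpleGraph.mem_neighborSet, ← hx]
        exact h2 _ _ (hy x)
      · rw [if_neg h4]
        exact Finset.mem_univ _
  · refine Finset.card_biUnion_le.trans ?_
    have h5 : ∀ x ∈ (Finset.univ : Finset α), (Fintype.piFinset (fun z : α =>
        if z = x then ({v} : Finset V) else if z = y x then
      (G.neighborSet v).toFinset else Finset.univ)).card ≤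
        (G.neighborSet v).ncard * Fintype.card V ^ (Fintype.card α - 2) := by
      intro x _
      rw [Fintype.card_piFinset, Set.ncard_eq_toFinset_card']
      rw [← prod_two (hy x).ne.symm]
      refine le_of_eq (Finset.prod_congr rfl fun z _ => ?_)
      split_ifs
      · exact Finset.card_singleton v
      · rfl
      · exact Finset.card_univ
    refine (Finset.sum_le_card_nsmul _ _ _ h5).trans ?_
    rw [Finset.card_univ, smul_eq_mul]

end Pool.Agent.WT7
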