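import Pool.Agent.WT7.Defs

/-!
# [WT7-ExtM] one new vertex

`inj_add_D_le`: the maps `some ∘ f` (labelled copies of `H` in `G`) and the maps counted by `D` (with `none` in the range) are
disjoint sets of labelled copies in `Ext G A`.
`dg_le_D`: to a labelled copy `f` in `G` with `u` in its range associate `f' x = none` if `f x = u`, else `some (f x)`: injective
assignment, `f'` is a labelled copy in `Ext G (N(u))` through `none`.
`D_add_le`: the two sets of maps (for `A` and for `B`) lie in the one for `A ∪ B`; they are disjoint: if `f x = none` and `y` is a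
neighbour of `x` in `H` then `f y = some a` with `a ∈ A` and `a ∈ B`.
`ext_cliqueFree`: `is3Clique_iff` / three pairwise adjacent vertices of `Ext G A`: none of them is `none` (then a triangle of `G`), or exactly one is
(then two adjacent vertices in `A`).
-/

set_option autoImplicit false

namespace Pool.Agent.WT7

variable {α β V W : Type}

private theorem extm_some_none {G : SimpleGraph V} {A : Set V} (x : V) :
    (Ext G A).Adj (some x) none ↔ x ∈ A := Iff.rfl

private theorem extm_none_some {G : SimpleGraph V} {A : Set V} (x : V) :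
    (Ext G A).Adj none (some x) ↔ x ∈ A := Iff.rfl

private theorem extm_some_some {G : SimpleGraph V} {A : Set V} (x y : V) :
    (Ext G A).Adj (some x) (some y) ↔ G.Adj x y := Iff.rfl

private theorem extm_none_none {G : SimpleGraph V} {A : Set V} :
    ¬ (Ext G A).Adj none none := fun h => h

theorem inj_add_D_le [Finite α] [Finite V] (H : SimpleGraph α) (G : SimpleGraph V) (A : Set V) :
    inj H G + D H G A ≤ inj H (Ext G A) := by
  unfold inj D
  have hinj : Function.Injective (fun (f : α → V) (x : α) => (some (f x) : Option V)) := by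
    intro f g h
    funext x
    exact Option.some_injective _ (congrFun h x)
  rw [← Set.ncard_image_of_injective {f : α → V | IsInj H G f} hinj,
    ← Set.ncard_union_eq ?_ (Set.toFinite _) (Set.toFinite _)]
  · apply Set.ncard_le_ncard _ (Set.toFinite _)
    rintro f (⟨g, hg, rfl⟩ | hf)
    · refine ⟨fun x y h => hg.1 (Option.some_injective _ h), fun x y hxy => ?_⟩
      exact hg.2 x y hxy
    · exact hf.1
  · rw [Set.disjoint_left]
    rintro f ⟨g, _, rfl⟩ ⟨_, x, hx⟩
    exact Option.some_ne_none _ hx

theorem dg_le_D [Finite α] [Finite V] (H : SimpleGraph α) (G : SimpleGraph V) (u : V) :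
    dg H G u ≤ D H G (G.neighborSet u) := by
  classical
  unfold dg D
  refine Set.ncard_le_ncard_of_injOn (fun (f : α → V) (x : α) => if f x = u then none else some (f x))
    ?_ ?_ (Set.toFinite _)
  · rintro f ⟨⟨h1, h2⟩, x0, hx0⟩
    refine ⟨⟨?_, ?_⟩, x0, ?_⟩
    · intro x y hxy
      simp only at hxy
      by_cases hx : f x = u
      · by_cases hy : f y = u
        · exact h1 (hx.trans hy.symm)
        · rw [if_pos hx, if_neg hy] at hxy
          exact absurd hxy.symm (Option.some_ne_none _)
      · by_cases hy : f y = u
        · rw [if_neg hx, if_pos hy] at hxy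
          exact absurd hxy (Option.some_ne_none _)
        · rw [if_neg hx, if_neg hy] at hxy
          exact h1 (Option.some_injective _ hxy)
    · intro x y hxy
      have h3 := h2 x y hxy
      simp only
      by_cases hx : f x = u
      · by_cases hy : f y = u
        · rw [hx, hy] at h3
          exact absurd rfl h3.ne
        · rw [if_pos hx, if_neg hy, extm_none_some]
          rw [hx] at h3
          exact h3
      · by_cases hy : f y = u
        · rw [if_neg hx, if_pos hy, extm_some_none]
          rw [hy] at h3
          exact h3.symm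
        · rw [if_neg hx, if_neg hy, extm_some_some]
          exact h3
    · simp only
      rw [if_pos hx0]
  · rintro f - g - hfg
    funext x
    have h := congrFun hfg x
    simp only at h
    by_cases hx : f x = u
    · by_cases hy : g x = u
      · exact hx.trans hy.symm
      · rw [if_pos hx, if_neg hy] at h
        exact absurd h.symm (Option.some_ne_none _)
    · by_cases hy : g x = u
      · rw [if_neg hx, if_pos hy] at h
        exact absurd h (Option.some_ne_none _)
      · rw [if_neg hx, if_neg hy] at h
        exact Option.some_injective _ h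

private theorem extm_mono {G : SimpleGraph V} {A B : Set V} (h : A ⊆ B) {a b : Option V}
    (hab : (Ext G A).Adj a b) : (Ext G B).Adj a b := by
  rcases a with _ | a <;> rcases b with _ | b
  · exact hab
  · exact h hab
  · exact h hab
  · exact hab

theorem D_add_le [Finite α] [Finite V] {H : SimpleGraph α} (hH : NoIso H) (G : SimpleGraph V) {A B : Set V}
    (hd : Disjoint A B) : D H G A + D H G B ≤ D H G (A ∪ B) := by
  unfold D
  rw [← Set.ncard_union_eq ?_ (Set.toFinite _) (Set.toFinite _)]
  · apply Set.ncard_le_ncard _ (Set.toFinite _)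
    rintro f (⟨⟨h1, h2⟩, h3⟩ | ⟨⟨h1, h2⟩, h3⟩)
    · exact ⟨⟨h1, fun x y hxy => extm_mono Set.subset_union_left (h2 x y hxy)⟩, h3⟩
    · exact ⟨⟨h1, fun x y hxy => extm_mono Set.subset_union_right (h2 x y hxy)⟩, h3⟩
  · rw [Set.disjoint_left]
    rintro f ⟨⟨_, h2⟩, x, hx⟩ ⟨⟨_, h2'⟩, _⟩
    obtain ⟨y, hy⟩ := hH x
    have e1 := h2 x y hy
    have e2 := h2' x y hy
    rw [hx] at e1 e2
    rcases hfy : f y with _ | a
    · rw [hfy] at e1
      exact e1
    · rw [hfy] at e1 e2
      exact Set.disjoint_left.1 hd e1 e2

theorem ext_cliqueFree {G : SimpleGraph V} {A : Set V} (hG : G.CliqueFree 3) (hA : ∀ a ∈ A, ∀ b ∈ A, ¬ G.Adj a b) :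
    (Ext G A).CliqueFree 3 := by
  classical
  intro s hs
  rw [SimpleGraph.is3Clique_iff] at hs
  obtain ⟨a, b, c, hab, hac, hbc, -⟩ := hs
  rcases a with _ | a <;> rcases b with _ | b <;> rcases c with _ | c
  · exact hab
  · exact hab
  · exact hac
  · exact hA b hab c hac hbc
  · exact hbc
  · exact hA a hab c hbc hac
  · exact hA a hac b hbc hab
  · exact hG {a, b, c} (SimpleGraph.is3Clique_iff.2 ⟨a, b, c, hab, hac, hbc, rfl⟩)

end Pool.Agent.WT7
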