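import Pool.Agent.WT7.Defs

/-!
# [WT7-Basic] monotonicity and the extremal numbers `a3`, `bF`

`inj_le_of_emb`: `f ↦ e ∘ f` is injective and maps labelled copies to labelled copies (`Set.ncard_le_ncard_of_injOn`).
`inj_le_hom`: subset. `inj_le_pow`: all maps, `Nat.card (α → V)`.
`inj_le_a3`: transport `G` to `Fin n` by an equivalence `V ≃ Fin (Nat.card V)` (`Finite.equivFin`), `inj_le_of_emb`, then `le_csSup`; the
set is bounded by `inj_le_pow`. The transported graph `G.comap e.symm` is triangle-free (embedding; `SimpleGraph.CliqueFree.comap`).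
`exists_a3`: `Nat.sSup_mem` (nonempty: `⊥` is triangle-free; bounded). The same for `bF` (`⊥` is `F`-free if `F` has an edge;
`SimpleGraph.free_bot`).
-/

set_option autoImplicit false

namespace Pool.Agent.WT7

variable {α β V W : Type}

theorem inj_le_of_emb [Finite α] [Finite W] (H : SimpleGraph α) {G : SimpleGraph V} {G' : SimpleGraph W} (e : V → W)
    (he : Function.Injective e) (hadj : ∀ a b, G.Adj a b → G'.Adj (e a) (e b)) : inj H G ≤ inj H G' := by
  unfold inj
  refine Set.ncard_le_ncard_of_injOn (fun f => e ∘ f) ?_ ?_ (Set.toFinite _)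
  · rintro f ⟨hf1, hf2⟩
    exact ⟨he.comp hf1, fun x y hxy => hadj _ _ (hf2 x y hxy)⟩
  · intro f _ g _ hfg
    exact he.comp_left hfg

theorem hom_le_of_emb [Finite α] [Finite W] (H : SimpleGraph α) {G : SimpleGraph V} {G' : SimpleGraph W} (e : V → W)
    (he : Function.Injective e) (hadj : ∀ a b, G.Adj a b → G'.Adj (e a) (e b)) : hom H G ≤ hom H G' := by
  unfold hom
  refine Set.ncard_le_ncard_of_injOn (fun f => e ∘ f) ?_ ?_ (Set.toFinite _)
  · intro f hf
    exact fun x y hxy => hadj _ _ (hf x y hxy)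
  · intro f _ g _ hfg
    exact he.comp_left hfg

theorem inj_le_hom [Finite α] [Finite V] (H : SimpleGraph α) (G : SimpleGraph V) : inj H G ≤ hom H G := by
  unfold inj hom
  exact Set.ncard_le_ncard (fun f hf => hf.2) (Set.toFinite _)

theorem hom_le_pow [Finite α] [Finite V] (H : SimpleGraph α) (G : SimpleGraph V) :
    hom H G ≤ Nat.card V ^ Nat.card α := by
  unfold hom
  calc Set.ncard {f : α → V | IsHom H G f} ≤ Set.ncard (Set.univ : Set (α → V)) :=
        Set.ncard_le_ncard (Set.subset_univ _) (Set.toFinite _)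
    _ = Nat.card V ^ Nat.card α := by
        rw [Set.ncard_univ, Nat.card_fun]

private theorem basic_bdd [Finite α] (H : SimpleGraph α) (n : ℕ) (P : SimpleGraph (Fin n) → Prop) :
    BddAbove {m | ∃ G : SimpleGraph (Fin n), P G ∧ inj H G = m} := by
  refine ⟨Nat.card (Fin n) ^ Nat.card α, ?_⟩
  rintro m ⟨G, -, rfl⟩
  exact (inj_le_hom H G).trans (hom_le_pow H G)

private theorem basic_transport [Finite α] [Finite V] (H : SimpleGraph α) (G : SimpleGraph V) :
    inj H G ≤ inj H (G.comap (Finite.equivFin V).symm) := by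
  refine inj_le_of_emb H (Finite.equivFin V) (Finite.equivFin V).injective ?_
  intro a b hab
  rw [SimpleGraph.comap_adj, Equiv.symm_apply_apply, Equiv.symm_apply_apply]
  exact hab

theorem inj_le_a3 [Finite α] [Finite V] (H : SimpleGraph α) {G : SimpleGraph V} (hG : G.CliqueFree 3) :
    inj H G ≤ a3 H (Nat.card V) := by
  refine (basic_transport H G).trans ?_
  unfold a3
  refine le_csSup (basic_bdd H _ _) ⟨_, ?_, rfl⟩
  exact hG.comap ⟨(SimpleGraph.Embedding.comap (Finite.equivFin V).symm.toEmbedding G).toCopy⟩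

theorem exists_a3 [Finite α] (H : SimpleGraph α) (n : ℕ) :
    ∃ G : SimpleGraph (Fin n), G.CliqueFree 3 ∧ inj H G = a3 H n := by
  have h := Nat.sSup_mem (s := {m | ∃ G : SimpleGraph (Fin n), G.CliqueFree 3 ∧ inj H G = m})
    ⟨_, ⊥, SimpleGraph.cliqueFree_bot (by norm_num), rfl⟩ (basic_bdd H n _)
  exact h

theorem inj_le_bF [Finite α] [Finite V] (H : SimpleGraph α) (F : SimpleGraph β) {G : SimpleGraph V} (hG : F.Free G) :
    inj H G ≤ bF H F (Nat.card V) := by
  refine (basic_transport H G).trans ?_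
  unfold bF
  refine le_csSup (basic_bdd H _ _) ⟨_, ?_, rfl⟩
  exact (SimpleGraph.free_congr_right (SimpleGraph.Iso.comap (Finite.equivFin V).symm G)).2 hG

theorem exists_bF [Finite α] (H : SimpleGraph α) {F : SimpleGraph β} (hF : ∃ a b, F.Adj a b) (n : ℕ) :
    ∃ G : SimpleGraph (Fin n), F.Free G ∧ inj H G = bF H F n := by
  have hF' : F ≠ ⊥ := by
    rintro rfl
    obtain ⟨a, b, hab⟩ := hF
    exact hab
  have h := Nat.sSup_mem (s := {m | ∃ G : SimpleGraph (Fin n), F.Free G ∧ inj H G = m})
    ⟨_, ⊥, SimpleGraph.free_bot hF', rfl⟩ (basic_bdd H n _)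
  exact h

end Pool.Agent.WT7
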