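import Pool.Agent.WT7.Defs

/-!
# [WT7-Clone] `m` new vertices attached to `A`

`inj_clone`: the maps `Sum.inl ∘ f` (labelled copies `f` in `G`) and for every `i : Fin m` the maps obtained from the maps `f : α → Option V`
counted by `D H G A` by `none ↦ inr i`, `some a ↦ inl a` are labelled copies in `Cl G A m`; these `m + 1` families are disjoint (look at
the elements `inr i` in the range) and the assignments are injective.
`clone_cliqueFree`: as for `Ext`: a triangle has at most one new vertex.
`df_clone`: the pairs adjacent in `Cl G A m` and not in `Cl G' A m` are pairs of old vertices.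
-/

set_option autoImplicit false

namespace Pool.Agent.WT7

variable {α β V W : Type}

/-- the embedding of `Option V` with the new vertex `i` -/
private def emb {m : ℕ} (i : Fin m) : Option V → V ⊕ Fin m
  | none => .inr i
  | some a => .inl a

private theorem emb_inj {m : ℕ} (i : Fin m) : Function.Injective (emb (V := V) i) := by
  intro a b h
  cases a <;> cases b <;> simp_all [emb]

private theorem emb_adj {m : ℕ} (i : Fin m) (G : SimpleGraph V) (A : Set V) (a b : Option V)
    (h : (Ext G A).Adj a b) : (Cl G A m).Adj (emb i a) (emb i b) := by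
  cases a <;> cases b <;> simp_all [emb, Ext, Cl]

theorem inj_clone [Finite α] [Finite V] (H : SimpleGraph α) (G : SimpleGraph V) (A : Set V) (m : ℕ) :
    inj H G + m * D H G A ≤ inj H (Cl G A m) := by
  classical
  set S0 : Set (α → V) := {f | IsInj H G f}
  set S1 : Set (α → Option V) := {f | IsInj H (Ext G A) f ∧ ∃ x, f x = none}
  set T : Set (α → V ⊕ Fin m) := {f | IsInj H (Cl G A m) f}
  have h0 : ∀ f ∈ S0, (fun x => (Sum.inl (f x) : V ⊕ Fin m)) ∈ T := by
    intro f hf
    refine ⟨fun x y h => hf.1 (Sum.inl_injective h), fun x y h => ?_⟩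
    exact hf.2 x y h
  have h1 : ∀ i : Fin m, ∀ f ∈ S1, (fun x => emb i (f x)) ∈ T := by
    intro i f hf
    refine ⟨fun x y h => hf.1.1 (emb_inj i h), fun x y h => ?_⟩
    exact emb_adj i G A _ _ (hf.1.2 x y h)
  let φ : S0 ⊕ (Fin m × S1) → T
    | .inl f => ⟨fun x => Sum.inl (f.1 x), h0 f.1 f.2⟩
    | .inr p => ⟨fun x => emb p.1 (p.2.1 x), h1 p.1 p.2.1 p.2.2⟩
  have hφ : Function.Injective φ := by
    rintro (f | ⟨i, f⟩) (g | ⟨j, g⟩) h
    · have h' : (fun x => (Sum.inl (f.1 x) : V ⊕ Fin m)) = fun x => Sum.inl (g.1 x) :=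
        congrArg Subtype.val h
      congr 1
      ext x
      exact Sum.inl_injective (congrFun h' x)
    · exfalso
      have h' : (fun x => (Sum.inl (f.1 x) : V ⊕ Fin m)) = fun x => emb j (g.1 x) :=
        congrArg Subtype.val h
      obtain ⟨x, hx⟩ := g.2.2
      have := congrFun h' x
      simp [hx, emb] at this
    · exfalso
      have h' : (fun x => emb i (f.1 x)) = fun x => (Sum.inl (g.1 x) : V ⊕ Fin m) :=
        congrArg Subtype.val h
      obtain ⟨x, hx⟩ := f.2.2
      have := congrFun h' x
      simp [hx, emb] at this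
    · have h' : (fun x => emb i (f.1 x)) = fun x => emb j (g.1 x) := congrArg Subtype.val h
      obtain ⟨x, hx⟩ := f.2.2
      have e : i = j := by
        have := congrFun h' x
        rw [hx] at this
        cases hg : g.1 x with
        | none => rw [hg] at this; simpa [emb] using this
        | some a => rw [hg] at this; simp [emb] at this
      subst e
      congr 2
      ext x : 2
      exact emb_inj i (congrFun h' x)
  have : Finite T := inferInstance
  have hc := Nat.card_le_card_of_injective φ hφ
  rw [Nat.card_sum, Nat.card_prod, Nat.card_eq_fintype_card (α := Fin m), Fintype.card_fin,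
    Nat.card_coe_set_eq, Nat.card_coe_set_eq, Nat.card_coe_set_eq] at hc
  exact hc

theorem clone_cliqueFree {G : SimpleGraph V} {A : Set V} (hG : G.CliqueFree 3) (hA : ∀ a ∈ A, ∀ b ∈ A, ¬ G.Adj a b)
    (m : ℕ) : (Cl G A m).CliqueFree 3 := by
  classical
  intro s hs
  rw [SimpleGraph.is3Clique_iff] at hs
  obtain ⟨a, b, c, hab, hac, hbc, -⟩ := hs
  cases a with
  | inl a =>
    cases b with
    | inl b =>
      cases c with
      | inl c =>
        exact hG {a, b, c} (SimpleGraph.is3Clique_iff.2 ⟨a, b, c, hab, hac, hbc, rfl⟩)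
      | inr c => exact hA a hac b hbc hab
    | inr b =>
      cases c with
      | inl c => exact hA a hab c hbc hac
      | inr c => exact hbc
  | inr a =>
    cases b with
    | inl b =>
      cases c with
      | inl c => exact hA b hab c hac hbc
      | inr c => exact hac
    | inr b => exact hab

theorem df_clone [Finite V] (G G' : SimpleGraph V) (A : Set V) (m : ℕ) : df (Cl G A m) (Cl G' A m) ≤ df G G' := by
  classical
  have h : {p : (V ⊕ Fin m) × (V ⊕ Fin m) | (Cl G A m).Adj p.1 p.2 ∧ ¬ (Cl G' A m).Adj p.1 p.2} ⊆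
      (fun p : V × V => ((Sum.inl p.1, Sum.inl p.2) : (V ⊕ Fin m) × (V ⊕ Fin m))) ''
        {p : V × V | G.Adj p.1 p.2 ∧ ¬ G'.Adj p.1 p.2} := by
    rintro ⟨x, y⟩ ⟨h1, h2⟩
    cases x with
    | inl x =>
      cases y with
      | inl y => exact ⟨(x, y), ⟨h1, h2⟩, rfl⟩
      | inr y => exact absurd h1 h2
    | inr x =>
      cases y with
      | inl y => exact absurd h1 h2
      | inr y => exact absurd h1 h2
  calc df (Cl G A m) (Cl G' A m) ≤ _ := Set.ncard_le_ncard h (Set.toFinite _)
    _ ≤ _ := Set.ncard_image_le (Set.toFinite _)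

end Pool.Agent.WT7
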