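import Pool.Agent.WT7.Del

/-!
# [WT7-KGrow] growth of the extremal numbers for `K_k`

`a n = bF H (⊤ : SimpleGraph (Fin k)) n`, the maximum of `inj H G` over the `K_k`-free graphs on `n` vertices.
`kfree_ext`: a `k`-clique in `Ext G (N(v))` with the new vertex becomes one in `G` when `none` is replaced by `v` (`v` is not in the clique, since `none` and `some v` are not adjacent). (`(⊤ : SimpleGraph (Fin k)).Free G ↔ G.CliqueFree k`: see
`SimpleGraph.cliqueFree_iff`, `SimpleGraph.top_isIndContained_iff_top_isContained`, `not_nonempty_iff`; work with maps `Fin k → V` which are pairwise adjacent.)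
`k_step`: as `a3_step` (Del.lean): clone the vertex of largest `dg`.
`k_lower`: for `n = |α| q + r`: the blow-up `H.comap Prod.fst` on `α × Fin q` is `K_k`-free and has at least `q^|α|` labelled copies of `H` (`x ↦ (x, g x)`, `g : α → Fin q` arbitrary); it has `|α| q ≤ n` vertices; add isolated vertices (e.g. the graph on
`(α × Fin q) ⊕ Fin (n - |α| q)`); `q ≥ n / (2 |α|)` for `n ≥ |α|`. So `c = (1 / (2 |α|))^|α|` works.
`k_growth`: `a (n+1) ≥ a n (1 + h / n) ≥ a n + h c n^(h-1) ≥ a n + h c 2^(-h) (n+1)^(h-1)` for `n ≥ max(1, |α|)`.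
-/

set_option autoImplicit false

namespace Pool.Agent.WT7

variable {α β V W : Type}

theorem kfree_ext {k : ℕ} {G : SimpleGraph V} (hG : (⊤ : SimpleGraph (Fin k)).Free G) (v : V) :
    (⊤ : SimpleGraph (Fin k)).Free (Ext G (G.neighborSet v)) := by
  rintro ⟨φ⟩
  refine hG ⟨⟨⟨fun x => (φ x).getD v, ?_⟩, ?_⟩⟩
  · intro x y hxy
    have h := φ.toHom.map_adj hxy
    change (Ext G (G.neighborSet v)).Adj (φ x) (φ y) at h
    revert h
    generalize φ x = a
    generalize φ y = b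
    intro h
    cases a with
    | none =>
      cases b with
      | none => exact h.elim
      | some b => exact h
    | some a =>
      cases b with
      | none => exact (show G.Adj v a from h).symm
      | some b => exact h
  · exact SimpleGraph.Hom.injective_of_top_hom _

private theorem kg_top {k : ℕ} (hk : 2 ≤ k) : ∃ a b, (⊤ : SimpleGraph (Fin k)).Adj a b :=
  ⟨⟨0, by omega⟩, ⟨1, by omega⟩, by simp [SimpleGraph.top_adj]⟩

private theorem kg_free {k : ℕ} {H : SimpleGraph α} (hH : H.CliqueFree k) (p : V → α) :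
    (⊤ : SimpleGraph (Fin k)).Free (H.comap p) := by
  rintro ⟨φ⟩
  refine (SimpleGraph.cliqueFree_iff.1 hH).false ⟨⟨fun x => p (φ x), ?_⟩, ?_⟩
  · intro x y hxy
    exact φ.toHom.map_adj hxy
  · exact SimpleGraph.Hom.injective_of_top_hom _

theorem k_step [Finite α] (H : SimpleGraph α) {k : ℕ} (hk : 2 ≤ k) {n : ℕ} (hn : 1 ≤ n) :
    (n + Nat.card α) * bF H (⊤ : SimpleGraph (Fin k)) n ≤ n * bF H (⊤ : SimpleGraph (Fin k)) (n + 1) := by
  obtain ⟨G, hG, hG3⟩ := exists_bF H (kg_top hk) n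
  have : Nonempty (Fin n) := ⟨⟨0, hn⟩⟩
  obtain ⟨v, hv⟩ := exists_dg_ge H G
  have h1 := inj_le_bF H _ (kfree_ext hG v)
  have h2 := inj_add_D_le H G (G.neighborSet v)
  have h3 := dg_le_D H G v
  have h4 : Nat.card (Option (Fin n)) = n + 1 := by simp
  rw [h4] at h1
  rw [hG3] at hv h2
  rw [Nat.card_fin] at hv
  set b0 := bF H (⊤ : SimpleGraph (Fin k)) n
  set b1 := bF H (⊤ : SimpleGraph (Fin k)) (n + 1)
  calc (n + Nat.card α) * b0 = n * b0 + Nat.card α * b0 := by ring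
    _ ≤ n * b0 + n * dg H G v := Nat.add_le_add_left hv _
    _ = n * (b0 + dg H G v) := by ring
    _ ≤ n * b1 := Nat.mul_le_mul_left _ (by omega)

private theorem kg_pow [Finite α] [Nonempty α] {H : SimpleGraph α} {k : ℕ} (hH : H.CliqueFree k) (n : ℕ) :
    (n / Nat.card α) ^ Nat.card α ≤ bF H (⊤ : SimpleGraph (Fin k)) n := by
  set h := Nat.card α with hh
  have hpos : 0 < h := Nat.card_pos
  set q := n / h with hq
  have hqn : h * q ≤ n := Nat.mul_div_le n h
  set e : α ≃ Fin h := Finite.equivFin α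
  set p : Fin n → α := fun i => e.symm ⟨i.1 % h, Nat.mod_lt _ hpos⟩ with hp
  have h1 := inj_le_bF H _ (kg_free hH p)
  rw [Nat.card_fin] at h1
  refine le_trans ?_ h1
  have hlt : ∀ (g : Fin q) (x : α), h * g.1 + (e x).1 < n := by
    intro g x
    have h2 : h * (g.1 + 1) ≤ h * q := Nat.mul_le_mul_left _ g.2
    have h3 := (e x).2
    rw [Nat.mul_add, Nat.mul_one] at h2
    omega
  have h2 : q ^ h = Set.ncard (Set.univ : Set (α → Fin q)) := by
    rw [Set.ncard_univ, Nat.card_fun, Nat.card_fin]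
  rw [h2]
  unfold inj
  refine Set.ncard_le_ncard_of_injOn (fun g x => ⟨h * (g x).1 + (e x).1, hlt (g x) x⟩) ?_ ?_ (Set.toFinite _)
  · intro g _
    have hpx : ∀ x, p ⟨h * (g x).1 + (e x).1, hlt (g x) x⟩ = x := by
      intro x
      rw [hp]
      have : (⟨(h * (g x).1 + (e x).1) % h, Nat.mod_lt _ hpos⟩ : Fin h) = e x := by
        apply Fin.ext
        change (h * (g x).1 + (e x).1) % h = (e x).1
        rw [Nat.mul_add_mod, Nat.mod_eq_of_lt (e x).2]
      simp only [this, Equiv.symm_apply_apply]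
    refine ⟨?_, ?_⟩
    · intro x y hxy
      have := congrArg p hxy
      simp only at this
      rwa [hpx, hpx] at this
    · intro x y hxy
      rw [SimpleGraph.comap_adj]
      simp only
      rw [hpx, hpx]
      exact hxy
  · intro g _ g' _ hgg
    funext x
    have h3 := congrArg Fin.val (congrFun hgg x)
    simp only at h3
    have h4 : h * (g x).1 = h * (g' x).1 := by omega
    exact Fin.ext (Nat.eq_of_mul_eq_mul_left hpos h4)

theorem k_lower [Finite α] [Nonempty α] {H : SimpleGraph α} {k : ℕ} (hk : 2 ≤ k) (hH : H.CliqueFree k) :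
    ∃ c : ℝ, 0 < c ∧ ∃ n₀ : ℕ, ∀ n ≥ n₀, c * (n : ℝ) ^ Nat.card α ≤ bF H (⊤ : SimpleGraph (Fin k)) n := by
  have hpos : 0 < Nat.card α := Nat.card_pos
  have hposR : (0 : ℝ) < Nat.card α := by exact_mod_cast hpos
  refine ⟨(1 / (2 * (Nat.card α : ℝ))) ^ Nat.card α, by positivity, Nat.card α, fun n hn => ?_⟩
  have h1 := kg_pow (H := H) hH n
  have h2 : (((n / Nat.card α : ℕ) : ℝ)) ^ Nat.card α ≤ bF H (⊤ : SimpleGraph (Fin k)) n := by exact_mod_cast h1
  refine le_trans ?_ h2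
  rw [← mul_pow]
  refine pow_le_pow_left₀ (by positivity) ?_ _
  have h3 : 1 ≤ n / Nat.card α := (Nat.one_le_div_iff hpos).2 hn
  have h4 : n < Nat.card α * (n / Nat.card α + 1) := Nat.lt_mul_div_succ n hpos
  have h5 : n ≤ 2 * Nat.card α * (n / Nat.card α) := by
    have : Nat.card α * (n / Nat.card α + 1) ≤ Nat.card α * (2 * (n / Nat.card α)) :=
      Nat.mul_le_mul_left _ (by omega)
    calc n ≤ Nat.card α * (2 * (n / Nat.card α)) := by omega
      _ = _ := by ring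
  have h6 : (n : ℝ) ≤ 2 * (Nat.card α : ℝ) * ((n / Nat.card α : ℕ) : ℝ) := by exact_mod_cast h5
  rw [one_div, inv_mul_le_iff₀ (by positivity)]
  exact h6

theorem k_growth [Finite α] [Nonempty α] {H : SimpleGraph α} {k : ℕ} (hk : 2 ≤ k) (hH : H.CliqueFree k) :
    ∃ c : ℝ, 0 < c ∧ ∃ n₀ : ℕ, ∀ n ≥ n₀, (bF H (⊤ : SimpleGraph (Fin k)) n : ℝ) +
      c * ((n : ℝ) + 1) ^ (Nat.card α - 1) ≤ bF H (⊤ : SimpleGraph (Fin k)) (n + 1) := by
  obtain ⟨c, hc, n₀, hn₀⟩ := k_lower hk hH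
  have hpos : 0 < Nat.card α := Nat.card_pos
  have hposR : (1 : ℝ) ≤ Nat.card α := by exact_mod_cast hpos
  refine ⟨c / 2 ^ (Nat.card α - 1), by positivity, max n₀ 1, fun n hn => ?_⟩
  have hn1 : n₀ ≤ n := le_trans (le_max_left _ _) hn
  have hn2 : 1 ≤ n := le_trans (le_max_right _ _) hn
  have h1 := hn₀ n hn1
  have h2 := k_step H hk hn2
  have h2' : ((n : ℝ) + Nat.card α) * (bF H (⊤ : SimpleGraph (Fin k)) n : ℝ) ≤
      n * (bF H (⊤ : SimpleGraph (Fin k)) (n + 1) : ℝ) := by exact_mod_cast h2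
  set b0 : ℝ := (bF H (⊤ : SimpleGraph (Fin k)) n : ℝ)
  set b1 : ℝ := (bF H (⊤ : SimpleGraph (Fin k)) (n + 1) : ℝ)
  have hnR : (1 : ℝ) ≤ n := by exact_mod_cast hn2
  have hn0 : (0 : ℝ) < n := by linarith
  obtain ⟨m, hm⟩ : ∃ m, Nat.card α = m + 1 := ⟨Nat.card α - 1, by omega⟩
  have hb0 : 0 ≤ b0 := Nat.cast_nonneg _
  have h3 : (n : ℝ) * (c * (n : ℝ) ^ (Nat.card α - 1)) ≤ b0 := by
    calc (n : ℝ) * (c * (n : ℝ) ^ (Nat.card α - 1)) = c * (n : ℝ) ^ Nat.card α := by
          rw [hm, Nat.add_sub_cancel, pow_succ]; ring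
      _ ≤ b0 := h1
  have h4 : ((n : ℝ) + 1) ^ (Nat.card α - 1) ≤ 2 ^ (Nat.card α - 1) * (n : ℝ) ^ (Nat.card α - 1) := by
    rw [← mul_pow]
    exact pow_le_pow_left₀ (by linarith) (by linarith) _
  have h5 : c / 2 ^ (Nat.card α - 1) * ((n : ℝ) + 1) ^ (Nat.card α - 1) ≤ c * (n : ℝ) ^ (Nat.card α - 1) := by
    rw [div_mul_eq_mul_div, div_le_iff₀ (by positivity)]
    calc c * ((n : ℝ) + 1) ^ (Nat.card α - 1) ≤ c * (2 ^ (Nat.card α - 1) * (n : ℝ) ^ (Nat.card α - 1)) :=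
          mul_le_mul_of_nonneg_left h4 hc.le
      _ = _ := by ring
  have h6 : (n : ℝ) * (b0 + c * (n : ℝ) ^ (Nat.card α - 1)) ≤ n * b1 := by
    have h7 : b0 ≤ Nat.card α * b0 := le_mul_of_one_le_left hb0 hposR
    calc (n : ℝ) * (b0 + c * (n : ℝ) ^ (Nat.card α - 1)) = n * b0 + n * (c * (n : ℝ) ^ (Nat.card α - 1)) := by ring
      _ ≤ n * b0 + Nat.card α * b0 := by linarith
      _ = ((n : ℝ) + Nat.card α) * b0 := by ring
      _ ≤ n * b1 := h2'
  have h8 := le_of_mul_le_mul_left h6 hn0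
  linarith

end Pool.Agent.WT7
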