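import Pool.Agent.WT7.Defs

/-!
# [WT7-CopyM] labelled and unlabelled copies

`inj H G = |Aut H| * copyCount`: the map which sends a labelled copy `f` (an injective homomorphism, `SimpleGraph.Copy H G`) to its image subgraph (`Copy.toSubgraph`) has all fibres of size `|Aut H| = Nat.card (H ≃g H)`: fixing
one `f₀` with image `G'`, the labelled copies with image `G'` are `f₀ ∘ σ`, `σ ∈ Aut H` (`Copy.isoToSubgraph`, `SimpleGraph.copyCount_eq_card_image_copyToSubgraph`). `Nat.card (H ≃g H)` is positive and finite.
-/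

set_option autoImplicit false

namespace Pool.Agent.WT7

variable {α β V W : Type}

private theorem cm_fin [Finite α] [Finite β] (H : SimpleGraph α) (K : SimpleGraph β) : Finite (H ≃g K) :=
  Finite.of_injective (fun e : H ≃g K => (e : α → β)) DFunLike.coe_injective

private def cmMap (H : SimpleGraph α) (G : SimpleGraph V) (p : Σ G' : G.Subgraph, (H ≃g G'.coe)) :
    {f : α → V | IsInj H G f} :=
  ⟨fun x => (p.2 x : V), by
    refine ⟨fun x y hxy => p.2.injective (Subtype.ext hxy), fun x y hxy => ?_⟩
    exact p.1.adj_sub (p.2.map_rel_iff.2 hxy)⟩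

private theorem cm_bij (H : SimpleGraph α) (G : SimpleGraph V) : Function.Bijective (cmMap H G) := by
  constructor
  · rintro ⟨G₁, e₁⟩ ⟨G₂, e₂⟩ h
    have h1 : ∀ x, (e₁ x : V) = (e₂ x : V) := fun x => congrFun (congrArg Subtype.val h) x
    have hv : ∀ v, v ∈ G₁.verts ↔ v ∈ G₂.verts := by
      intro v
      constructor
      · intro hv
        obtain ⟨x, hx⟩ := e₁.surjective ⟨v, hv⟩
        have h2 : (e₁ x : V) = v := congrArg Subtype.val hx
        rw [← h2, h1]
        exact (e₂ x).2
      · intro hv
        obtain ⟨x, hx⟩ := e₂.surjective ⟨v, hv⟩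
        have h2 : (e₂ x : V) = v := congrArg Subtype.val hx
        rw [← h2, ← h1]
        exact (e₁ x).2
    have hG : G₁ = G₂ := by
      ext a b
      · exact hv a
      · constructor
        · intro hab
          obtain ⟨x, hx⟩ := e₁.surjective ⟨a, G₁.edge_vert hab⟩
          obtain ⟨y, hy⟩ := e₁.surjective ⟨b, G₁.edge_vert hab.symm⟩
          have h2 : (e₁ x : V) = a := congrArg Subtype.val hx
          have h3 : (e₁ y : V) = b := congrArg Subtype.val hy
          have h4 : H.Adj x y := by
            rw [← e₁.map_rel_iff]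
            show G₁.Adj (e₁ x : V) (e₁ y : V)
            rw [h2, h3]
            exact hab
          have h5 : G₂.Adj (e₂ x : V) (e₂ y : V) := e₂.map_rel_iff.2 h4
          rw [← h1, ← h1, h2, h3] at h5
          exact h5
        · intro hab
          obtain ⟨x, hx⟩ := e₂.surjective ⟨a, G₂.edge_vert hab⟩
          obtain ⟨y, hy⟩ := e₂.surjective ⟨b, G₂.edge_vert hab.symm⟩
          have h2 : (e₂ x : V) = a := congrArg Subtype.val hx
          have h3 : (e₂ y : V) = b := congrArg Subtype.val hy
          have h4 : H.Adj x y := by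
            rw [← e₂.map_rel_iff]
            show G₂.Adj (e₂ x : V) (e₂ y : V)
            rw [h2, h3]
            exact hab
          have h5 : G₁.Adj (e₁ x : V) (e₁ y : V) := e₁.map_rel_iff.2 h4
          rw [h1, h1, h2, h3] at h5
          exact h5
    subst hG
    have he : e₁ = e₂ := DFunLike.ext _ _ fun x => Subtype.ext (h1 x)
    rw [he]
  · rintro ⟨f, hf⟩
    let c : SimpleGraph.Copy H G := ⟨⟨f, fun {a b} hab => hf.2 a b hab⟩, hf.1⟩
    refine ⟨⟨c.toSubgraph, c.isoToSubgraph⟩, ?_⟩
    apply Subtype.ext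
    funext x
    rfl

theorem inj_eq_aut_mul [Finite α] [Fintype V] (H : SimpleGraph α) (G : SimpleGraph V) :
    inj H G = Nat.card (H ≃g H) * G.copyCount H := by
  classical
  have h1 : inj H G = Nat.card (Σ G' : G.Subgraph, (H ≃g G'.coe)) := by
    unfold inj
    rw [← Nat.card_coe_set_eq]
    exact (Nat.card_eq_of_bijective _ (cm_bij H G)).symm
  have : ∀ G' : G.Subgraph, Finite (H ≃g G'.coe) := fun G' => cm_fin H G'.coe
  rw [h1, Nat.card_sigma]
  have h2 : ∀ G' : G.Subgraph, Nat.card (H ≃g G'.coe) =
      if Nonempty (H ≃g G'.coe) then Nat.card (H ≃g H) else 0 := by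
    intro G'
    split_ifs with h
    · obtain ⟨e⟩ := h
      refine Nat.card_congr ⟨fun f => f.trans e.symm, fun f => f.trans e, fun f => ?_, fun f => ?_⟩
      · refine DFunLike.ext _ _ fun x => ?_
        exact e.apply_symm_apply (f x)
      · refine DFunLike.ext _ _ fun x => ?_
        exact e.symm_apply_apply (f x)
    · have : IsEmpty (H ≃g G'.coe) := not_nonempty_iff.1 h
      exact Nat.card_of_isEmpty
  rw [Finset.sum_congr rfl fun G' _ => h2 G', ← Finset.sum_filter, Finset.sum_const, smul_eq_mul, mul_comm]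
  congr 1

theorem aut_pos [Finite α] (H : SimpleGraph α) : 0 < Nat.card (H ≃g H) := by
  have := cm_fin H H
  have : Nonempty (H ≃g H) := ⟨SimpleGraph.Iso.refl⟩
  exact Nat.card_pos

end Pool.Agent.WT7
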