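import Pool.Agent.WT7.IsoRed
import Pool.Agent.WT7.CopyM

/-!
# [WT7-Fin] the statement

`exists_crit`: `F` is not 2-colourable and `F` minus the edge `u v` is: `chromaticNumber < 3` gives a colouring `c` with two colours (as a map to `Bool`); if `c u ≠ c v` then `c` is a 2-colouring of `F`. If `c u = c v = false` replace `c` by `!c`.
`ex_le`: `G` attains `ex n H F` (the set is finite, nonempty: `⊥`); `inj_eq_aut_mul`, `inj_le_bF`, `main_all`, `exists_a3` with `G₁`: `|Aut| * ex n H F ≤ bF ≤ a3 = |Aut| * copyCount G₁ H ≤ |Aut| * ex n H K₃`. `CliqueFree 3` and `(⊤ : SimpleGraph (Fin 3)).Free` are the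
same (`SimpleGraph.cliqueFree_iff`, `SimpleGraph.topEmbedding..`/`isContained_iff..`).
`good`: for large `n` the graph `G` of the hypothesis (complete 2-partite) has `copyCount = ex n H K₃ ≥ ex n H F` and is `F`-free (a copy of `F` would give a 2-colouring of `F`), so `copyCount ≤ ex n H F`.
(`chromaticNumber (⊤ : SimpleGraph (Fin 3)) = 3`: `SimpleGraph.chromaticNumber_top`.)
-/

set_option autoImplicit false

namespace Pool.Agent.WT7

variable {α β V W : Type}

/-- `ex(n, H, F)`: the maximum number of copies of `H` (subgraphs isomorphic to `H`) in a graph with `n` vertices that has no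
subgraph isomorphic to `F` -/
noncomputable def ex (n : ℕ) (H : SimpleGraph α) (F : SimpleGraph β) : ℕ :=
  sSup {m | ∃ G : SimpleGraph (_root_.Fin n), F.Free G ∧ G.copyCount H = m}

/-- `G` is a complete `k`-partite graph (with `k` nonempty parts, of any sizes) -/
def IsCompletePartite {V : Type} (G : SimpleGraph V) (k : ℕ) : Prop :=
  ∃ c : V → _root_.Fin k, Function.Surjective c ∧ ∀ x y, G.Adj x y ↔ c x ≠ c y

/-- `H` is weakly `F`-Turan-good: for all large `n` the number `ex(n, H, F)` is attained by a complete `(χ(F) - 1)`-partite graph -/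
def WeaklyTuranGood (H : SimpleGraph α) (F : SimpleGraph β) : Prop :=
  ∃ k : ℕ, F.chromaticNumber = (k + 1 : ℕ) ∧ ∃ n₀ : ℕ, ∀ n ≥ n₀, ∃ G : SimpleGraph (_root_.Fin n),
    IsCompletePartite G k ∧ G.copyCount H = ex n H F

/-- the edge `e` of `F` is colour-critical -/
def IsColorCritical (F : SimpleGraph β) (e : Sym2 β) : Prop :=
  e ∈ F.edgeSet ∧ (F.deleteEdges {e}).chromaticNumber < F.chromaticNumber

theorem exists_crit [Finite β] {F : SimpleGraph β} (hF : F.chromaticNumber = 3) {u v : β}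
    (he : IsColorCritical F s(u, v)) (ht : ∀ w w', F.Adj u w → F.Adj v w → F.Adj u w' → F.Adj v w' → w = w') :
    ∃ c : β → Bool, Crit F u v c := by
  classical
  obtain ⟨he1, he2⟩ := he
  have hadj : F.Adj u v := he1
  have h2 : ¬ F.Colorable 2 := by
    intro h
    have h' := SimpleGraph.chromaticNumber_le_iff_colorable.2 h
    rw [hF] at h'
    exact absurd h' (by decide)
  have h3 : (F.deleteEdges {s(u, v)}).Colorable 2 := by
    rw [hF] at he2
    refine SimpleGraph.chromaticNumber_le_iff_colorable.1 ?_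
    refine Order.le_of_lt_add_one ?_
    have h4 : ((2 : ℕ) : ℕ∞) + 1 = 3 := by norm_num
    rw [h4]
    exact he2
  obtain ⟨C⟩ := h3
  have hC : ∀ x y, F.Adj x y → s(x, y) ≠ s(u, v) → C x ≠ C y := by
    intro x y hxy hne
    refine C.valid ?_
    rw [SimpleGraph.deleteEdges_adj]
    exact ⟨hxy, fun h => hne (Set.mem_singleton_iff.1 h)⟩
  have huv : C v = C u := by
    by_contra hne
    refine h2 ⟨SimpleGraph.Coloring.mk C ?_⟩
    intro x y hxy
    by_cases h : s(x, y) = s(u, v)
    · rcases Sym2.eq_iff.1 h with ⟨rfl, rfl⟩ | ⟨rfl, rfl⟩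
      · exact fun h' => hne h'.symm
      · exact hne
    · exact hC x y hxy h
  refine ⟨fun x => decide (C x = C u), hadj, by simp, by simp [huv], ?_, ht⟩
  intro x y hxy
  by_cases h : s(x, y) = s(u, v)
  · right
    rcases Sym2.eq_iff.1 h with h | h
    · exact Or.inl h
    · exact Or.inr h
  · left
    have h5 := hC x y hxy h
    intro h6
    have h7 : (C x = C u) ↔ (C y = C u) := decide_eq_decide.1 h6
    by_cases h8 : C x = C u
    · exact h5 (h8.trans (h7.1 h8).symm)
    · have h9 : C y ≠ C u := fun h => h8 (h7.2 h)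
      omega

private theorem fin_bdd [Finite α] (H : SimpleGraph α) (n : ℕ) (P : SimpleGraph (_root_.Fin n) → Prop) :
    BddAbove {m | ∃ G : SimpleGraph (_root_.Fin n), P G ∧ G.copyCount H = m} := by
  refine ⟨Nat.card (_root_.Fin n) ^ Nat.card α, ?_⟩
  rintro m ⟨G, -, rfl⟩
  have h1 := (inj_le_hom H G).trans (hom_le_pow H G)
  rw [inj_eq_aut_mul] at h1
  exact (Nat.le_mul_of_pos_left _ (aut_pos H)).trans h1

private theorem fin_le_ex [Finite α] (H : SimpleGraph α) (F : SimpleGraph β) {n : ℕ}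
    {G : SimpleGraph (_root_.Fin n)} (hG : F.Free G) : G.copyCount H ≤ ex n H F :=
  le_csSup (fin_bdd H n _) ⟨G, hG, rfl⟩

theorem ex_le [Finite α] [Finite β] {H : SimpleGraph α} (hH : H.Colorable 2) {F : SimpleGraph β} {u v : β}
    {c : β → Bool} (hc : Crit F u v c) :
    ∃ n₀ : ℕ, ∀ n ≥ n₀, ex n H F ≤ ex n H (⊤ : SimpleGraph (_root_.Fin 3)) := by
  obtain ⟨n₀, hn₀⟩ := main_all hH hc
  refine ⟨n₀, fun n hn => ?_⟩
  have hF' : F ≠ ⊥ := by
    rintro rfl
    exact hc.adj
  obtain ⟨G, hGF, hG⟩ := Nat.sSup_mem (s := {m | ∃ G : SimpleGraph (_root_.Fin n), F.Free G ∧ G.copyCount H = m})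
    ⟨_, ⊥, SimpleGraph.free_bot hF', rfl⟩ (fin_bdd H n _)
  obtain ⟨G₁, hG₁, hG₁'⟩ := exists_a3 H n
  have h1 := inj_le_bF H F hGF
  rw [Nat.card_fin] at h1
  have h2 : inj H G ≤ inj H G₁ := by
    rw [hG₁']
    exact h1.trans (hn₀ n hn)
  rw [inj_eq_aut_mul, inj_eq_aut_mul] at h2
  have h3 : G.copyCount H ≤ G₁.copyCount H := Nat.le_of_mul_le_mul_left h2 (aut_pos H)
  have h4 : (⊤ : SimpleGraph (_root_.Fin 3)).Free G₁ := by
    have h5 := SimpleGraph.cliqueFree_iff.1 hG₁
    rintro ⟨f⟩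
    exact h5.elim f
  have h5 : ex n H F = G.copyCount H := hG.symm
  rw [h5]
  exact h3.trans (fin_le_ex H _ h4)

theorem good [Finite α] [Finite β] {H : SimpleGraph α} (hH : H.Colorable 2) {F : SimpleGraph β} {u v : β}
    {c : β → Bool} (hF : F.chromaticNumber = 3) (hc : Crit F u v c)
    (hg : WeaklyTuranGood H (⊤ : SimpleGraph (_root_.Fin 3))) : WeaklyTuranGood H F := by
  obtain ⟨k, hk, n₀, hn₀⟩ := hg
  obtain ⟨n₁, hn₁⟩ := ex_le hH hc
  have hk2 : k = 2 := by
    rw [SimpleGraph.chromaticNumber_top, Fintype.card_fin] at hk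
    have h := Nat.cast_injective (R := ℕ∞) hk
    omega
  subst hk2
  refine ⟨2, ?_, max n₀ n₁, fun n hn => ?_⟩
  · rw [hF]
    norm_num
  · obtain ⟨G, hG, hG'⟩ := hn₀ n (le_trans (le_max_left _ _) hn)
    refine ⟨G, hG, le_antisymm (fin_le_ex H F ?_) ?_⟩
    · rintro ⟨f⟩
      obtain ⟨d, -, hd⟩ := hG
      have h2 : F.Colorable 2 := by
        refine ⟨SimpleGraph.Coloring.mk (fun x => d (f x)) ?_⟩
        intro x y hxy
        exact (hd _ _).1 (f.toHom.map_adj hxy)
      have h' := SimpleGraph.chromaticNumber_le_iff_colorable.2 h2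
      rw [hF] at h'
      exact absurd h' (by decide)
    · rw [hG']
      exact hn₁ n (le_trans (le_max_right _ _) hn)

theorem final [Finite α] [Finite β] {H : SimpleGraph α} (hH : H.Colorable 2) {F : SimpleGraph β}
    (hF : F.chromaticNumber = 3) {u v : β} (he : IsColorCritical F s(u, v))
    (ht : ∀ w w', F.Adj u w → F.Adj v w → F.Adj u w' → F.Adj v w' → w = w') :
    (∃ n₀ : ℕ, ∀ n ≥ n₀, ex n H F ≤ ex n H (⊤ : SimpleGraph (_root_.Fin 3))) ∧
      (WeaklyTuranGood H (⊤ : SimpleGraph (_root_.Fin 3)) → WeaklyTuranGood H F) := by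
  obtain ⟨c, hc⟩ := exists_crit hF he ht
  exact ⟨ex_le hH hc, good hH hF hc⟩

end Pool.Agent.WT7
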