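import Pool.Agent.WT7.Basic
import Pool.Agent.WT7.ExtM

/-!
# [WT7-Del] deleting and cloning a vertex

`sum_dg`: double counting of the pairs (labelled copy `f`, vertex `v` in its range): every range has `|α|` elements.
`exists_dg_ge`: the maximum is at least the average.
`inj_le_del`: the labelled copies which do not use `v` are labelled copies of the graph induced on `{x | x ≠ v}`.
`bF_step`: `inj_le_del` and `inj_le_bF` for the induced graph (it has `|V| - 1` vertices and is `F`-free:
`SimpleGraph.Free`, an induced subgraph is contained in `G`, `SimpleGraph.Embedding.induce`/`Copy.induce`).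
`a3_step`: `G` with `inj H G = a3 H n` (`exists_a3`), `v` with `|α| * inj H G ≤ n * dg v` (`exists_dg_ge`), the graph `Ext G (N(v))` is
triangle-free (`ext_cliqueFree`, `N(v)` is independent), has `n + 1` vertices, and `inj_add_D_le`, `dg_le_D`, `inj_le_a3`.
-/

set_option autoImplicit false

namespace Pool.Agent.WT7

variable {α β V W : Type}

theorem sum_dg [Finite α] [Fintype V] (H : SimpleGraph α) (G : SimpleGraph V) :
    ∑ v, dg H G v = Nat.card α * inj H G := by
  classical
  have := Fintype.ofFinite α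
  set S : Finset (α → V) := Finset.univ.filter (fun f => IsInj H G f) with hS
  have h1 : inj H G = S.card := by
    have : {f : α → V | IsInj H G f} = (S : Set (α → V)) := by ext; simp [hS]
    rw [inj, this, Set.ncard_coe_finset]
  have h2 : ∀ v, dg H G v = ∑ f ∈ S, if (∃ x, f x = v) then 1 else 0 := by
    intro v
    have : {f : α → V | IsInj H G f ∧ ∃ x, f x = v} = (S.filter (fun f => ∃ x, f x = v) : Set (α → V)) := by
      ext; simp [hS]
    rw [dg, this, Set.ncard_coe_finset, Finset.card_filter]
  have h3 : ∀ f ∈ S, ∑ v : V, (if (∃ x, f x = v) then 1 else 0) = Nat.card α := by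
    intro f hf
    rw [← Finset.card_filter]
    have h4 : Finset.univ.filter (fun v => ∃ x, f x = v) = Finset.univ.image f := by ext; simp
    rw [h4, Finset.card_image_of_injective _ (Finset.mem_filter.1 hf).2.1, Finset.card_univ, Nat.card_eq_fintype_card]
  simp_rw [h2]
  rw [Finset.sum_comm, Finset.sum_congr rfl h3, Finset.sum_const, h1, smul_eq_mul, mul_comm]

theorem exists_dg_ge [Finite α] [Finite V] [Nonempty V] (H : SimpleGraph α) (G : SimpleGraph V) :
    ∃ v, Nat.card α * inj H G ≤ Nat.card V * dg H G v := by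
  have := Fintype.ofFinite V
  by_contra hcon
  push Not at hcon
  have h1 : ∑ v : V, Nat.card V * dg H G v < ∑ _v : V, Nat.card α * inj H G :=
    Finset.sum_lt_sum_of_nonempty Finset.univ_nonempty fun v _ => hcon v
  rw [← Finset.mul_sum, sum_dg, Finset.sum_const, Finset.card_univ, smul_eq_mul, Nat.card_eq_fintype_card] at h1
  exact lt_irrefl _ h1

theorem inj_le_del [Finite α] [Finite V] (H : SimpleGraph α) (G : SimpleGraph V) (v : V) :
    inj H G ≤ inj H (G.induce {x | x ≠ v}) + dg H G v := by
  classical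
  have h1 : {f : α → V | IsInj H G f} ⊆
      ((fun (g : α → {x : V | x ≠ v}) (x : α) => (g x : V)) '' {g | IsInj H (G.induce {x | x ≠ v}) g}) ∪
        {f : α → V | IsInj H G f ∧ ∃ x, f x = v} := by
    intro f hf
    by_cases hv : ∃ x, f x = v
    · exact Or.inr ⟨hf, hv⟩
    · push Not at hv
      refine Or.inl ⟨fun x => ⟨f x, hv x⟩, ⟨?_, ?_⟩, rfl⟩
      · intro a b hab
        exact hf.1 (congrArg Subtype.val hab)
      · intro a b hab
        exact hf.2 a b hab
  calc inj H G ≤ _ := Set.ncard_le_ncard h1 (Set.toFinite _)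
    _ ≤ _ + _ := Set.ncard_union_le _ _
    _ ≤ _ := Nat.add_le_add_right (Set.ncard_image_le (Set.toFinite _)) _

theorem bF_step [Finite α] [Finite V] (H : SimpleGraph α) {F : SimpleGraph β} {G : SimpleGraph V} (hG : F.Free G)
    (v : V) : inj H G ≤ bF H F (Nat.card V - 1) + dg H G v := by
  have hF : F.Free (G.induce {x | x ≠ v}) := by
    intro h
    exact hG (h.trans ⟨SimpleGraph.Copy.induce G _⟩)
  have h1 := inj_le_bF H F hF
  have h2 : Nat.card {x : V | x ≠ v} = Nat.card V - 1 := by
    have h3 : {x : V | x ≠ v} = Set.univ \ {v} := by ext; simp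
    rw [Nat.card_coe_set_eq, h3, Set.ncard_sdiff_singleton_of_mem (Set.mem_univ v), Set.ncard_univ]
  rw [h2] at h1
  exact (inj_le_del H G v).trans (Nat.add_le_add_right h1 _)

theorem a3_step [Finite α] (H : SimpleGraph α) {n : ℕ} (hn : 1 ≤ n) :
    (n + Nat.card α) * a3 H n ≤ n * a3 H (n + 1) := by
  obtain ⟨G, hG, hG3⟩ := exists_a3 H n
  have : Nonempty (Fin n) := ⟨⟨0, hn⟩⟩
  obtain ⟨v, hv⟩ := exists_dg_ge H G
  have hind : ∀ a ∈ G.neighborSet v, ∀ b ∈ G.neighborSet v, ¬ G.Adj a b := by
    intro a ha b hb hab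
    exact hG {v, a, b} (SimpleGraph.is3Clique_triple_iff.2 ⟨ha, hb, hab⟩)
  have h1 := inj_le_a3 H (ext_cliqueFree hG hind)
  have h2 := inj_add_D_le H G (G.neighborSet v)
  have h3 := dg_le_D H G v
  have h4 : Nat.card (Option (Fin n)) = n + 1 := by simp
  rw [h4] at h1
  rw [hG3] at hv h2
  rw [Nat.card_fin] at hv
  calc (n + Nat.card α) * a3 H n = n * a3 H n + Nat.card α * a3 H n := by ring
    _ ≤ n * a3 H n + n * dg H G v := Nat.add_le_add_left hv _
    _ = n * (a3 H n + dg H G v) := by ring
    _ ≤ n * a3 H (n + 1) := Nat.mul_le_mul_left _ (by omega)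

end Pool.Agent.WT7
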