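import Pool.Agent.WT7.Defs

/-!
# [WT7-Emb] three graphs which contain `F`

Tool: if `Nat.card β ≤ P.ncard` there is an injection `β → V` with values in `P` (`P` finite: its `ncard` is positive as `β` is nonempty).
`emb1`: `u ↦ x`; `y ≠ u` with colour `true` into `P`, with colour `false` into `Q`. `F` minus `u` is properly coloured by `c` (`Crit.col`), `P`-`Q` complete, `x` complete to `P ∪ Q`. Injective:
`x ∉ P ∪ Q` as `G` is loopless.
`emb2`: `u ↦ a`, `v ↦ b`, other `true` vertices into `P`, `false` vertices into `Q`. An edge of `F` is `u v` or joins colours `true` and `false`.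
`emb3`: `u ↦ a`, `v ↦ b`; the common neighbour `z` of `u` and `v` (if it exists; it is unique and has colour `false`) `↦ w`; the other `true` vertices into `Y`; `false` vertices `≠ z`: the neighbours of
`u` into `P`, all others into `Q`. Edges: `u v ↦ a b`; `u z`, `v z`: triangle; `u`-`false` (`≠ z`): `a`-`P`; `v`-`false` (`≠ z`): not adjacent to `u`, so `b`-`Q`; other `true`-`z`: `Y`-`w`; other `true`-other `false`:
`Y`-`P`, `Y`-`Q`.
-/

set_option autoImplicit false

namespace Pool.Agent.WT7

variable {α β V W : Type}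

private lemma emb_inj [Finite β] [Nonempty β] {P : Set V} (h : Nat.card β ≤ P.ncard) :
    ∃ f : β → V, Function.Injective f ∧ ∀ x, f x ∈ P := by
  classical
  have hpos : 0 < Nat.card β := Nat.card_pos
  have hfin : P.Finite := Set.finite_of_ncard_pos (by omega)
  haveI : Fintype β := Fintype.ofFinite β
  haveI : Fintype P := hfin.fintype
  have hc : Fintype.card β ≤ Fintype.card P := by
    rw [← Nat.card_eq_fintype_card, ← Nat.card_eq_fintype_card, Nat.card_coe_set_eq]
    exact h
  obtain ⟨g⟩ := Function.Embedding.nonempty_of_card_le hc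
  exact ⟨fun x => (g x : V), fun x y hxy => g.injective (Subtype.ext hxy), fun x => (g x).2⟩

private lemma emb_of {F : SimpleGraph β} {u v : β} {c : β → Bool} (hF : Crit F u v c) {G : SimpleGraph V}
    (φ : β → V) (hi : Function.Injective φ) (huv : G.Adj (φ u) (φ v))
    (h : ∀ x y, F.Adj x y → c x = true → c y = false → G.Adj (φ x) (φ y)) : F.IsContained G := by
  refine ⟨⟨⟨φ, ?_⟩, hi⟩⟩
  intro x y hxy
  rcases hF.col x y hxy with hc | ⟨rfl, rfl⟩ | ⟨rfl, rfl⟩
  · cases hx : c x with
    | true =>
      refine h x y hxy hx ?_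
      rw [hx] at hc
      cases hy : c y with
      | true => exact absurd hy.symm hc
      | false => rfl
    | false =>
      refine (h y x hxy.symm ?_ hx).symm
      rw [hx] at hc
      cases hy : c y with
      | true => rfl
      | false => exact absurd hy.symm hc
  · exact huv
  · exact huv.symm

theorem emb1 [Finite β] {F : SimpleGraph β} {u v : β} {c : β → Bool} (hF : Crit F u v c) {G : SimpleGraph V} {x : V}
    {P Q : Set V} (hP : Nat.card β ≤ P.ncard) (hQ : Nat.card β ≤ Q.ncard) (hPQ : Disjoint P Q) (h : Full G P Q)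
    (hxP : ∀ p ∈ P, G.Adj x p) (hxQ : ∀ q ∈ Q, G.Adj x q) : F.IsContained G := by
  classical
  haveI : Nonempty β := ⟨u⟩
  obtain ⟨p, hp, hpP⟩ := emb_inj hP
  obtain ⟨q, hq, hqQ⟩ := emb_inj hQ
  have huv : u ≠ v := hF.adj.ne
  have hpq : ∀ y z, p y ≠ q z := fun y z e => Set.disjoint_left.mp hPQ (hpP y) (e ▸ hqQ z)
  have hxp : ∀ y, x ≠ p y := fun y => (hxP _ (hpP y)).ne
  have hxq : ∀ y, x ≠ q y := fun y => (hxQ _ (hqQ y)).ne
  have hφ : ∃ φ : β → V, ∀ y, φ y = if y = u then x else if c y = true then p y else q y :=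
    ⟨_, fun y => rfl⟩
  obtain ⟨φ, hφ⟩ := hφ
  refine emb_of hF φ ?_ ?_ ?_
  · intro y z e
    rw [hφ, hφ] at e
    split_ifs at e with h1 h2 h3 h4 h5 h6 h7 h8
    · rw [h1, h2]
    · exact absurd e (hxp z)
    · exact absurd e (hxq z)
    · exact absurd e.symm (hxp y)
    · exact hp e
    · exact absurd e (hpq y z)
    · exact absurd e.symm (hxq y)
    · exact absurd e.symm (hpq z y)
    · exact hq e
  · rw [hφ u, hφ v, if_pos rfl, if_neg huv.symm, if_pos hF.cv]
    exact hxP _ (hpP v)
  · intro y z _ hy hz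
    have hzu : z ≠ u := by
      rintro rfl
      rw [hF.cu] at hz
      exact absurd hz (by simp)
    have hφz : φ z = q z := by
      rw [hφ, if_neg hzu, if_neg (by rw [hz]; simp)]
    rw [hφz, hφ y]
    split_ifs with h1
    · exact hxQ _ (hqQ z)
    · exact h _ (hpP y) _ (hqQ z)

theorem emb2 [Finite β] {F : SimpleGraph β} {u v : β} {c : β → Bool} (hF : Crit F u v c) {G : SimpleGraph V} {a b : V}
    {P Q : Set V} (hP : Nat.card β ≤ P.ncard) (hQ : Nat.card β ≤ Q.ncard) (hPQ : Disjoint P Q) (h : Full G P Q)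
    (hab : G.Adj a b) (haP : a ∉ P) (hbP : b ∉ P) (haQ : ∀ q ∈ Q, G.Adj a q) (hbQ : ∀ q ∈ Q, G.Adj b q) :
    F.IsContained G := by
  classical
  haveI : Nonempty β := ⟨u⟩
  obtain ⟨p, hp, hpP⟩ := emb_inj hP
  obtain ⟨q, hq, hqQ⟩ := emb_inj hQ
  have huv : u ≠ v := hF.adj.ne
  have hpq : ∀ y z, p y ≠ q z := fun y z e => Set.disjoint_left.mp hPQ (hpP y) (e ▸ hqQ z)
  have hap : ∀ y, a ≠ p y := fun y e => haP (e ▸ hpP y)
  have hbp : ∀ y, b ≠ p y := fun y e => hbP (e ▸ hpP y)
  have haq : ∀ y, a ≠ q y := fun y => (haQ _ (hqQ y)).ne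
  have hbq : ∀ y, b ≠ q y := fun y => (hbQ _ (hqQ y)).ne
  have hφ : ∃ φ : β → V, ∀ y, φ y = if y = u then a else if y = v then b else
      if c y = true then p y else q y := ⟨_, fun y => rfl⟩
  obtain ⟨φ, hφ⟩ := hφ
  refine emb_of hF φ ?_ ?_ ?_
  · intro y z e
    rw [hφ, hφ] at e
    have hne := hab.ne
    by_cases y1 : y = u <;> by_cases z1 : z = u <;> by_cases y2 : y = v <;> by_cases z2 : z = v <;>
      by_cases y3 : c y = true <;> by_cases z3 : c z = true <;>
      simp only [y1, y2, y3, z1, z2, z3, if_true, if_false, huv, huv.symm] at e ⊢ <;>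
      first
        | exact absurd e hne
        | exact absurd e.symm hne
        | exact absurd e (hap _)
        | exact absurd e.symm (hap _)
        | exact absurd e (hbp _)
        | exact absurd e.symm (hbp _)
        | exact absurd e (haq _)
        | exact absurd e.symm (haq _)
        | exact absurd e (hbq _)
        | exact absurd e.symm (hbq _)
        | exact absurd e (hpq _ _)
        | exact absurd e.symm (hpq _ _)
        | exact hp e
        | exact hq e
  · rw [hφ u, hφ v, if_pos rfl, if_neg huv.symm, if_pos rfl]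
    exact hab
  · intro y z _ hy hz
    have hzu : z ≠ u := by
      rintro rfl
      rw [hF.cu] at hz
      exact absurd hz (by simp)
    have hzv : z ≠ v := by
      rintro rfl
      rw [hF.cv] at hz
      exact absurd hz (by simp)
    have hφz : φ z = q z := by
      rw [hφ, if_neg hzu, if_neg hzv, if_neg (by rw [hz]; simp)]
    rw [hφz, hφ y]
    split_ifs with h1 h2
    · exact haQ _ (hqQ z)
    · exact hbQ _ (hqQ z)
    · exact h _ (hpP y) _ (hqQ z)

theorem emb3 [Finite β] {F : SimpleGraph β} {u v : β} {c : β → Bool} (hF : Crit F u v c) {G : SimpleGraph V}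
    {a b w : V} {Y P Q : Set V} (hY : Nat.card β ≤ Y.ncard) (hP : Nat.card β ≤ P.ncard) (hQ : Nat.card β ≤ Q.ncard)
    (hYP : Disjoint Y P) (hYQ : Disjoint Y Q) (hPQ : Disjoint P Q) (h1 : Full G Y P) (h2 : Full G Y Q)
    (hab : G.Adj a b) (haw : G.Adj a w) (hbw : G.Adj b w) (haP : ∀ p ∈ P, G.Adj a p) (hbQ : ∀ q ∈ Q, G.Adj b q)
    (hwY : ∀ y ∈ Y, G.Adj w y) (ha : a ∉ Y ∧ a ∉ Q) (hb : b ∉ Y ∧ b ∉ P) (hw : w ∉ P ∧ w ∉ Q) : F.IsContained G := by
  classical
  haveI : Nonempty β := ⟨u⟩
  obtain ⟨η, hη, hηY⟩ := emb_inj hY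
  obtain ⟨p, hp, hpP⟩ := emb_inj hP
  obtain ⟨q, hq, hqQ⟩ := emb_inj hQ
  have huv : u ≠ v := hF.adj.ne
  have hpq : ∀ y z, p y ≠ q z := fun y z e => Set.disjoint_left.mp hPQ (hpP y) (e ▸ hqQ z)
  have hyp : ∀ y z, η y ≠ p z := fun y z e => Set.disjoint_left.mp hYP (hηY y) (e ▸ hpP z)
  have hyq : ∀ y z, η y ≠ q z := fun y z e => Set.disjoint_left.mp hYQ (hηY y) (e ▸ hqQ z)
  have hay : ∀ y, a ≠ η y := fun y e => ha.1 (e ▸ hηY y)
  have hap : ∀ y, a ≠ p y := fun y => (haP _ (hpP y)).ne
  have haq : ∀ y, a ≠ q y := fun y e => ha.2 (e ▸ hqQ y)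
  have hby : ∀ y, b ≠ η y := fun y e => hb.1 (e ▸ hηY y)
  have hbp : ∀ y, b ≠ p y := fun y e => hb.2 (e ▸ hpP y)
  have hbq : ∀ y, b ≠ q y := fun y => (hbQ _ (hqQ y)).ne
  have hwy : ∀ y, w ≠ η y := fun y => (hwY _ (hηY y)).ne
  have hwp : ∀ y, w ≠ p y := fun y e => hw.1 (e ▸ hpP y)
  have hwq : ∀ y, w ≠ q y := fun y e => hw.2 (e ▸ hqQ y)
  have hφ : ∃ φ : β → V, ∀ y, φ y = if y = u then a else if y = v then b else
      if F.Adj u y ∧ F.Adj v y then w else if c y = true then η y else
      if F.Adj u y then p y else q y := ⟨_, fun y => rfl⟩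
  obtain ⟨φ, hφ⟩ := hφ
  refine emb_of hF φ ?_ ?_ ?_
  · intro y z e
    rw [hφ, hφ] at e
    have hne := hab.ne
    have hne2 := haw.ne
    have hne3 := hbw.ne
    split_ifs at e <;>
      first
        | exact (by assumption : y = u).trans (by assumption : z = u).symm
        | exact (by assumption : y = v).trans (by assumption : z = v).symm
        | exact hF.one y z (by assumption : F.Adj u y ∧ F.Adj v y).1
            (by assumption : F.Adj u y ∧ F.Adj v y).2 (by assumption : F.Adj u z ∧ F.Adj v z).1
            (by assumption : F.Adj u z ∧ F.Adj v z).2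
        | exact absurd e hne
        | exact absurd e.symm hne
        | exact absurd e hne2
        | exact absurd e.symm hne2
        | exact absurd e hne3
        | exact absurd e.symm hne3
        | exact absurd e (hay _)
        | exact absurd e.symm (hay _)
        | exact absurd e (hap _)
        | exact absurd e.symm (hap _)
        | exact absurd e (haq _)
        | exact absurd e.symm (haq _)
        | exact absurd e (hby _)
        | exact absurd e.symm (hby _)
        | exact absurd e (hbp _)
        | exact absurd e.symm (hbp _)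
        | exact absurd e (hbq _)
        | exact absurd e.symm (hbq _)
        | exact absurd e (hwy _)
        | exact absurd e.symm (hwy _)
        | exact absurd e (hwp _)
        | exact absurd e.symm (hwp _)
        | exact absurd e (hwq _)
        | exact absurd e.symm (hwq _)
        | exact absurd e (hpq _ _)
        | exact absurd e.symm (hpq _ _)
        | exact absurd e (hyp _ _)
        | exact absurd e.symm (hyp _ _)
        | exact absurd e (hyq _ _)
        | exact absurd e.symm (hyq _ _)
        | exact hη e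
        | exact hp e
        | exact hq e
  · rw [hφ u, hφ v, if_pos rfl, if_neg huv.symm, if_pos rfl]
    exact hab
  · intro y z hyz hy hz
    have hzu : z ≠ u := by
      rintro rfl
      rw [hF.cu] at hz
      exact absurd hz (by simp)
    have hzv : z ≠ v := by
      rintro rfl
      rw [hF.cv] at hz
      exact absurd hz (by simp)
    have hφz : φ z = if F.Adj u z ∧ F.Adj v z then w else if F.Adj u z then p z else q z := by
      rw [hφ, if_neg hzu, if_neg hzv]
      split_ifs with h1 h2 h3 h4
      · rfl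
      · rw [hz] at h2
        exact absurd h2 (by simp)
      · rw [hz] at h2
        exact absurd h2 (by simp)
      · rfl
      · rfl
    rw [hφz, hφ y]
    by_cases hyu : y = u
    · rw [if_pos hyu]
      subst hyu
      split_ifs with h1
      · exact haw
      · exact haP _ (hpP z)
    · rw [if_neg hyu]
      by_cases hyv : y = v
      · rw [if_pos hyv]
        subst hyv
        split_ifs with h1 h2
        · exact hbw
        · exact absurd ⟨h2, hyz⟩ h1
        · exact hbQ _ (hqQ z)
      · rw [if_neg hyv]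
        have hnc : ¬ (F.Adj u y ∧ F.Adj v y) := by
          rintro ⟨h1, _⟩
          rcases hF.col u y h1 with hc | ⟨_, h2⟩ | ⟨h2, _⟩
          · exact hc (hF.cu.trans hy.symm)
          · exact hyv h2
          · exact huv h2
        rw [if_neg hnc, if_pos hy]
        split_ifs with h2' h3'
        · exact (hwY _ (hηY y)).symm
        · exact h1 _ (hηY y) _ (hpP z)
        · exact h2 _ (hηY y) _ (hqQ z)

end Pool.Agent.WT7
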