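import Pool.Agent.WT7.Pig
import Pool.Agent.WT7.Emb

/-!
# [WT7-Few] few edges in neighbourhoods

`few`: if `pe G N(x) N(x) > κ n²` then `ktt` (with `t = Nat.card β`, `A = N(x)`) gives `P, Q ⊆ N(x)` and `emb1` gives a copy of `F` in `G`.
-/

set_option autoImplicit false

namespace Pool.Agent.WT7

variable {α β V W : Type}

theorem few [Finite β] {F : SimpleGraph β} {u v : β} {c : β → Bool} (hF : Crit F u v c) {κ : ℝ} (hκ : 0 < κ) :
    ∃ n₀ : ℕ, ∀ (V : Type) [Finite V], n₀ ≤ Nat.card V → ∀ G : SimpleGraph V, F.Free G →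
      ∀ x, (pe G (G.neighborSet x) (G.neighborSet x) : ℝ) ≤ κ * (Nat.card V : ℝ) ^ 2 := by
  obtain ⟨n₀, hn₀⟩ := ktt hκ (Nat.card β)
  refine ⟨n₀, fun V _ hV G hG x => ?_⟩
  by_contra hcon
  push Not at hcon
  obtain ⟨P, Q, hPA, hQA, hP, hQ, hPQ, hfull⟩ := hn₀ V hV G (G.neighborSet x) hcon.le
  exact hG (emb1 hF hP.ge hQ.ge hPQ hfull (fun p hp => hPA hp) (fun q hq => hQA hq))

end Pool.Agent.WT7
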