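import Pool.Agent.WT7.Defs

/-!
# [WT7-Loss] counting lost and non-injective copies

Tool: for distinct `x, y : α` and a set `R` of pairs there are at most `|R| * |V|^(|α| - 2)` maps `f : α → V` with `(f x, f y) ∈ R`
(`f ↦ ((f x, f y), f restricted to the other points)` is injective; `Nat.card` of the functions on `{z // z ≠ x ∧ z ≠ y}`).
`inj_le_add_df`: a labelled copy `f` of `H` in `G` which is not one in `G'` has `x, y` adjacent in `H` with `(f x, f y)` in
`{p | G.Adj p.1 p.2 ∧ ¬ G'.Adj p.1 p.2}`; sum over the at most `|α|²` pairs `(x, y)`.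
`hom_le_inj_add`: a non-injective map has `x ≠ y` with `f x = f y`; for fixed `x ≠ y` there are at most `|V|^(|α| - 1)` such maps
(restrict `f` to the points `≠ y`).
(`|α| = 1`, `0` in `hom_le_inj_add`: there are no pairs `x ≠ y`.)
-/

set_option autoImplicit false

namespace Pool.Agent.WT7

variable {α β V W : Type}

private theorem loss_two [Finite α] [Finite V] {x y : α} (hxy : x ≠ y) (R : Set (V × V)) :
    Set.ncard {f : α → V | (f x, f y) ∈ R} ≤ R.ncard * Nat.card V ^ (Nat.card α - 2) := by
  classical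
  have hcard : Nat.card {z : α // z ≠ x ∧ z ≠ y} = Nat.card α - 2 := by
    have h1 := Set.ncard_add_ncard_compl ({x, y} : Set α)
    rw [Set.ncard_pair hxy] at h1
    have h2 : Nat.card {z : α // z ≠ x ∧ z ≠ y} = (({x, y} : Set α)ᶜ).ncard := by
      rw [← Nat.card_coe_set_eq]
      refine Nat.card_congr (Equiv.subtypeEquivRight ?_)
      intro z
      simp only [Set.mem_compl_iff, Set.mem_insert_iff, Set.mem_singleton_iff, not_or]
    omega
  have h := Set.ncard_le_ncard_of_injOn (s := {f : α → V | (f x, f y) ∈ R})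
    (t := R ×ˢ (Set.univ : Set ({z : α // z ≠ x ∧ z ≠ y} → V)))
    (fun f => ((f x, f y), fun z => f z.1)) (fun f hf => ⟨hf, Set.mem_univ _⟩) (by
      intro f _ g _ hfg
      simp only [Prod.mk.injEq] at hfg
      obtain ⟨⟨h1, h2⟩, h3⟩ := hfg
      funext z
      by_cases hzx : z = x
      · rw [hzx, h1]
      by_cases hzy : z = y
      · rw [hzy, h2]
      exact congrFun h3 ⟨z, hzx, hzy⟩) (Set.toFinite _)
  rwa [Set.ncard_prod, Set.ncard_univ, Nat.card_fun, hcard] at h

private theorem loss_one [Finite α] [Finite V] {x y : α} (hxy : x ≠ y) :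
    Set.ncard {f : α → V | f x = f y} ≤ Nat.card V ^ (Nat.card α - 1) := by
  classical
  have hcard : Nat.card {z : α // z ≠ y} = Nat.card α - 1 := by
    have h1 := Set.ncard_add_ncard_compl ({y} : Set α)
    rw [Set.ncard_singleton] at h1
    have h2 : Nat.card {z : α // z ≠ y} = (({y} : Set α)ᶜ).ncard := by
      rw [← Nat.card_coe_set_eq]
      rfl
    omega
  have h := Set.ncard_le_ncard_of_injOn (s := {f : α → V | f x = f y})
    (t := (Set.univ : Set ({z : α // z ≠ y} → V)))
    (fun f => fun z => f z.1) (fun f hf => Set.mem_univ _) (by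
      intro f hf g hg hfg
      funext z
      by_cases hzy : z = y
      · rw [hzy, ← show f x = f y from hf, ← show g x = g y from hg]
        exact congrFun hfg ⟨x, hxy⟩
      exact congrFun hfg ⟨z, hzy⟩) (Set.toFinite _)
  rwa [Set.ncard_univ, Nat.card_fun, hcard] at h

private theorem loss_union [Finite α] [Finite V] (S T : Set (α → V)) (E : α × α → Set (α → V)) (N : ℕ)
    (hE : ∀ p, (E p).ncard ≤ N) (h : S ⊆ T ∪ ⋃ p, E p) :
    S.ncard ≤ T.ncard + Nat.card α ^ 2 * N := by
  classical
  have := Fintype.ofFinite α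
  have h1 : S.ncard ≤ (T ∪ ⋃ p, E p).ncard := Set.ncard_le_ncard h (Set.toFinite _)
  have h2 := Set.ncard_union_le T (⋃ p, E p)
  have h3 := Set.ncard_iUnion_le_of_fintype E
  have h4 : ∑ p, (E p).ncard ≤ ∑ _p : α × α, N := Finset.sum_le_sum fun p _ => hE p
  rw [Finset.sum_const, Finset.card_univ, Fintype.card_prod, smul_eq_mul, ← Nat.card_eq_fintype_card,
    ← pow_two] at h4
  omega

theorem inj_le_add_df [Finite α] [Finite V] (H : SimpleGraph α) (G G' : SimpleGraph V) :
    inj H G ≤ inj H G' + Nat.card α ^ 2 * (df G G' * Nat.card V ^ (Nat.card α - 2)) := by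
  classical
  refine loss_union _ _ (fun p => {f : α → V | p.1 ≠ p.2 ∧
    (f p.1, f p.2) ∈ {q : V × V | G.Adj q.1 q.2 ∧ ¬ G'.Adj q.1 q.2}}) _ ?_ ?_
  · intro p
    by_cases hp : p.1 = p.2
    · have : {f : α → V | p.1 ≠ p.2 ∧
        (f p.1, f p.2) ∈ {q : V × V | G.Adj q.1 q.2 ∧ ¬ G'.Adj q.1 q.2}} = ∅ := by
        ext f
        simp [hp]
      rw [this, Set.ncard_empty]
      exact Nat.zero_le _
    · refine le_trans (Set.ncard_le_ncard ?_ (Set.toFinite _))
        (loss_two hp {q : V × V | G.Adj q.1 q.2 ∧ ¬ G'.Adj q.1 q.2})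
      intro f hf
      exact hf.2
  · intro f hf
    by_cases hf' : IsInj H G' f
    · exact Or.inl hf'
    · right
      have hf0 : IsInj H G f := hf
      have : ¬ IsHom H G' f := fun h => hf' ⟨hf0.1, h⟩
      unfold IsHom at this
      push Not at this
      obtain ⟨x, y, hxy, hn⟩ := this
      exact Set.mem_iUnion.2 ⟨(x, y), hxy.ne, hf0.2 x y hxy, hn⟩

theorem hom_le_inj_add [Finite α] [Finite V] (H : SimpleGraph α) (G : SimpleGraph V) :
    hom H G ≤ inj H G + Nat.card α ^ 2 * Nat.card V ^ (Nat.card α - 1) := by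
  classical
  refine loss_union _ _ (fun p => {f : α → V | p.1 ≠ p.2 ∧ f p.1 = f p.2}) _ ?_ ?_
  · intro p
    by_cases hp : p.1 = p.2
    · have : {f : α → V | p.1 ≠ p.2 ∧ f p.1 = f p.2} = ∅ := by
        ext f
        simp [hp]
      rw [this, Set.ncard_empty]
      exact Nat.zero_le _
    · refine le_trans (Set.ncard_le_ncard ?_ (Set.toFinite _)) (loss_one hp)
      intro f hf
      exact hf.2
  · intro f hf
    by_cases hf' : IsInj H G f
    · exact Or.inl hf'
    · right
      have : ¬ Function.Injective f := fun h => hf' ⟨h, hf⟩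
      unfold Function.Injective at this
      push Not at this
      obtain ⟨x, y, hxy, hn⟩ := this
      exact Set.mem_iUnion.2 ⟨(x, y), hn, hxy⟩

end Pool.Agent.WT7
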