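import Pool.Agent.WT7.PiA
import Pool.Agent.WT7.Loss

/-!
# [WT7-PiB] `a3 n ≥ (π - η) n^h` for large `n`

Choose `n₀ ≥ 1` and a triangle-free `G₀` on `Fin n₀` with `hom H G₀ ≥ (π - η/2) n₀^h` (`exists_lt_of_lt_csSup`). For `n ≥ n₀`, `q = n / n₀`: the blow-up
`B` of `G₀` on `Fin n₀ × Fin q` (`(a, i) ~ (b, j)` iff `G₀.Adj a b`; `G₀.comap Prod.fst`) is triangle-free, `hom H B = hom H G₀ * q^h` (`≥`: the maps
`x ↦ (f x, g x)`, `g : α → Fin q` arbitrary), `inj H B ≥ hom H B - h² (n₀ q)^(h-1)` (Loss), and `n₀ q ≤ n` so that `B` plus isolated vertices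
is a triangle-free graph on `n` vertices: e.g. the graph `B ⊕ ⊥` on `(Fin n₀ × Fin q) ⊕ Fin (n - n₀ q)` or the image of `B` under an
embedding in `Fin n`; `inj_le_a3`, `inj_le_of_emb`. So `a3 n ≥ (π - η/2) (n₀ q)^h - h² n^(h-1)`, and `n₀ q ≥ n - n₀`, `(n - n₀)^h ≥ n^h - h n₀ n^(h-1)`
(Bernoulli `one_add_mul_le_pow`), `π ≤ 1`; so `a3 n ≥ (π - η/2) n^h - (h n₀ + h²) n^(h-1) ≥ (π - η) n^h` for large `n` (if `π - η/2 < 0` the
claim is trivial: treat the case `π ≤ η` first).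
-/

set_option autoImplicit false

namespace Pool.Agent.WT7

variable {α β V W : Type}

private theorem hom_blow [Finite α] (H : SimpleGraph α) {N q : ℕ} (G : SimpleGraph (Fin N)) :
    hom H G * q ^ Nat.card α ≤ hom H (G.comap (Prod.fst : Fin N × Fin q → Fin N)) := by
  have h1 : q ^ Nat.card α = (Set.univ : Set (α → Fin q)).ncard := by
    rw [Set.ncard_univ, Nat.card_fun, Nat.card_fin]
  unfold hom
  rw [h1, ← Set.ncard_prod]
  apply Set.ncard_le_ncard_of_injOn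
    (fun p : (α → Fin N) × (α → Fin q) => (fun x => (p.1 x, p.2 x) : α → Fin N × Fin q))
  · rintro ⟨f, g⟩ hfg
    intro x y hxy
    exact hfg.1 x y hxy
  · rintro ⟨f, g⟩ _ ⟨f', g'⟩ _ h
    have h2 : ∀ x, (f x, g x) = (f' x, g' x) := fun x => congrFun h x
    have h3 : f = f' := by
      funext x
      exact (Prod.ext_iff.mp (h2 x)).1
    have h4 : g = g' := by
      funext x
      exact (Prod.ext_iff.mp (h2 x)).2
    rw [h3, h4]

private theorem blow_free {N q : ℕ} {G : SimpleGraph (Fin N)} (hG : G.CliqueFree 3) :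
    (G.comap (Prod.fst : Fin N × Fin q → Fin N)).CliqueFree 3 := by
  intro s hs
  rw [SimpleGraph.is3Clique_iff] at hs
  obtain ⟨a, b, c, hab, hac, hbc, _⟩ := hs
  exact hG {a.1, b.1, c.1} (SimpleGraph.is3Clique_iff.mpr ⟨a.1, b.1, c.1, hab, hac, hbc, rfl⟩)

private theorem blow_a3 [Finite α] (H : SimpleGraph α) {N q n : ℕ} {G : SimpleGraph (Fin N)}
    (hG : G.CliqueFree 3) (hN : 1 ≤ N) (hq : 1 ≤ q) (hn : N * q ≤ n) :
    inj H (G.comap (Prod.fst : Fin N × Fin q → Fin N)) ≤ a3 H n := by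
  have : Nonempty (Fin N × Fin q) := ⟨(⟨0, hN⟩, ⟨0, hq⟩)⟩
  set B := G.comap (Prod.fst : Fin N × Fin q → Fin N) with hB
  set e : (Fin N × Fin q) ↪ ((Fin N × Fin q) ⊕ Fin (n - N * q)) := Function.Embedding.inl with he
  have h1 : inj H B ≤ inj H (B.map e) :=
    inj_le_of_emb H e e.injective (fun a b hab => by
      rw [SimpleGraph.map_adj]
      exact ⟨a, b, hab, rfl, rfl⟩)
  have h2 : (B.map e).CliqueFree 3 := SimpleGraph.cliqueFree_map_iff.mpr (blow_free hG)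
  have h3 := inj_le_a3 H h2
  have h4 : Nat.card ((Fin N × Fin q) ⊕ Fin (n - N * q)) = n := by
    rw [Nat.card_sum, Nat.card_prod, Nat.card_fin, Nat.card_fin, Nat.card_fin]
    omega
  rw [h4] at h3
  exact h1.trans h3

theorem a3_lower [Finite α] [Nonempty α] (H : SimpleGraph α) {η : ℝ} (hη : 0 < η) :
    ∃ n₀ : ℕ, ∀ n ≥ n₀, (pi3 H - η) * (n : ℝ) ^ Nat.card α ≤ a3 H n := by
  by_cases hpi : pi3 H ≤ η
  · refine ⟨0, fun n _ => ?_⟩
    have h1 : (pi3 H - η) * (n : ℝ) ^ Nat.card α ≤ 0 :=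
      mul_nonpos_of_nonpos_of_nonneg (by linarith) (by positivity)
    have h2 : (0 : ℝ) ≤ (a3 H n : ℝ) := Nat.cast_nonneg _
    linarith
  rw [not_le] at hpi
  have hh : 0 < Nat.card α := Nat.card_pos
  set h : ℕ := Nat.card α with hhdef
  have hlt : pi3 H - η / 2 < pi3 H := by linarith
  obtain ⟨r, ⟨N, hN, G, hG, hr⟩, hr2⟩ := exists_lt_of_lt_csSup (by
    refine ⟨(hom H (⊥ : SimpleGraph (Fin 1)) : ℝ) / ((1 : ℕ) : ℝ) ^ Nat.card α, 1, le_refl 1, ⊥, ?_, rfl⟩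
    intro s hs
    rw [SimpleGraph.is3Clique_iff] at hs
    obtain ⟨a, b, c, hab, _⟩ := hs
    exact hab) hlt
  have hNr : (0 : ℝ) < (N : ℝ) := by exact_mod_cast hN
  have hhom : (pi3 H - η / 2) * (N : ℝ) ^ h ≤ (hom H G : ℝ) := by
    rw [hr, lt_div_iff₀ (by positivity)] at hr2
    exact hr2.le
  have hc0 : 0 < pi3 H - η / 2 := by linarith
  have hc1 : pi3 H - η / 2 ≤ 1 := by
    have := pi_le_one H
    linarith
  set K : ℝ := (h : ℝ) * N + (h : ℝ) ^ 2 with hK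
  refine ⟨max N ⌈2 * K / η⌉₊, fun n hn => ?_⟩
  have hn1 : N ≤ n := le_trans (le_max_left _ _) hn
  have hn2 : 2 * K / η ≤ (n : ℝ) :=
    (Nat.le_ceil _).trans (by exact_mod_cast le_trans (le_max_right _ _) hn)
  have hnpos : (0 : ℝ) < (n : ℝ) := by
    have : 0 < n := by omega
    exact_mod_cast this
  set q : ℕ := n / N with hq
  have hq1 : 1 ≤ q := by
    rw [hq]
    exact (Nat.one_le_div_iff (by omega)).mpr hn1
  have hmq : N * q ≤ n := by
    rw [hq]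
    exact Nat.mul_div_le n N
  have hmq2 : n ≤ N * q + N := by
    have := Nat.lt_mul_div_succ n (show 0 < N by omega)
    rw [← hq] at this
    have h5 : N * (q + 1) = N * q + N := by ring
    omega
  have e1 := hom_blow (q := q) H G
  have e2 := hom_le_inj_add H (G.comap (Prod.fst : Fin N × Fin q → Fin N))
  have e3 := blow_a3 H hG hN hq1 hmq
  have e4 : Nat.card (Fin N × Fin q) = N * q := by
    rw [Nat.card_prod, Nat.card_fin, Nat.card_fin]
  rw [e4, ← hhdef] at e2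
  rw [← hhdef] at e1
  have e5 : (N * q) ^ (h - 1) ≤ n ^ (h - 1) := Nat.pow_le_pow_left hmq _
  have e6 : hom H G * q ^ h ≤ a3 H n + h ^ 2 * n ^ (h - 1) := by
    calc hom H G * q ^ h ≤ _ := e1
      _ ≤ _ := e2
      _ ≤ a3 H n + h ^ 2 * n ^ (h - 1) := Nat.add_le_add e3 (Nat.mul_le_mul_left _ e5)
  have e7 : (hom H G : ℝ) * (q : ℝ) ^ h ≤ (a3 H n : ℝ) + (h : ℝ) ^ 2 * (n : ℝ) ^ (h - 1) := by
    exact_mod_cast e6
  have e8 : (pi3 H - η / 2) * ((N : ℝ) * q) ^ h ≤ (hom H G : ℝ) * (q : ℝ) ^ h := by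
    rw [mul_pow, ← mul_assoc]
    exact mul_le_mul_of_nonneg_right hhom (by positivity)
  -- the lower bound of `(N q)^h`
  have hnh : (n : ℝ) ^ h = (n : ℝ) * (n : ℝ) ^ (h - 1) := by
    rw [← pow_succ']
    congr 1
    omega
  have e9 : (n : ℝ) ^ h - (h : ℝ) * N * (n : ℝ) ^ (h - 1) ≤ ((N : ℝ) * q) ^ h := by
    have hNn : (N : ℝ) / n ≤ 1 := by
      rw [div_le_one hnpos]
      exact_mod_cast hn1
    have b1 := one_add_mul_le_pow (a := -((N : ℝ) / n)) (by linarith) h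
    have b2 : ((n : ℝ) - N) ^ h ≤ ((N : ℝ) * q) ^ h := by
      apply pow_le_pow_left₀
      · have : (N : ℝ) ≤ n := by exact_mod_cast hn1
        linarith
      · have : (n : ℝ) ≤ (N : ℝ) * q + N := by exact_mod_cast hmq2
        linarith
    have b3 : ((n : ℝ) - N) ^ h = (n : ℝ) ^ h * (1 + -((N : ℝ) / n)) ^ h := by
      rw [← mul_pow]
      congr 1
      field_simp
      ring
    have b4 : (n : ℝ) ^ h * (1 + (h : ℝ) * -((N : ℝ) / n)) ≤ (n : ℝ) ^ h * (1 + -((N : ℝ) / n)) ^ h :=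
      mul_le_mul_of_nonneg_left b1 (by positivity)
    have b5 : (n : ℝ) ^ h * (1 + (h : ℝ) * -((N : ℝ) / n)) =
        (n : ℝ) ^ h - (h : ℝ) * N * (n : ℝ) ^ (h - 1) := by
      rw [hnh]
      field_simp
      ring
    linarith
  have hP : (0 : ℝ) ≤ (n : ℝ) ^ (h - 1) := by positivity
  have e10 : (pi3 H - η / 2) * ((n : ℝ) ^ h - (h : ℝ) * N * (n : ℝ) ^ (h - 1)) ≤
      (a3 H n : ℝ) + (h : ℝ) ^ 2 * (n : ℝ) ^ (h - 1) :=
    (mul_le_mul_of_nonneg_left e9 hc0.le).trans (e8.trans e7)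
  have e11 : (pi3 H - η / 2) * ((h : ℝ) * N * (n : ℝ) ^ (h - 1)) ≤ (h : ℝ) * N * (n : ℝ) ^ (h - 1) := by
    have : (0 : ℝ) ≤ (h : ℝ) * N * (n : ℝ) ^ (h - 1) := by positivity
    nlinarith
  have e12 : K * (n : ℝ) ^ (h - 1) ≤ η / 2 * (n : ℝ) ^ h := by
    have : K ≤ η / 2 * n := by
      rw [div_le_iff₀ hη] at hn2
      linarith
    rw [hnh, ← mul_assoc]
    exact mul_le_mul_of_nonneg_right this hP
  have e13 : K * (n : ℝ) ^ (h - 1) = (h : ℝ) * N * (n : ℝ) ^ (h - 1) + (h : ℝ) ^ 2 * (n : ℝ) ^ (h - 1) := by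
    rw [hK]
    ring
  rw [e13] at e12
  linarith

end Pool.Agent.WT7
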