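import Pool.Agent.WT7.Del
import Pool.Agent.WT7.PiB

/-!
# [WT7-Growth] the growth of `a3`

`h ≥ 1`. From `a3_step`: `a3 (n+1) - a3 n ≥ h a3 n / n ≥ h (π - η) n^(h-1)` for large `n` (`a3_lower`), and `n^(h-1) ≥ (n+1)^(h-1) - (h-1) (n+1)^(h-2)`, or
`(n / (n+1))^(h-1) ≥ 1 - (h-1)/(n+1)` (Bernoulli), so with `η = ε / (2 h)` and `π ≤ 1` the claim follows for large `n`.
-/

set_option autoImplicit false

namespace Pool.Agent.WT7

variable {α β V W : Type}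

theorem growth [Finite α] [Nonempty α] (H : SimpleGraph α) {ε : ℝ} (hε : 0 < ε) :
    ∃ n₀ : ℕ, ∀ n ≥ n₀, (a3 H n : ℝ) + (pi3 H * Nat.card α - ε) * ((n : ℝ) + 1) ^ (Nat.card α - 1) ≤ a3 H (n + 1) := by
  have hh : 0 < Nat.card α := Nat.card_pos
  have hh' : (0 : ℝ) < Nat.card α := by exact_mod_cast hh
  obtain ⟨n₁, h1⟩ := a3_lower H (η := ε / (2 * Nat.card α)) (by positivity)
  have ht : Filter.Tendsto (fun n : ℕ => (pi3 H * Nat.card α - ε / 2) * ((n : ℝ) / ((n : ℝ) + 1)) ^ (Nat.card α - 1))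
      Filter.atTop (nhds ((pi3 H * Nat.card α - ε / 2) * 1 ^ (Nat.card α - 1))) :=
    ((tendsto_natCast_div_add_atTop (1 : ℝ)).pow _).const_mul _
  rw [one_pow, mul_one] at ht
  have hev := ht.eventually (eventually_gt_nhds (show pi3 H * Nat.card α - ε < pi3 H * Nat.card α - ε / 2 by linarith))
  obtain ⟨n₂, h2⟩ := Filter.eventually_atTop.1 hev
  refine ⟨max (max n₁ n₂) 1, fun n hn => ?_⟩
  have hn1 : n₁ ≤ n := (le_max_left _ _).trans ((le_max_left _ _).trans hn)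
  have hn2 : n₂ ≤ n := (le_max_right _ _).trans ((le_max_left _ _).trans hn)
  have hn3 : 1 ≤ n := (le_max_right _ _).trans hn
  have hn0 : (0 : ℝ) < n := by exact_mod_cast hn3
  have g1 := h1 n hn1
  have g2 := h2 n hn2
  have g3 : ((n : ℝ) + Nat.card α) * a3 H n ≤ n * a3 H (n + 1) := by exact_mod_cast a3_step H hn3
  have e1 : (n : ℝ) ^ Nat.card α = (n : ℝ) ^ (Nat.card α - 1) * n := (pow_sub_one_mul hh.ne' _).symm
  rw [e1] at g1
  have hp : (0 : ℝ) < ((n : ℝ) + 1) ^ (Nat.card α - 1) := by positivity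
  have g4 : (pi3 H * Nat.card α - ε) * ((n : ℝ) + 1) ^ (Nat.card α - 1) ≤
      (pi3 H * Nat.card α - ε / 2) * (n : ℝ) ^ (Nat.card α - 1) := by
    have h3 := mul_le_mul_of_nonneg_right g2.le hp.le
    rw [div_pow] at h3
    have h4 : (pi3 H * Nat.card α - ε / 2) * ((n : ℝ) ^ (Nat.card α - 1) / ((n : ℝ) + 1) ^ (Nat.card α - 1)) *
        ((n : ℝ) + 1) ^ (Nat.card α - 1) = (pi3 H * Nat.card α - ε / 2) * (n : ℝ) ^ (Nat.card α - 1) := by
      field_simp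
    rwa [h4] at h3
  have g5 : (pi3 H * Nat.card α - ε / 2) * (n : ℝ) ^ (Nat.card α - 1) * n ≤ Nat.card α * a3 H n := by
    have h3 := mul_le_mul_of_nonneg_left g1 hh'.le
    have h4 : (Nat.card α : ℝ) * ((pi3 H - ε / (2 * Nat.card α)) * ((n : ℝ) ^ (Nat.card α - 1) * n)) =
        (pi3 H * Nat.card α - ε / 2) * (n : ℝ) ^ (Nat.card α - 1) * n := by
      field_simp
    rwa [h4] at h3
  have g6 : (n : ℝ) * ((a3 H n : ℝ) + (pi3 H * Nat.card α - ε) * ((n : ℝ) + 1) ^ (Nat.card α - 1)) ≤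
      n * a3 H (n + 1) := by
    have h3 := mul_le_mul_of_nonneg_right g4 hn0.le
    nlinarith
  exact le_of_mul_le_mul_left g6 hn0

end Pool.Agent.WT7
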