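import Pool.Agent.WT7.MainInj

/-!
# [WT7-IsoRed] isolated vertices of `H`

`S = {x | ∃ y, H.Adj x y}`, `H' = H.induce S`. `NoIso H'` (both ends of an edge lie in `S`), `H'` is 2-colourable.
`inj_iso`: for every `G` on `V`: `inj H G = inj H' G * (number of injections of the other k points in a set with |V| - |S| points) = inj H' G * (|V| - |S|).descFactorial k`, `k = |α| - |S|`: a labelled copy of `H` is a labelled copy of
`H'` together with an injective map of the complement of `S` into the complement of its range. (Fibres: `Set.ncard` of the extensions; `Fintype.card_embedding_eq`.) If `|V| < |S|` both sides are `0`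
(`inj H' G = 0`). Only the consequence `inj_mono` is needed: `inj H' G ≤ inj H' G₁` implies `inj H G ≤ inj H G₁` for graphs with the same number of vertices.
`main_all`: if `S = ∅` then `inj H G` depends only on `|V|` (`inj_mono` with `inj H' G = 1` or directly); otherwise `main_inj` for `H'`: `G` with `inj H G = bF H F n`, `G₁` with `inj H' G₁ = a3 H' n`, `inj H' G ≤ bF H' F n ≤ a3 H' n = inj H' G₁`, so
`bF H F n = inj H G ≤ inj H G₁ ≤ a3 H n`. (If `α` is empty: `S = ∅`.)
-/

set_option autoImplicit false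

namespace Pool.Agent.WT7

variable {α β V W : Type}

/-- labelled copies as embeddings -/
private theorem isoRed_inj_eq (H : SimpleGraph α) (G : SimpleGraph V) :
    inj H G = Nat.card {e : α ↪ V // IsHom H G e} := by
  unfold inj
  rw [← Nat.card_coe_set_eq]
  refine Nat.card_congr ⟨fun f => ⟨⟨f.1, f.2.1⟩, f.2.2⟩, fun e => ⟨e.1, e.1.injective, e.2⟩, ?_, ?_⟩
  · intro f
    rfl
  · intro e
    rfl

open Classical in
private theorem isoRed_card_compl [Finite V] {γ : Type} [Finite γ] (f : γ ↪ V) :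
    Nat.card ↥(Set.range f)ᶜ = Nat.card V - Nat.card γ := by
  have h1 : (Set.range f).ncard = Nat.card γ := by
    rw [← Nat.card_coe_set_eq]
    exact (Nat.card_congr (Equiv.ofInjective f f.injective)).symm
  have h2 := Set.ncard_add_ncard_compl (Set.range f)
  rw [Nat.card_coe_set_eq]
  omega

private theorem isoRed_card_emb {γ δ : Type} [Finite γ] [Finite δ] :
    Nat.card (γ ↪ δ) = (Nat.card δ).descFactorial (Nat.card γ) := by
  classical
  have := Fintype.ofFinite γ
  have := Fintype.ofFinite δ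
  rw [Nat.card_eq_fintype_card, Nat.card_eq_fintype_card, Nat.card_eq_fintype_card,
    Fintype.card_embedding_eq]

theorem inj_iso [Finite α] [Finite V] (H : SimpleGraph α) (G : SimpleGraph V) :
    inj H G = inj (H.induce {x | ∃ y, H.Adj x y}) G *
      (Nat.card V - ({x | ∃ y, H.Adj x y} : Set α).ncard).descFactorial
        (Nat.card α - ({x | ∃ y, H.Adj x y} : Set α).ncard) := by
  classical
  set S : Set α := {x | ∃ y, H.Adj x y} with hS
  let E : (α ↪ V) ≃ Σ f : ↥S ↪ V, ↥Sᶜ ↪ ↥(Set.range f)ᶜ :=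
    (Equiv.embeddingCongr (Equiv.Set.sumCompl S).symm (Equiv.refl V)).trans
      Equiv.sumEmbeddingEquivSigmaEmbeddingRestricted
  have hE : ∀ (e : α ↪ V) (x : ↥S), (E e).1 x = e x := by
    intro e x
    change e (Equiv.Set.sumCompl S (Sum.inl x)) = e x
    rw [Equiv.Set.sumCompl_apply_inl]
  have hiff : ∀ e : α ↪ V, IsHom H G e ↔ IsHom (H.induce S) G (E e).1 := by
    intro e
    constructor
    · intro h x y hxy
      rw [hE, hE]
      exact h _ _ hxy
    · intro h x y hxy
      have hx : x ∈ S := ⟨y, hxy⟩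
      have hy : y ∈ S := ⟨x, hxy.symm⟩
      have := h ⟨x, hx⟩ ⟨y, hy⟩ hxy
      rwa [hE, hE] at this
  rw [isoRed_inj_eq, isoRed_inj_eq (H.induce S) G,
    Nat.card_congr (Equiv.subtypeEquiv (q := fun p : Σ f : ↥S ↪ V, ↥Sᶜ ↪ ↥(Set.range f)ᶜ =>
      IsHom (H.induce S) G p.1) E hiff),
    Nat.card_congr (Equiv.subtypeSigmaEquiv (fun f : ↥S ↪ V => ↥Sᶜ ↪ ↥(Set.range f)ᶜ)
      (fun f => IsHom (H.induce S) G f))]
  have : Fintype {f : ↥S ↪ V // IsHom (H.induce S) G f} := Fintype.ofFinite _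
  rw [Nat.card_sigma]
  have hc : ∀ f : {f : ↥S ↪ V // IsHom (H.induce S) G f},
      Nat.card (↥Sᶜ ↪ ↥(Set.range f.1)ᶜ) =
        (Nat.card V - S.ncard).descFactorial (Nat.card α - S.ncard) := by
    intro f
    have h2 := Set.ncard_add_ncard_compl S
    rw [isoRed_card_emb, isoRed_card_compl, Nat.card_coe_set_eq, Nat.card_coe_set_eq]
    congr 1
    omega
  rw [Finset.sum_congr rfl (fun f _ => hc f), Finset.sum_const, Finset.card_univ,
    smul_eq_mul, Nat.card_eq_fintype_card (α := {f : ↥S ↪ V // IsHom (H.induce S) G f})]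

private theorem isoRed_mono [Finite α] [Finite V] (H : SimpleGraph α) (G G₁ : SimpleGraph V)
    (h : inj (H.induce {x | ∃ y, H.Adj x y}) G ≤ inj (H.induce {x | ∃ y, H.Adj x y}) G₁) :
    inj H G ≤ inj H G₁ := by
  rw [inj_iso H G, inj_iso H G₁]
  exact Nat.mul_le_mul_right _ h

private theorem isoRed_empty {γ : Type} [IsEmpty γ] (K : SimpleGraph γ) (G G₁ : SimpleGraph V) :
    inj K G ≤ inj K G₁ := by
  unfold inj
  have h : {f : γ → V | IsInj K G f} = {f : γ → V | IsInj K G₁ f} := by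
    ext f
    constructor
    · intro hf
      exact ⟨hf.1, fun x => isEmptyElim x⟩
    · intro hf
      exact ⟨hf.1, fun x => isEmptyElim x⟩
  rw [h]

theorem main_all [Finite α] {H : SimpleGraph α} (hH : H.Colorable 2) [Finite β]
    {F : SimpleGraph β} {u v : β} {c : β → Bool} (hF : Crit F u v c) : ∃ n₀ : ℕ, ∀ n ≥ n₀, bF H F n ≤ a3 H n := by
  have hFe : ∃ a b, F.Adj a b := ⟨u, v, hF.adj⟩
  rcases Set.eq_empty_or_nonempty {x | ∃ y, H.Adj x y} with hS | ⟨x₀, hx₀⟩
  · refine ⟨0, fun n _ => ?_⟩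
    obtain ⟨G, -, hG⟩ := exists_bF H hFe n
    have hbot : (⊥ : SimpleGraph (Fin n)).CliqueFree 3 := SimpleGraph.cliqueFree_bot (by norm_num)
    have h1 : inj H G ≤ inj H (⊥ : SimpleGraph (Fin n)) := by
      refine isoRed_mono H G ⊥ ?_
      have : IsEmpty ↥{x | ∃ y, H.Adj x y} := by
        rw [hS]
        infer_instance
      exact isoRed_empty _ _ _
    have h2 := inj_le_a3 H hbot
    rw [Nat.card_fin] at h2
    rw [← hG]
    exact h1.trans h2
  · have : Nonempty ↥{x | ∃ y, H.Adj x y} := ⟨⟨x₀, hx₀⟩⟩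
    have hH' : (H.induce {x | ∃ y, H.Adj x y}).Colorable 2 := by
      obtain ⟨C⟩ := hH
      exact ⟨C.comp (SimpleGraph.Embedding.induce _).toHom⟩
    have hI : NoIso (H.induce {x | ∃ y, H.Adj x y}) := by
      rintro ⟨x, y, hxy⟩
      exact ⟨⟨y, x, hxy.symm⟩, hxy⟩
    obtain ⟨n₀, hn₀⟩ := main_inj hH' hI hF
    refine ⟨n₀, fun n hn => ?_⟩
    obtain ⟨G, hGF, hG⟩ := exists_bF H hFe n
    obtain ⟨G₁, hG₁f, hG₁⟩ := exists_a3 (H.induce {x | ∃ y, H.Adj x y}) n
    have h1 := inj_le_bF (H.induce {x | ∃ y, H.Adj x y}) F hGF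
    rw [Nat.card_fin] at h1
    have h2 : inj (H.induce {x | ∃ y, H.Adj x y}) G ≤ inj (H.induce {x | ∃ y, H.Adj x y}) G₁ := by
      rw [hG₁]
      exact h1.trans (hn₀ n hn)
    have h3 := isoRed_mono H G G₁ h2
    have h4 := inj_le_a3 H hG₁f
    rw [Nat.card_fin] at h4
    rw [← hG]
    exact h3.trans h4

end Pool.Agent.WT7
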