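import Pool.Agent.WT7.Pig

/-!
# [WT7-KEmb] `K_k` with bipartite graphs attached

`KB F Q`: `Q` is the clique; `F'` = `F` minus the edges inside `Q` is bipartite and every component of `F'` contains at most one vertex of `Q`.
`attach`: `G` with all degrees `≥ c₀ n`, `n` large, `a : V`, `B` a set with at most `b` elements: there are `P, Y` disjoint, of size `t`, `Y ⊆ N(a)`, `Y` complete to `P`, both disjoint from `B ∪ {a}`. Proof: `X = N(a) \ (B ∪ {a})`, `|X| ≥ c₀ n / 2`, every `x ∈ X` has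
at least `c₀ n` neighbours; `pig` with `r x p := G.Adj x p`, `A = univ`, `N = n`, `δ = c₀`, the set `B ∪ {a}`: `P` of size `t`, `X' ⊆ X` complete to `P` with `|X'| ≥ (c₀/2)^t c₀ n / 2 ≥ t`; `Y ⊆ X'` with `t` elements.
`kemb`: let `κ : Fin k → V` be the clique of `G` (pairwise adjacent) and identify `Q` with `Fin k` (`q : Fin k ≃ Q`). Choose `P_i, Y_i` (`i < k`) one after the other with `attach` (`a = κ i`, `B` = all `κ j` and the earlier `P_j, Y_j`; `t = |β|`, `b = k + 2 k t`).
Define the root `ρ(x)` of `x : β`: the index `i` such that `q i` and `x` are connected in `F'` if there is one, else `0`; it is constant along the edges of `F'`. Let `c` be a 2-colouring of `F'`, changed on components so that `c (q i) = true` for all `i`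
(`c' x = (c x == c (q (ρ x)))`). Map `q i ↦ κ i`, `x ∉ Q`: into `P_(ρ x)` if `c' x = true`, into `Y_(ρ x)` if `c' x = false` (with fixed injections `β → P_i`, `β → Y_i`). An edge of `F` inside `Q` goes to an edge of the clique; any other edge is an edge of `F'`, its ends have the same
root `i` and different colours: `Y_i` is complete to `P_i ∪ {κ i}`.
-/

set_option autoImplicit false

namespace Pool.Agent.WT7

variable {α β V W : Type}

/-- the graph `F` without the edges inside `Q` -/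
def offQ (F : SimpleGraph β) (Q : Set β) : SimpleGraph β where
  Adj x y := F.Adj x y ∧ ¬ (x ∈ Q ∧ y ∈ Q)
  symm := ⟨fun x y h => ⟨h.1.symm, fun h' => h.2 ⟨h'.2, h'.1⟩⟩⟩
  loopless := ⟨fun x h => h.1.ne rfl⟩

/-- `F` consists of a complete graph on the set `Q` of `k` vertices and bipartite graphs, each of which has at most one vertex in `Q` -/
structure KB (F : SimpleGraph β) (Q : Set β) (k : ℕ) : Prop where
  card : Q.ncard = k
  clique : ∀ x ∈ Q, ∀ y ∈ Q, x ≠ y → F.Adj x y
  bip : (offQ F Q).Colorable 2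
  sep : ∀ x ∈ Q, ∀ y ∈ Q, (offQ F Q).Reachable x y → x = y

theorem attach {c₀ : ℝ} (hc₀ : 0 < c₀) (t b : ℕ) : ∃ n₀ : ℕ, ∀ (V : Type) [Finite V], n₀ ≤ Nat.card V →
    ∀ G : SimpleGraph V, (∀ x, c₀ * (Nat.card V : ℝ) ≤ ((G.neighborSet x).ncard : ℝ)) →
      ∀ (a : V) (B : Set V), B.ncard ≤ b → ∃ P Y : Set V, P.ncard = t ∧ Y.ncard = t ∧ Disjoint P Y ∧
        Disjoint P (insert a B) ∧ Disjoint Y (insert a B) ∧ (∀ y ∈ Y, G.Adj a y) ∧ Full G Y P := by
  classical
  set c : ℝ := (c₀ / 2) ^ t * (c₀ / 2) with hc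
  have hcpos : 0 < c := by positivity
  refine ⟨⌈2 * ((b : ℝ) + 1 + t) / c₀⌉₊ + ⌈(t : ℝ) / c⌉₊ + 1, ?_⟩
  intro V _ hn G hdeg a B hB
  set n : ℕ := Nat.card V with hndef
  have hn1 : (1 : ℝ) ≤ n := by
    have : 1 ≤ n := by omega
    exact_mod_cast this
  have hn2 : 2 * ((b : ℝ) + 1 + t) / c₀ ≤ n := by
    have h1 : ⌈2 * ((b : ℝ) + 1 + t) / c₀⌉₊ ≤ n := by omega
    exact (Nat.le_ceil _).trans (by exact_mod_cast h1)
  have hn3 : (t : ℝ) / c ≤ n := by
    have h1 : ⌈(t : ℝ) / c⌉₊ ≤ n := by omega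
    exact (Nat.le_ceil _).trans (by exact_mod_cast h1)
  rw [div_le_iff₀ hc₀] at hn2
  rw [div_le_iff₀ hcpos] at hn3
  have ht0 : (0 : ℝ) ≤ t := Nat.cast_nonneg t
  have hBr : ((insert a B).ncard : ℝ) ≤ (b : ℝ) + 1 := by
    have h1 : (insert a B).ncard ≤ b + 1 := (Set.ncard_insert_le a B).trans (by omega)
    exact_mod_cast h1
  set X : Set V := G.neighborSet a \ insert a B with hX
  have hXc : c₀ / 2 * n ≤ (X.ncard : ℝ) := by
    have h1 : (G.neighborSet a).ncard ≤ X.ncard + (insert a B).ncard := by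
      have hsub : G.neighborSet a ⊆ X ∪ insert a B := by
        intro x hx
        by_cases h : x ∈ insert a B
        · exact Or.inr h
        · exact Or.inl ⟨hx, h⟩
      exact (Set.ncard_le_ncard hsub (Set.toFinite _)).trans (Set.ncard_union_le _ _)
    have h2 : ((G.neighborSet a).ncard : ℝ) ≤ (X.ncard : ℝ) + ((insert a B).ncard : ℝ) := by
      exact_mod_cast h1
    have h3 := hdeg a
    linarith
  have hXne : X.Nonempty := by
    have h3 : 0 < (X.ncard : ℝ) := by
      have : 0 < c₀ / 2 * (n : ℝ) := by positivity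
      linarith
    have h4 : 0 < X.ncard := by exact_mod_cast h3
    exact (Set.ncard_pos (Set.toFinite _)).1 h4
  obtain ⟨P, hP, hPc, X', hX', hX'c, hr⟩ := pig (fun x p => G.Adj x p) n hc₀ t X Set.univ (insert a B)
    (by rw [Set.ncard_univ]) (by linarith) hXne (by
      intro x _
      have h1 := hdeg x
      have h2 : {a | a ∈ (Set.univ : Set V) ∧ G.Adj x a} = G.neighborSet x := by
        ext y
        simp
      rw [h2]
      exact h1)
  have ht : t ≤ X'.ncard := by
    have h1 : (c₀ / 2) ^ t * (c₀ / 2 * n) ≤ (c₀ / 2) ^ t * (X.ncard : ℝ) :=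
      mul_le_mul_of_nonneg_left hXc (by positivity)
    have h2 : (c₀ / 2) ^ t * (c₀ / 2 * n) = n * c := by
      rw [hc]
      ring
    have h3 : (t : ℝ) ≤ (X'.ncard : ℝ) := by linarith
    exact_mod_cast h3
  obtain ⟨Y, hY, hYc⟩ := Set.exists_subset_card_eq ht
  refine ⟨P, Y, hPc, hYc, ?_, ?_, ?_, ?_, ?_⟩
  · rw [Set.disjoint_left]
    intro x hxP hxY
    exact G.irrefl (hr x (hY hxY) x hxP)
  · rw [Set.disjoint_left]
    intro x hxP hxB
    exact (hP hxP).2 hxB
  · rw [Set.disjoint_left]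
    intro x hxY hxB
    exact (hX' (hY hxY)).2 hxB
  · intro y hy
    exact (hX' (hY hy)).1
  · intro y hy p hp
    exact hr y (hY hy) p hp

private lemma kemb_inj [Finite β] [Nonempty β] {P : Set V} (h : P.ncard = Nat.card β) :
    ∃ f : β → V, Function.Injective f ∧ ∀ x, f x ∈ P := by
  classical
  have hpos : 0 < Nat.card β := Nat.card_pos
  have hfin : P.Finite := Set.finite_of_ncard_pos (by omega)
  have e : Nat.card β = Nat.card P := by rw [Nat.card_coe_set_eq, h]
  have : Finite P := hfin.to_subtype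
  let g : β ≃ P := (Finite.equivFinOfCardEq e).trans (Finite.equivFin P).symm
  exact ⟨fun x => (g x : V), fun x y hxy => g.injective (Subtype.ext hxy), fun x => (g x).2⟩

/-- the sets `P_j`, `Y_j` chosen one after the other -/
private lemma kemb_seq {c₀ : ℝ} (t k : ℕ) {n₀ : ℕ}
    (hatt : ∀ (V : Type) [Finite V], n₀ ≤ Nat.card V →
    ∀ G : SimpleGraph V, (∀ x, c₀ * (Nat.card V : ℝ) ≤ ((G.neighborSet x).ncard : ℝ)) →
      ∀ (a : V) (B : Set V), B.ncard ≤ k + 2 * t * k → ∃ P Y : Set V, P.ncard = t ∧ Y.ncard = t ∧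
        Disjoint P Y ∧
        Disjoint P (insert a B) ∧ Disjoint Y (insert a B) ∧ (∀ y ∈ Y, G.Adj a y) ∧ Full G Y P)
    [Finite V] (hn : n₀ ≤ Nat.card V) (G : SimpleGraph V)
    (hdeg : ∀ x, c₀ * (Nat.card V : ℝ) ≤ ((G.neighborSet x).ncard : ℝ)) (κ : ℕ → V) (K : Set V)
    (hK : K.ncard ≤ k) (m : ℕ) (hm : m ≤ k) :
    ∃ (P Y : ℕ → Set V) (U : Set V), K ⊆ U ∧ U.ncard ≤ k + 2 * t * m ∧
      (∀ j < m, P j ⊆ U ∧ Y j ⊆ U ∧ (P j).ncard = t ∧ (Y j).ncard = t ∧ Disjoint (P j) (Y j) ∧
        Disjoint (P j) K ∧ Disjoint (Y j) K ∧ (∀ y ∈ Y j, G.Adj (κ j) y) ∧ Full G (Y j) (P j)) ∧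
      ∀ i j, i < j → j < m → Disjoint (P i ∪ Y i) (P j ∪ Y j) := by
  classical
  induction m with
  | zero =>
    refine ⟨fun _ => ∅, fun _ => ∅, K, subset_rfl, by omega, ?_, ?_⟩
    · intro j hj
      exact absurd hj (by omega)
    · intro i j _ hj
      exact absurd hj (by omega)
  | succ m ih =>
    obtain ⟨P, Y, U, hKU, hUc, hj, hd⟩ := ih (by omega)
    have hUb : U.ncard ≤ k + 2 * t * k := by
      have h1 : 2 * t * m ≤ 2 * t * k := Nat.mul_le_mul_left _ (by omega)
      omega
    obtain ⟨P', Y', hP'c, hY'c, hPY', hP'B, hY'B, hadj, hfull⟩ := hatt V hn G hdeg (κ m) U hUb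
    have hP'U : Disjoint P' U := hP'B.mono_right (Set.subset_insert _ _)
    have hY'U : Disjoint Y' U := hY'B.mono_right (Set.subset_insert _ _)
    refine ⟨Function.update P m P', Function.update Y m Y', U ∪ (P' ∪ Y'),
      hKU.trans Set.subset_union_left, ?_, ?_, ?_⟩
    · have h1 := Set.ncard_union_le U (P' ∪ Y')
      have h2 := Set.ncard_union_le P' Y'
      have h3 : 2 * t * (m + 1) = 2 * t * m + (t + t) := by ring
      omega
    · intro j hjm
      rcases Nat.lt_succ_iff_lt_or_eq.mp hjm with hlt | heq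
      · rw [Function.update_of_ne hlt.ne, Function.update_of_ne hlt.ne]
        obtain ⟨a1, a2, a3⟩ := hj j hlt
        exact ⟨a1.trans Set.subset_union_left, a2.trans Set.subset_union_left, a3⟩
      · subst heq
        rw [Function.update_self, Function.update_self]
        exact ⟨Set.subset_union_left.trans Set.subset_union_right,
          Set.subset_union_right.trans Set.subset_union_right, hP'c, hY'c, hPY',
          hP'U.mono_right hKU, hY'U.mono_right hKU, hadj, hfull⟩
    · intro i j hij hjm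
      rcases Nat.lt_succ_iff_lt_or_eq.mp hjm with hlt | heq
      · rw [Function.update_of_ne (by omega), Function.update_of_ne (by omega),
          Function.update_of_ne (by omega), Function.update_of_ne (by omega)]
        exact hd i j hij hlt
      · subst heq
        rw [Function.update_self, Function.update_self, Function.update_of_ne (by omega),
          Function.update_of_ne (by omega)]
        obtain ⟨a1, a2, _⟩ := hj i hij
        exact (Disjoint.mono_left (Set.union_subset a1 a2)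
          (Disjoint.symm (Disjoint.sup_left hP'U hY'U)))

theorem kemb [Finite β] {F : SimpleGraph β} {Q : Set β} {k : ℕ} (hk : 1 ≤ k) (hF : KB F Q k) {c₀ : ℝ} (hc₀ : 0 < c₀) :
    ∃ n₀ : ℕ, ∀ (V : Type) [Finite V], n₀ ≤ Nat.card V → ∀ G : SimpleGraph V,
      (∀ x, c₀ * (Nat.card V : ℝ) ≤ ((G.neighborSet x).ncard : ℝ)) →
        (⊤ : SimpleGraph (Fin k)).IsContained G → F.IsContained G := by
  classical
  obtain ⟨n₀, hatt⟩ := attach hc₀ (Nat.card β) (k + 2 * Nat.card β * k)
  refine ⟨n₀, ?_⟩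
  intro V _ hn G hdeg hcont
  obtain ⟨cp⟩ := hcont
  -- the clique of `G`
  let κ : Fin k → V := fun i => cp i
  have hκinj : Function.Injective κ := cp.injective
  have hκadj : ∀ i j, i ≠ j → G.Adj (κ i) (κ j) := fun i j h => cp.toHom.map_adj (by simpa using h)
  let κ' : ℕ → V := fun i => if h : i < k then κ ⟨i, h⟩ else κ ⟨0, by omega⟩
  have hκ' : ∀ i : Fin k, κ' i = κ i := fun i => by simp [κ', i.2]
  have hKc : (Set.range κ).ncard ≤ k := by
    have h1 := Set.ncard_image_le (f := κ) (s := Set.univ) (Set.toFinite _)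
    rw [Set.image_univ, Set.ncard_univ, Nat.card_eq_fintype_card, Fintype.card_fin] at h1
    exact h1
  obtain ⟨P, Y, U, hKU, hUc, hj, hd⟩ := kemb_seq (Nat.card β) k hatt hn G hdeg κ' (Set.range κ)
    hKc k le_rfl
  -- the clique of `F`
  have hQfin : Q.Finite := Set.finite_of_ncard_pos (by rw [hF.card]; omega)
  have : Finite Q := hQfin.to_subtype
  let e : Q ≃ Fin k := Finite.equivFinOfCardEq (by rw [Nat.card_coe_set_eq, hF.card])
  let q : Fin k → β := fun i => (e.symm i : β)
  have hqQ : ∀ i, q i ∈ Q := fun i => (e.symm i).2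
  have hqinj : Function.Injective q := fun i j h => e.symm.injective (Subtype.ext h)
  have hqsurj : ∀ x ∈ Q, ∃ i, q i = x := fun x hx => ⟨e ⟨x, hx⟩, by simp [q]⟩
  have : Nonempty β := ⟨q ⟨0, by omega⟩⟩
  -- the root
  let sel : (Fin k → Prop) → Fin k := fun p => if h : ∃ i, p i then h.choose else ⟨0, by omega⟩
  let ρ : β → Fin k := fun x => sel (fun i => (offQ F Q).Reachable (q i) x)
  have hρadj : ∀ x y, (offQ F Q).Adj x y → ρ x = ρ y := by
    intro x y hxy
    apply congrArg sel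
    funext i
    exact propext ⟨fun h => h.trans hxy.reachable, fun h => h.trans hxy.symm.reachable⟩
  have hρq : ∀ i, ρ (q i) = i := by
    intro i
    have hex : ∃ j, (offQ F Q).Reachable (q j) (q i) := ⟨i, SimpleGraph.Reachable.refl _⟩
    have h1 : ρ (q i) = hex.choose := by
      show sel _ = _
      simp only [sel]
      rw [dif_pos hex]
    rw [h1]
    exact hqinj (hF.sep _ (hqQ _) _ (hqQ _) hex.choose_spec)
  -- the colouring
  obtain ⟨col⟩ := hF.bip
  let c' : β → Prop := fun x => col x = col (q (ρ x))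
  have hc'q : ∀ i, c' (q i) := fun i => by
    show col (q i) = col (q (ρ (q i)))
    rw [hρq]
  have hc'adj : ∀ x y, (offQ F Q).Adj x y → (c' x ∧ ¬ c' y) ∨ (¬ c' x ∧ c' y) := by
    intro x y hxy
    have h1 : col x ≠ col y := col.valid hxy
    have h2 := hρadj x y hxy
    show ((col x = col (q (ρ x))) ∧ ¬ (col y = col (q (ρ y)))) ∨
      (¬ (col x = col (q (ρ x))) ∧ (col y = col (q (ρ y))))
    rw [h2]
    generalize col (q (ρ y)) = z at *
    generalize col x = a at *
    generalize col y = b at *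
    fin_cases a <;> fin_cases b <;> fin_cases z <;> simp_all
  -- injections
  have hPinj : ∀ i : Fin k, ∃ f : β → V, Function.Injective f ∧ ∀ x, f x ∈ P i := fun i =>
    kemb_inj (hj i i.2).2.2.1
  have hYinj : ∀ i : Fin k, ∃ f : β → V, Function.Injective f ∧ ∀ x, f x ∈ Y i := fun i =>
    kemb_inj (hj i i.2).2.2.2.1
  choose p hp hpP using hPinj
  choose y hy hyY using hYinj
  have hPY : ∀ i : Fin k, Disjoint (P i) (Y i) := fun i => (hj i i.2).2.2.2.2.1
  have hPK : ∀ i : Fin k, Disjoint (P i) (Set.range κ) := fun i => (hj i i.2).2.2.2.2.2.1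
  have hYK : ∀ i : Fin k, Disjoint (Y i) (Set.range κ) := fun i => (hj i i.2).2.2.2.2.2.2.1
  have hκY : ∀ i : Fin k, ∀ z ∈ Y i, G.Adj (κ i) z := fun i z hz => by
    have h1 := (hj i i.2).2.2.2.2.2.2.2.1 z hz
    rw [hκ'] at h1
    exact h1
  have hfull : ∀ i : Fin k, Full G (Y i) (P i) := fun i => (hj i i.2).2.2.2.2.2.2.2.2
  have hdis : ∀ i j : Fin k, i ≠ j → Disjoint (P i ∪ Y i) (P j ∪ Y j) := by
    intro i j hij
    rcases lt_or_gt_of_ne (fun h => hij (Fin.ext h) : (i : ℕ) ≠ j) with h | h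
    · exact hd i j h j.2
    · exact (hd j i h i.2).symm
  have hφ : ∃ φ : β → V, ∀ x, φ x = if x ∈ Q then κ (ρ x) else if c' x then p (ρ x) x
      else y (ρ x) x := ⟨_, fun x => rfl⟩
  obtain ⟨φ, hφ⟩ := hφ
  have hφQ : ∀ x ∈ Q, φ x = κ (ρ x) := fun x hx => by rw [hφ, if_pos hx]
  have hφP : ∀ x, x ∉ Q → c' x → φ x = p (ρ x) x := fun x hx hc => by
    rw [hφ, if_neg hx, if_pos hc]
  have hφY : ∀ x, x ∉ Q → ¬ c' x → φ x = y (ρ x) x := fun x hx hc => by
    rw [hφ, if_neg hx, if_neg hc]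
  have hφin : ∀ x, x ∉ Q → φ x ∈ P (ρ x) ∪ Y (ρ x) := by
    intro x hx
    by_cases hc : c' x
    · rw [hφP x hx hc]
      exact Or.inl (hpP _ _)
    · rw [hφY x hx hc]
      exact Or.inr (hyY _ _)
  have hφK : ∀ x, x ∉ Q → φ x ∉ Set.range κ := by
    intro x hx hmem
    rcases hφin x hx with h | h
    · exact Set.disjoint_left.mp (hPK _) h hmem
    · exact Set.disjoint_left.mp (hYK _) h hmem
  have hinj : Function.Injective φ := by
    intro x z hxz
    by_cases hx : x ∈ Q
    · by_cases hz : z ∈ Q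
      · rw [hφQ x hx, hφQ z hz] at hxz
        have h1 := hκinj hxz
        obtain ⟨i, rfl⟩ := hqsurj x hx
        obtain ⟨j, rfl⟩ := hqsurj z hz
        rw [hρq, hρq] at h1
        rw [h1]
      · exfalso
        apply hφK z hz
        rw [← hxz, hφQ x hx]
        exact ⟨_, rfl⟩
    · by_cases hz : z ∈ Q
      · exfalso
        apply hφK x hx
        rw [hxz, hφQ z hz]
        exact ⟨_, rfl⟩
      · by_cases hr : ρ x = ρ z
        · by_cases hcx : c' x
          · by_cases hcz : c' z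
            · rw [hφP x hx hcx, hφP z hz hcz, hr] at hxz
              exact hp _ hxz
            · exfalso
              rw [hφP x hx hcx, hφY z hz hcz, hr] at hxz
              exact Set.disjoint_left.mp (hPY (ρ z)) (hpP _ x) (hxz ▸ hyY _ z)
          · by_cases hcz : c' z
            · exfalso
              rw [hφY x hx hcx, hφP z hz hcz, hr] at hxz
              exact Set.disjoint_left.mp (hPY (ρ z)) (hpP _ z) (hxz ▸ hyY _ x)
            · rw [hφY x hx hcx, hφY z hz hcz, hr] at hxz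
              exact hy _ hxz
        · exfalso
          exact Set.disjoint_left.mp (hdis _ _ hr) (hφin x hx) (hxz ▸ hφin z hz)
  -- an edge with ends of colour `true` and `false`
  have hedge : ∀ x z, (offQ F Q).Adj x z → c' x → ¬ c' z → G.Adj (φ x) (φ z) := by
    intro x z hxz hcx hcz
    have hr := hρadj x z hxz
    have hz : z ∉ Q := by
      intro hz
      obtain ⟨j, rfl⟩ := hqsurj z hz
      exact hcz (hc'q j)
    rw [hφY z hz hcz]
    by_cases hx : x ∈ Q
    · rw [hφQ x hx, hr]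
      exact hκY _ _ (hyY _ _)
    · rw [hφP x hx hcx, hr]
      exact (hfull _ _ (hyY _ _) _ (hpP _ _)).symm
  refine ⟨⟨⟨φ, ?_⟩, hinj⟩⟩
  intro x z hxz
  by_cases hQ : x ∈ Q ∧ z ∈ Q
  · obtain ⟨i, rfl⟩ := hqsurj x hQ.1
    obtain ⟨j, rfl⟩ := hqsurj z hQ.2
    rw [hφQ _ hQ.1, hφQ _ hQ.2, hρq, hρq]
    apply hκadj
    rintro rfl
    exact hxz.ne rfl
  · have hoff : (offQ F Q).Adj x z := ⟨hxz, hQ⟩
    rcases hc'adj x z hoff with ⟨h1, h2⟩ | ⟨h1, h2⟩
    · exact hedge x z hoff h1 h2
    · exact (hedge z x hoff.symm h2 h1).symm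

end Pool.Agent.WT7
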