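import Pool.Agent.WT7.KMain
import Pool.Agent.WT7.FinM

/-!
# [WT7-KFin] the theorem for `K_k` with bipartite graphs attached

`k_main_all`: isolated vertices of `H` as in IsoRed.lean (`inj_iso`; `H' = H.induce S` is `K_k`-free; if `S = ∅` then `inj H G` depends only on the number of vertices of `G`).
`k_ex`: `≤` as in `ex_le` (FinM.lean) with `inj_eq_aut_mul`; `≥`: `F` contains `K_k` (the clique `Q`), so a `K_k`-free graph is `F`-free.
`k_good`: `χ(K_k) = k` (`SimpleGraph.chromaticNumber_top`), so the complete `(k-1)`-partite graph of the hypothesis also serves for `F` (`χ(F) = k` is a hypothesis).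
-/

set_option autoImplicit false

namespace Pool.Agent.WT7

variable {α β V W : Type}

private theorem kfin_mono [Finite α] [Finite V] (H : SimpleGraph α) (G G₁ : SimpleGraph V)
    (h : inj (H.induce {x | ∃ y, H.Adj x y}) G ≤ inj (H.induce {x | ∃ y, H.Adj x y}) G₁) :
    inj H G ≤ inj H G₁ := by
  rw [inj_iso H G, inj_iso H G₁]
  exact Nat.mul_le_mul_right _ h

private theorem kfin_empty {γ : Type} [IsEmpty γ] (K : SimpleGraph γ) (G G₁ : SimpleGraph V) :
    inj K G ≤ inj K G₁ := by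
  unfold inj
  have h : {f : γ → V | IsInj K G f} = {f : γ → V | IsInj K G₁ f} := by
    ext f
    constructor
    · intro hf
      exact ⟨hf.1, fun x => isEmptyElim x⟩
    · intro hf
      exact ⟨hf.1, fun x => isEmptyElim x⟩
  rw [h]

private theorem kfin_edge {k : ℕ} (hk : 2 ≤ k) : ∃ a b, (⊤ : SimpleGraph (Fin k)).Adj a b :=
  ⟨⟨0, by omega⟩, ⟨1, by omega⟩, by simp⟩

private theorem kfin_ne_bot {γ : Type} {K : SimpleGraph γ} (h : ∃ a b, K.Adj a b) : K ≠ ⊥ := by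
  rintro rfl
  obtain ⟨a, b, hab⟩ := h
  exact hab

private theorem kfin_edgeF {k : ℕ} (hk : 2 ≤ k) [Finite β] {F : SimpleGraph β} {Q : Set β} (hF : KB F Q k) :
    ∃ a b, F.Adj a b := by
  have h1 : 1 < Q.ncard := by
    rw [hF.card]
    omega
  obtain ⟨a, ha, b, hb, hab⟩ := (Set.one_lt_ncard (Set.toFinite Q)).1 h1
  exact ⟨a, b, hF.clique a ha b hb hab⟩

private theorem kfin_cont {k : ℕ} [Finite β] {F : SimpleGraph β} {Q : Set β} (hF : KB F Q k) :
    (⊤ : SimpleGraph (Fin k)).IsContained F := by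
  have h1 : Nat.card Q = k := by
    rw [Nat.card_coe_set_eq]
    exact hF.card
  have e : Fin k ≃ Q := (Finite.equivFinOfCardEq h1).symm
  refine ⟨⟨⟨fun i => (e i : β), ?_⟩, ?_⟩⟩
  · intro a b hab
    refine hF.clique _ (e a).2 _ (e b).2 fun h => ?_
    exact (by simpa using hab : a ≠ b) (e.injective (Subtype.ext h))
  · intro a b hab
    exact e.injective (Subtype.ext hab)

theorem k_main_all [Finite α] {H : SimpleGraph α} {k : ℕ} (hk : 2 ≤ k) (hH : H.CliqueFree k) [Finite β]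
    {F : SimpleGraph β} {Q : Set β} (hF : KB F Q k) :
    ∃ n₀ : ℕ, ∀ n ≥ n₀, bF H F n ≤ bF H (⊤ : SimpleGraph (Fin k)) n := by
  have hFe := kfin_edgeF hk hF
  have hbot : ∀ n, (⊤ : SimpleGraph (Fin k)).Free (⊥ : SimpleGraph (Fin n)) := fun n =>
    SimpleGraph.free_bot (kfin_ne_bot (kfin_edge hk))
  rcases Set.eq_empty_or_nonempty {x | ∃ y, H.Adj x y} with hS | ⟨x₀, hx₀⟩
  · refine ⟨0, fun n _ => ?_⟩
    obtain ⟨G, -, hG⟩ := exists_bF H hFe n
    have h1 : inj H G ≤ inj H (⊥ : SimpleGraph (Fin n)) := by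
      refine kfin_mono H G ⊥ ?_
      have : IsEmpty ↥{x | ∃ y, H.Adj x y} := by
        rw [hS]
        infer_instance
      exact kfin_empty _ _ _
    have h2 := inj_le_bF H _ (hbot n)
    rw [Nat.card_fin] at h2
    rw [← hG]
    exact h1.trans h2
  · have : Nonempty ↥{x | ∃ y, H.Adj x y} := ⟨⟨x₀, hx₀⟩⟩
    have hH' : (H.induce {x | ∃ y, H.Adj x y}).CliqueFree k :=
      hH.comap ⟨(SimpleGraph.Embedding.induce _).toCopy⟩
    have hI : NoIso (H.induce {x | ∃ y, H.Adj x y}) := by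
      rintro ⟨x, y, hxy⟩
      exact ⟨⟨y, x, hxy.symm⟩, hxy⟩
    obtain ⟨n₀, hn₀⟩ := k_main_inj hk hH' hI hF
    refine ⟨n₀, fun n hn => ?_⟩
    obtain ⟨G, hGF, hG⟩ := exists_bF H hFe n
    obtain ⟨G₁, hG₁f, hG₁⟩ := exists_bF (H.induce {x | ∃ y, H.Adj x y}) (kfin_edge hk) n
    have h1 := inj_le_bF (H.induce {x | ∃ y, H.Adj x y}) F hGF
    rw [Nat.card_fin] at h1
    have h2 : inj (H.induce {x | ∃ y, H.Adj x y}) G ≤ inj (H.induce {x | ∃ y, H.Adj x y}) G₁ := by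
      rw [hG₁]
      exact h1.trans (hn₀ n hn)
    have h3 := kfin_mono H G G₁ h2
    have h4 := inj_le_bF H _ hG₁f
    rw [Nat.card_fin] at h4
    rw [← hG]
    exact h3.trans h4

private theorem kfin_bdd [Finite α] (H : SimpleGraph α) {n : ℕ} (P : SimpleGraph (Fin n) → Prop) :
    BddAbove {m | ∃ G : SimpleGraph (Fin n), P G ∧ G.copyCount H = m} := by
  refine ⟨Nat.card (Fin n) ^ Nat.card α, ?_⟩
  rintro m ⟨G, -, rfl⟩
  refine le_trans ?_ ((inj_le_hom H G).trans (hom_le_pow H G))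
  rw [inj_eq_aut_mul H G]
  exact Nat.le_mul_of_pos_left _ (aut_pos H)

private theorem kfin_exists [Finite α] (H : SimpleGraph α) {γ : Type} {K : SimpleGraph γ}
    (hK : ∃ a b, K.Adj a b) (n : ℕ) : ∃ G : SimpleGraph (Fin n), K.Free G ∧ G.copyCount H = ex n H K :=
  Nat.sSup_mem (s := {m | ∃ G : SimpleGraph (Fin n), K.Free G ∧ G.copyCount H = m})
    ⟨_, ⊥, SimpleGraph.free_bot (kfin_ne_bot hK), rfl⟩ (kfin_bdd H _)

private theorem kfin_le_ex [Finite α] (H : SimpleGraph α) {γ : Type} {K : SimpleGraph γ} {n : ℕ}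
    {G : SimpleGraph (Fin n)} (hG : K.Free G) : G.copyCount H ≤ ex n H K :=
  le_csSup (kfin_bdd H _) ⟨G, hG, rfl⟩

theorem k_ex [Finite α] {H : SimpleGraph α} {k : ℕ} (hk : 2 ≤ k) (hH : H.CliqueFree k) [Finite β]
    {F : SimpleGraph β} {Q : Set β} (hF : KB F Q k) :
    ∃ n₀ : ℕ, ∀ n ≥ n₀, ex n H F = ex n H (⊤ : SimpleGraph (Fin k)) := by
  obtain ⟨n₀, hn₀⟩ := k_main_all hk hH hF
  refine ⟨n₀, fun n hn => le_antisymm ?_ ?_⟩
  · obtain ⟨G, hGF, hG⟩ := kfin_exists H (kfin_edgeF hk hF) n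
    obtain ⟨G₁, hG₁F, hG₁⟩ := exists_bF H (kfin_edge hk) n
    have h1 := inj_le_bF H F hGF
    rw [Nat.card_fin] at h1
    have h2 : inj H G ≤ inj H G₁ := by
      rw [hG₁]
      exact h1.trans (hn₀ n hn)
    rw [inj_eq_aut_mul H G, inj_eq_aut_mul H G₁] at h2
    have h3 := Nat.le_of_mul_le_mul_left h2 (aut_pos H)
    rw [← hG]
    exact h3.trans (kfin_le_ex H hG₁F)
  · obtain ⟨G, hGF, hG⟩ := kfin_exists H (kfin_edge hk) n
    rw [← hG]
    refine kfin_le_ex H fun h => hGF ?_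
    exact (kfin_cont hF).trans h

theorem k_good [Finite α] {H : SimpleGraph α} {k : ℕ} (hk : 2 ≤ k) (hH : H.CliqueFree k) [Finite β]
    {F : SimpleGraph β} {Q : Set β} (hF : KB F Q k) (hχ : F.chromaticNumber = k)
    (hg : WeaklyTuranGood H (⊤ : SimpleGraph (Fin k))) : WeaklyTuranGood H F := by
  obtain ⟨k', hk', n₁, hn₁⟩ := hg
  obtain ⟨n₀, hn₀⟩ := k_ex hk hH hF
  refine ⟨k', ?_, max n₀ n₁, fun n hn => ?_⟩
  · rw [SimpleGraph.chromaticNumber_top, Fintype.card_fin] at hk'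
    rw [hχ, hk']
  · obtain ⟨G, hG, hc⟩ := hn₁ n (le_trans (le_max_right _ _) hn)
    exact ⟨G, hG, by rw [hc, hn₀ n (le_trans (le_max_left _ _) hn)]⟩

end Pool.Agent.WT7
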