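import Pool.Agent.WT7.KGrow
import Pool.Agent.WT7.KEmb
import Pool.Agent.WT7.DegL

/-!
# [WT7-KMain] the theorem for `K_k` with bipartite graphs attached, no isolated vertices in `H`

`a n = bF H K_k n`, `b n = bF H F n`. `k_growth` gives `c`. Let `G` be `F`-free on `n + 1` vertices with `inj H G = b (n+1) > a (n+1)`; so `G` is not `K_k`-free (`inj_le_bF`). If all `dg x ≥ c (n+1)^(h-1)` then by `dg_le` all degrees are at least `(c/h) (n+1)`
(`h ≥ 2`), and `kemb` gives a copy of `F` in `G` for large `n`. So some `x` has `dg x < c (n+1)^(h-1)`, and `bF_step`: `b n ≥ b (n+1) - dg x > b (n+1) - (a (n+1) - a n)`, i.e. `b n - a n ≥ b (n+1) - a (n+1) + 1`. As in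
MainInj.lean (progressive induction) `b n ≤ a n` for all large `n`. (`F` has an edge because `k ≥ 2`: needed for `exists_bF`.)
-/

set_option autoImplicit false

namespace Pool.Agent.WT7

variable {α β V W : Type}

private theorem kmain_step [Finite α] [Nonempty α] {H : SimpleGraph α} {k : ℕ} (hk : 2 ≤ k)
    (hI : NoIso H) [Finite β] {F : SimpleGraph β} {Q : Set β} (hF : KB F Q k) {c : ℝ} (hc : 0 < c) :
    ∃ n₀ : ℕ, ∀ (V : Type) [Finite V], n₀ ≤ Nat.card V → ∀ G : SimpleGraph V, F.Free G →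
      bF H (⊤ : SimpleGraph (Fin k)) (Nat.card V) < inj H G →
        ∃ x, (dg H G x : ℝ) < c * (Nat.card V : ℝ) ^ (Nat.card α - 1) := by
  have hh := two_le_card hI
  have hh0 : (0 : ℝ) < Nat.card α := by exact_mod_cast (by omega : 0 < Nat.card α)
  obtain ⟨n₁, hemb⟩ := kemb (by omega : 1 ≤ k) hF (div_pos hc hh0)
  refine ⟨1 + n₁, ?_⟩
  intro V _ hn G hG ha
  by_contra hcon
  push Not at hcon
  have hV : (0 : ℝ) < Nat.card V := by exact_mod_cast (by omega : 0 < Nat.card V)
  have hdeg : ∀ x, c / Nat.card α * (Nat.card V : ℝ) ≤ ((G.neighborSet x).ncard : ℝ) := by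
    intro x
    have h1 := hcon x
    have h2 : (dg H G x : ℝ) ≤
        Nat.card α * (((G.neighborSet x).ncard : ℝ) * (Nat.card V : ℝ) ^ (Nat.card α - 2)) := by
      exact_mod_cast dg_le hI G x
    have h3 : Nat.card α - 1 = (Nat.card α - 2) + 1 := by omega
    rw [h3, pow_succ] at h1
    have h4 : (0 : ℝ) < (Nat.card V : ℝ) ^ (Nat.card α - 2) := by positivity
    have h5 : c * (Nat.card V : ℝ) * (Nat.card V : ℝ) ^ (Nat.card α - 2) ≤
        Nat.card α * ((G.neighborSet x).ncard : ℝ) * (Nat.card V : ℝ) ^ (Nat.card α - 2) := by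
      nlinarith
    have h6 := le_of_mul_le_mul_right h5 h4
    rw [div_mul_eq_mul_div, div_le_iff₀ hh0]
    linarith
  by_cases hfree : (⊤ : SimpleGraph (Fin k)).Free G
  · exact absurd (inj_le_bF H (⊤ : SimpleGraph (Fin k)) hfree) (by omega)
  · exact hG (hemb V (by omega) G hdeg (SimpleGraph.not_free.1 hfree))

theorem k_main_inj [Finite α] [Nonempty α] {H : SimpleGraph α} {k : ℕ} (hk : 2 ≤ k) (hH : H.CliqueFree k)
    (hI : NoIso H) [Finite β] {F : SimpleGraph β} {Q : Set β} (hF : KB F Q k) :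
    ∃ n₀ : ℕ, ∀ n ≥ n₀, bF H F n ≤ bF H (⊤ : SimpleGraph (Fin k)) n := by
  obtain ⟨c, hc, n₂, hgr⟩ := k_growth hk hH
  obtain ⟨n₁, hstep⟩ := kmain_step (H := H) hk hI hF hc
  have hedge : ∃ a b, F.Adj a b := by
    have h1 : 1 < Q.ncard := by rw [hF.card]; omega
    obtain ⟨x, hx, y, hy, hxy⟩ := (Set.one_lt_ncard (Set.toFinite Q)).1 h1
    exact ⟨x, y, hF.clique x hx y hy hxy⟩
  have hA : ∀ n, n₁ + n₂ ≤ n → bF H (⊤ : SimpleGraph (Fin k)) (n + 1) < bF H F (n + 1) →
      bF H F (n + 1) + bF H (⊤ : SimpleGraph (Fin k)) n <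
        bF H F n + bF H (⊤ : SimpleGraph (Fin k)) (n + 1) := by
    intro n hn hlt
    obtain ⟨G, hG, hGb⟩ := exists_bF H (F := F) hedge (n + 1)
    have hcard : Nat.card (Fin (n + 1)) = n + 1 := Nat.card_fin _
    obtain ⟨x, hx⟩ := hstep (Fin (n + 1)) (by omega) G hG (by rw [hcard, hGb]; exact hlt)
    have h1 := bF_step H hG x
    have h2 := hgr n (by omega)
    rw [hcard, Nat.add_sub_cancel, hGb] at h1
    rw [hcard] at hx
    push_cast at hx
    have h3 : ((bF H F (n + 1) : ℕ) : ℝ) ≤ bF H F n + dg H G x := by exact_mod_cast h1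
    have h4 : ((bF H F (n + 1) + bF H (⊤ : SimpleGraph (Fin k)) n : ℕ) : ℝ) <
        ((bF H F n + bF H (⊤ : SimpleGraph (Fin k)) (n + 1) : ℕ) : ℝ) := by
      push_cast
      linarith
    exact_mod_cast h4
  refine ⟨n₁ + n₂ + bF H F (n₁ + n₂), fun n hn => ?_⟩
  by_contra hcon
  push Not at hcon
  have hB : ∀ d, n₁ + n₂ + d ≤ n →
      bF H (⊤ : SimpleGraph (Fin k)) (n - d) + d + 1 ≤ bF H F (n - d) := by
    intro d
    induction d with
    | zero =>
      intro _
      rw [Nat.sub_zero]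
      omega
    | succ d ih =>
      intro hd
      have h1 := ih (by omega)
      have h2 : n - d = n - (d + 1) + 1 := by omega
      rw [h2] at h1
      have h3 := hA (n - (d + 1)) (by omega) (by omega)
      omega
  have h1 := hB (n - (n₁ + n₂)) (by omega)
  have h2 : n - (n - (n₁ + n₂)) = n₁ + n₂ := by omega
  rw [h2] at h1
  omega

end Pool.Agent.WT7
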