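import Pool.Agent.WT7.Loss

/-!
# [WT7-Low] lower bound for `D`

`n = |V|`. `H` bipartite, `χ : α → Bool` a proper colouring (`hH : H.Colorable 2`), `x₀ : α` with a neighbour (`NoIso`), say `χ x₀ = true`. `a` = number of the points of colour `false` (`≥ 1`), `b` = number of the points
`≠ x₀` of colour `true`, `a + b = h - 1`.
Let `M` be the set of all maps `f` from `{x // x ≠ x₀}` to `V` with `f y ∈ I` for `y` of colour `false`, and `G.Adj (f y) (f z)` for all `y` of colour `false`, `z ≠ x₀` of colour `true`. An injective `f ∈ M`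
gives a map counted by `D H G I` (`x₀ ↦ none`, `x ↦ some (f x)`), injectively; at most `h² n^(h-2)` maps are not injective.
`|M| ≥ ρ^a c₀^(a b) n^(h-1)`: `M` corresponds to the pairs (`g` : points of colour `true`, `≠ x₀` `→ V`; `f' :` points of colour `false` `→ I ∩ ⋂_z N(g z)`), so `|M| = ∑_g k(g)^a`, `k(g) = |{y ∈ I | ∀ z, G.Adj y (g z)}|`;
`∑_g k(g) = ∑_{y ∈ I} deg(y)^b ≥ ρ n (c₀ n)^b`, there are `n^b` maps `g`, so by convexity (`inner_le_nnorm_mul_nnorm`, in Mathlib: `inner_le..`, best: `Finset.inner_mul_le..`; use `Real.pow_sum_div_card_le_sum_pow` or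
`pow_arith_mean_le_arith_mean_pow`) `∑_g k(g)^a ≥ n^b (ρ c₀^b n)^a`.
So `D H G I ≥ ρ^a c₀^(ab) n^(h-1) - h² n^(h-2) ≥ c n^(h-1)` with `c = ρ^a c₀^(ab) / 2`, `n` large. (If `h = 2`: `a = 1, b = 0`, all maps are injective.)
-/

set_option autoImplicit false

namespace Pool.Agent.WT7

variable {α β V W : Type}

/-- the maps counted in the lower bound -/
private def LowM (χ : α → Bool) (x₀ : α) (G : SimpleGraph V) (I : Set V) : Set ({x // x ≠ x₀} → V) :=
  {f | (∀ y, χ y.1 = false → f y ∈ I) ∧ ∀ y z, χ y.1 = false → χ z.1 = true → G.Adj (f y) (f z)}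

private lemma low_noninj [Finite α] [Finite V] (x₀ : α) (G : SimpleGraph V) :
    (({f : {x // x ≠ x₀} → V | ¬ Function.Injective f}.ncard : ℕ)) ≤
      (Nat.card α - 1) ^ 2 * Nat.card V ^ (Nat.card α - 1 - 1) := by
  classical
  have := Fintype.ofFinite α
  have := Fintype.ofFinite V
  have hcard : Nat.card {x // x ≠ x₀} = Nat.card α - 1 := by
    rw [Nat.card_eq_fintype_card, Nat.card_eq_fintype_card, Fintype.card_subtype_compl,
      Fintype.card_subtype_eq]
  have h1 := hom_le_inj_add (⊥ : SimpleGraph {x // x ≠ x₀}) G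
  rw [hcard] at h1
  have h2 : hom (⊥ : SimpleGraph {x // x ≠ x₀}) G = (Set.univ : Set ({x // x ≠ x₀} → V)).ncard := by
    unfold hom
    congr 1
    ext f
    simp [IsHom]
  have h3 : inj (⊥ : SimpleGraph {x // x ≠ x₀}) G =
      {f : {x // x ≠ x₀} → V | Function.Injective f}.ncard := by
    unfold inj
    congr 1
    ext f
    simp [IsInj, IsHom]
  have h4 : (Set.univ : Set ({x // x ≠ x₀} → V)).ncard =
      {f : {x // x ≠ x₀} → V | Function.Injective f}.ncard +
        {f : {x // x ≠ x₀} → V | ¬ Function.Injective f}.ncard := by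
    rw [← Set.ncard_union_eq]
    · congr 1
      ext f
      simp [em]
    · rw [Set.disjoint_left]
      intro f hf hf'
      exact hf' hf
  rw [h2, h3, h4] at h1
  omega

private lemma low_le_D [Finite α] [Finite V] {H : SimpleGraph α} (χ : α → Bool)
    (hχ : ∀ x y, H.Adj x y → χ x ≠ χ y) (x₀ : α) (h₀ : χ x₀ = true) (G : SimpleGraph V)
    (I : Set V) : (LowM χ x₀ G I ∩ {f | Function.Injective f}).ncard ≤ D H G I := by
  classical
  unfold D
  refine Set.ncard_le_ncard_of_injOn
    (fun f x => if h : x = x₀ then none else some (f ⟨x, h⟩)) ?_ ?_ (Set.toFinite _)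
  · rintro f ⟨⟨h1, h2⟩, h3⟩
    have h3' : Function.Injective f := h3
    refine ⟨⟨?_, ?_⟩, x₀, by simp⟩
    · intro x y hxy
      simp only at hxy
      by_cases hx : x = x₀ <;> by_cases hy : y = x₀
      · rw [hx, hy]
      · simp [hx, hy] at hxy
      · simp [hx, hy] at hxy
      · simp only [hx, hy, dite_false, Option.some.injEq] at hxy
        have := h3' hxy
        exact congrArg Subtype.val this
    · intro x y hxy
      have hne := hχ x y hxy
      by_cases hx : x = x₀ <;> by_cases hy : y = x₀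
      · rw [hx, hy] at hxy
        exact absurd hxy (H.loopless.irrefl _)
      · simp only [hx, hy, dite_true, dite_false]
        show f ⟨y, hy⟩ ∈ I
        refine h1 ⟨y, hy⟩ ?_
        rw [hx, h₀] at hne
        simpa using hne.symm
      · simp only [hx, hy, dite_true, dite_false]
        show f ⟨x, hx⟩ ∈ I
        refine h1 ⟨x, hx⟩ ?_
        rw [hy, h₀] at hne
        simpa using hne
      · simp only [hx, hy, dite_false]
        show G.Adj (f ⟨x, hx⟩) (f ⟨y, hy⟩)
        rcases hcx : χ x with _ | _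
        · refine h2 ⟨x, hx⟩ ⟨y, hy⟩ hcx ?_
          rw [hcx] at hne
          simpa using hne.symm
        · refine (h2 ⟨y, hy⟩ ⟨x, hx⟩ ?_ hcx).symm
          rw [hcx] at hne
          simpa using hne.symm
  · intro f _ g _ hfg
    funext x
    have := congrFun hfg x.1
    simp only [x.2, dite_false, Option.some.injEq] at this
    exact this

private lemma low_count [Fintype α] [DecidableEq α] [Fintype V] (χ : α → Bool) (x₀ : α)
    (G : SimpleGraph V) (I : Set V) {ρ c₀ : ℝ} (hρ : 0 < ρ) (hc₀ : 0 < c₀)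
    (ha : 0 < Fintype.card {x : {x // x ≠ x₀} // χ x.1 = false})
    (hV : 0 < Fintype.card V)
    (hdeg : ∀ x, c₀ * (Nat.card V : ℝ) ≤ ((G.neighborSet x).ncard : ℝ))
    (hI : ρ * (Nat.card V : ℝ) ≤ (I.ncard : ℝ)) :
    ρ ^ Fintype.card {x : {x // x ≠ x₀} // χ x.1 = false} *
      c₀ ^ (Fintype.card {x : {x // x ≠ x₀} // χ x.1 = false} *
        Fintype.card {x : {x // x ≠ x₀} // ¬ χ x.1 = false}) *
      (Nat.card V : ℝ) ^ (Fintype.card {x // x ≠ x₀}) ≤ ((LowM χ x₀ G I).ncard : ℝ) := by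
  classical
  set A := {x : {x // x ≠ x₀} // χ x.1 = false} with hA
  set B := {x : {x // x ≠ x₀} // ¬ χ x.1 = false} with hB
  set n : ℝ := (Nat.card V : ℝ) with hn
  have hn' : n = (Fintype.card V : ℝ) := by rw [hn, Nat.card_eq_fintype_card]
  have hn0 : 0 < n := by rw [hn']; exact_mod_cast hV
  -- the fibres
  let K : (B → V) → Finset V := fun g => Finset.univ.filter (fun y => y ∈ I ∧ ∀ z, G.Adj y (g z))
  have e1 : (∑ g : B → V, ((K g).card : ℝ) ^ Fintype.card A) ≤ ((LowM χ x₀ G I).ncard : ℝ) := by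
    have : (∑ g : B → V, (K g).card ^ Fintype.card A) = Fintype.card (Σ g : B → V, (A → K g)) := by
      rw [Fintype.card_sigma]
      refine Finset.sum_congr rfl fun g _ => ?_
      rw [Fintype.card_fun, Fintype.card_coe]
    have h2 : Fintype.card (Σ g : B → V, (A → K g)) ≤ (LowM χ x₀ G I).ncard := by
      rw [← Nat.card_eq_fintype_card, ← Nat.card_coe_set_eq]
      refine Nat.card_le_card_of_injective
        (fun p : (Σ g : B → V, (A → K g)) =>
          (⟨fun x => if h : χ x.1 = false then (p.2 ⟨x, h⟩ : V) else p.1 ⟨x, h⟩, ?_⟩ :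
            LowM χ x₀ G I)) ?_
      · refine ⟨?_, ?_⟩
        · intro y hy
          simp only [hy, dite_true]
          exact (Finset.mem_filter.1 (p.2 ⟨y, hy⟩).2).2.1
        · intro y z hy hz
          have hz' : ¬ χ z.1 = false := by rw [hz]; simp
          simp only [hy, hz', dite_true]
          exact (Finset.mem_filter.1 (p.2 ⟨y, hy⟩).2).2.2 ⟨z, hz'⟩
      · rintro ⟨g, f⟩ ⟨g', f'⟩ h
        have h' := congrArg Subtype.val h
        simp only at h'
        have hg : g = g' := by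
          funext z
          have := congrFun h' z.1
          simpa [z.2] using this
        subst hg
        congr 1
        funext y
        have := congrFun h' y.1
        simp only [y.2, dite_true] at this
        exact Subtype.ext this
    calc (∑ g : B → V, ((K g).card : ℝ) ^ Fintype.card A)
        = ((∑ g : B → V, (K g).card ^ Fintype.card A : ℕ) : ℝ) := by push_cast; rfl
      _ ≤ _ := by rw [this]; exact_mod_cast h2
  have e2 : ρ * n * (c₀ * n) ^ Fintype.card B ≤ ∑ g : B → V, ((K g).card : ℝ) := by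
    have h1 : (∑ g : B → V, ((K g).card : ℝ)) =
        ∑ y ∈ Finset.univ.filter (fun y => y ∈ I), (((G.neighborSet y).ncard : ℝ)) ^ Fintype.card B := by
      have h2 : ∀ g : B → V, ((K g).card : ℝ) =
          ∑ y ∈ Finset.univ.filter (fun y => y ∈ I), if ∀ z, G.Adj y (g z) then (1 : ℝ) else 0 := by
        intro g
        rw [Finset.sum_boole, Finset.filter_filter]
      simp only [h2]
      rw [Finset.sum_comm]
      refine Finset.sum_congr rfl fun y _ => ?_
      rw [Finset.sum_boole]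
      have h3 : (Finset.univ.filter (fun g : B → V => ∀ z, G.Adj y (g z))) =
          Fintype.piFinset (fun _ : B => (G.neighborSet y).toFinset) := by
        ext g
        simp [Fintype.mem_piFinset]
      rw [h3, Fintype.card_piFinset, Finset.prod_const, Finset.card_univ,
        ← Set.ncard_eq_toFinset_card']
      push_cast
      rfl
    rw [h1]
    have h4 : ∀ y ∈ Finset.univ.filter (fun y => y ∈ I),
        (c₀ * n) ^ Fintype.card B ≤ (((G.neighborSet y).ncard : ℝ)) ^ Fintype.card B :=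
      fun y _ => pow_le_pow_left₀ (by positivity) (hdeg y) _
    refine le_trans ?_ (Finset.sum_le_sum h4)
    rw [Finset.sum_const, nsmul_eq_mul]
    refine mul_le_mul_of_nonneg_right ?_ (by positivity)
    refine hI.trans (le_of_eq ?_)
    rw [Set.ncard_eq_toFinset_card']
    congr 2
    ext y
    simp
  obtain ⟨a, ha'⟩ : ∃ a, Fintype.card A = a + 1 := Nat.exists_eq_succ_of_ne_zero ha.ne'
  have e3 := pow_sum_div_card_le_sum_pow (s := (Finset.univ : Finset (B → V)))
    (f := fun g => ((K g).card : ℝ)) (n := a) (fun g _ => by positivity)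
  have hcB : ((Finset.univ : Finset (B → V)).card : ℝ) = n ^ Fintype.card B := by
    rw [Finset.card_univ, Fintype.card_fun, hn']
    push_cast
    rfl
  rw [hcB] at e3
  refine le_trans ?_ e1
  rw [ha']
  refine le_trans ?_ e3
  rw [le_div_iff₀ (by positivity)]
  have e4 : (ρ * n * (c₀ * n) ^ Fintype.card B) ^ (a + 1) ≤
      (∑ g : B → V, ((K g).card : ℝ)) ^ (a + 1) := pow_le_pow_left₀ (by positivity) e2 _
  refine le_trans (le_of_eq ?_) e4
  have hsum : Fintype.card {x // x ≠ x₀} = (a + 1) + Fintype.card B := by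
    rw [← ha']
    rw [← Fintype.card_sum]
    exact Fintype.card_congr (Equiv.sumCompl (fun x : {x // x ≠ x₀} => χ x.1 = false)).symm
  rw [hsum]
  rw [mul_pow, mul_pow, mul_pow, mul_pow]
  ring

theorem D_lower [Finite α] [Nonempty α] {H : SimpleGraph α} (hH : H.Colorable 2) (hI : NoIso H) {ρ c₀ : ℝ}
    (hρ : 0 < ρ) (hc₀ : 0 < c₀) : ∃ c : ℝ, 0 < c ∧ ∃ n₀ : ℕ, ∀ (V : Type) [Finite V], n₀ ≤ Nat.card V →
      ∀ (G : SimpleGraph V) (I : Set V), (∀ x, c₀ * (Nat.card V : ℝ) ≤ ((G.neighborSet x).ncard : ℝ)) →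
        ρ * (Nat.card V : ℝ) ≤ (I.ncard : ℝ) → c * (Nat.card V : ℝ) ^ (Nat.card α - 1) ≤ D H G I := by
  classical
  have := Fintype.ofFinite α
  obtain ⟨x₀⟩ := (inferInstance : Nonempty α)
  obtain ⟨χ, hχ, h₀⟩ : ∃ χ : α → Bool, (∀ x y, H.Adj x y → χ x ≠ χ y) ∧ χ x₀ = true := by
    obtain ⟨C⟩ := hH
    refine ⟨fun x => decide (C x = C x₀), fun x y hxy h => ?_, by simp⟩
    have hne := C.valid hxy
    have h' : (C x = C x₀ ↔ C y = C x₀) := by
      simpa using h
    have hx : (C x : ℕ) < 2 := (C x).2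
    have hy : (C y : ℕ) < 2 := (C y).2
    have h0 : (C x₀ : ℕ) < 2 := (C x₀).2
    rw [Fin.ext_iff, Fin.ext_iff] at h'
    rw [Ne, Fin.ext_iff] at hne
    omega
  obtain ⟨y₀, hy₀⟩ := hI x₀
  have hyx : y₀ ≠ x₀ := fun h => H.loopless.irrefl _ (h ▸ hy₀)
  have hyc : χ y₀ = false := by
    have := hχ _ _ hy₀
    rw [h₀] at this
    simpa using this.symm
  have ha : 0 < Fintype.card {x : {x // x ≠ x₀} // χ x.1 = false} :=
    Fintype.card_pos_iff.2 ⟨⟨⟨y₀, hyx⟩, hyc⟩⟩
  set C := ρ ^ Fintype.card {x : {x // x ≠ x₀} // χ x.1 = false} *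
      c₀ ^ (Fintype.card {x : {x // x ≠ x₀} // χ x.1 = false} *
        Fintype.card {x : {x // x ≠ x₀} // ¬ χ x.1 = false}) with hC
  have hC0 : 0 < C := by positivity
  obtain ⟨N, hN⟩ := exists_nat_gt (2 * ((Nat.card α - 1 : ℕ) : ℝ) ^ 2 / C)
  refine ⟨C / 2, by positivity, N + 1, ?_⟩
  intro V _ hV G I hdeg hIc
  have := Fintype.ofFinite V
  have hVpos : 0 < Fintype.card V := by
    rw [← Nat.card_eq_fintype_card]; omega
  have hcount := low_count χ x₀ G I hρ hc₀ ha hVpos hdeg hIc
  rw [← hC] at hcount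
  have hle := low_le_D (H := H) χ hχ x₀ h₀ G I
  have hnon := low_noninj (V := V) x₀ G
  have hcardα : Fintype.card {x // x ≠ x₀} = Nat.card α - 1 := by
    rw [Nat.card_eq_fintype_card, Fintype.card_subtype_compl, Fintype.card_subtype_eq]
  rw [hcardα] at hcount
  have hsplit : (LowM χ x₀ G I).ncard ≤ D H G I +
      (Nat.card α - 1) ^ 2 * Nat.card V ^ (Nat.card α - 1 - 1) := by
    have h1 : LowM χ x₀ G I ⊆ (LowM χ x₀ G I ∩ {f | Function.Injective f}) ∪
        {f : {x // x ≠ x₀} → V | ¬ Function.Injective f} := by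
      intro f hf
      by_cases h : Function.Injective f
      · exact Or.inl ⟨hf, h⟩
      · exact Or.inr h
    refine (Set.ncard_le_ncard h1 (Set.toFinite _)).trans ((Set.ncard_union_le _ _).trans ?_)
    exact add_le_add hle hnon
  have hsplit' : ((LowM χ x₀ G I).ncard : ℝ) ≤ (D H G I : ℝ) +
      ((Nat.card α - 1 : ℕ) : ℝ) ^ 2 * (Nat.card V : ℝ) ^ (Nat.card α - 1 - 1) := by
    exact_mod_cast hsplit
  have hα : 1 ≤ Nat.card α - 1 := by
    rw [← hcardα]
    exact Fintype.card_pos_iff.2 ⟨⟨y₀, hyx⟩⟩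
  obtain ⟨m, hm⟩ : ∃ m, Nat.card α - 1 = m + 1 := ⟨Nat.card α - 1 - 1, by omega⟩
  rw [hm] at hcount hsplit' hN ⊢
  rw [show m + 1 - 1 = m by omega] at hsplit'
  have hnN : ((N : ℝ) + 1) ≤ (Nat.card V : ℝ) := by exact_mod_cast hV
  have hn0 : 0 < (Nat.card V : ℝ) := by
    have : (0 : ℝ) ≤ N := Nat.cast_nonneg N
    linarith
  have hkey : ((m + 1 : ℕ) : ℝ) ^ 2 ≤ C / 2 * (Nat.card V : ℝ) := by
    rw [div_lt_iff₀ hC0] at hN
    nlinarith
  have h5 := mul_le_mul_of_nonneg_right hkey (pow_nonneg hn0.le m)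
  have h6 : C * (Nat.card V : ℝ) ^ (m + 1) = C / 2 * (Nat.card V : ℝ) ^ (m + 1) +
      C / 2 * (Nat.card V : ℝ) * (Nat.card V : ℝ) ^ m := by ring
  rw [h6] at hcount
  linarith

end Pool.Agent.WT7
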