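import Pool.Agent.WT7.Star
import Pool.Agent.WT7.Low
import Pool.Agent.WT7.DegL
import Pool.Agent.WT7.ExtM

/-!
# [WT7-PropP] almost all `y ∉ N(u)` have many neighbours in `N(u)`

`n = |V|`, `N = n^(h-1)`, `c₀ = π / 2`. First (dg_le) all degrees are `≥ c₀ n` if `ε ≤ π` (`π h - ε ≥ π h / 2` as `h ≥ 2`).
Choose in this order: `c₁ = c(ρ)` from `D_lower` (with `c₀`), `τ₁ = τ(c₁ / 2)` from `star`, `ρ' = min(τ₁ / 4, ρ)`, `c₂ = c(ρ')`, `τ₂ = τ(c₂ / 2)` from `star`, `ε = min(c₁, c₂, π) / 4`,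
`δ = τ = min(τ₁, τ₂) / 8`, `n₀` large.
Let `Zu = Z G u (δ n)` have more than `ρ n` elements.
Case 1: some `y₀` has `|N(y₀) ∩ Zu| ≥ ρ' n`. `I = N(y₀) ∩ Zu`. `pe G I I ≤ pe G N(y₀) N(y₀) ≤ τ n²`. `S = N(u)`, `A = S ∪ I`: `pe G A A ≤ pe G S S + pe G I I + 2 pe G I S ≤ τ n² + τ n² + 2 δ n² ≤ τ₂ n²` (each `y ∈ I` has less than `δ n`
neighbours in `S`). `star`: `D A ≤ (π h + c₂ / 2) N`. `D A ≥ D S + D I ≥ dg u + D I ≥ (π h - ε) N + c₂ N` (`D_add_le`, `dg_le_D`, `D_lower`; `S ∩ I = ∅`). Contradiction, as `ε ≤ c₂ / 4`.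
Case 2: no such `y₀`; `I = Zu`: `pe G I I ≤ n * ρ' n ≤ τ₁ n² / 4`, `pe G A A ≤ τ n² + τ₁ n² / 4 + 2 δ n² ≤ τ₁ n²`; the same contradiction with `c₁`.
-/

set_option autoImplicit false

namespace Pool.Agent.WT7

variable {α β V W : Type}

private theorem pp_pe_le [Finite V] (G : SimpleGraph V) (A B : Set V) {d : ℝ} (hd : 0 ≤ d)
    (h : ∀ y ∈ A, ((G.neighborSet y ∩ B).ncard : ℝ) ≤ d) : (pe G A B : ℝ) ≤ (Nat.card V : ℝ) * d := by
  classical
  haveI := Fintype.ofFinite V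
  unfold pe
  set S : Set (V × V) := {p : V × V | p.1 ∈ A ∧ p.2 ∈ B ∧ G.Adj p.1 p.2} with hS
  rw [Set.ncard_eq_toFinset_card' S]
  rw [Finset.card_eq_sum_card_fiberwise (f := Prod.fst) (t := (Finset.univ : Finset V))
    (fun x _ => Finset.mem_coe.2 (Finset.mem_univ _))]
  push_cast
  have hle : ∀ y ∈ (Finset.univ : Finset V),
      (((S.toFinset.filter (fun p => p.1 = y)).card : ℕ) : ℝ) ≤ d := by
    intro y _
    by_cases hy : y ∈ A
    · refine le_trans ?_ (h y hy)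
      have h1 : (S.toFinset.filter (fun p => p.1 = y)).card ≤ (G.neighborSet y ∩ B).toFinset.card := by
        refine Finset.card_le_card_of_injOn Prod.snd ?_ ?_
        · intro p hp
          simp only [Finset.coe_filter, Set.mem_toFinset, Set.mem_setOf_eq, hS] at hp
          simp only [Set.coe_toFinset, Set.mem_inter_iff, SimpleGraph.mem_neighborSet]
          obtain ⟨⟨_, h2, h3⟩, h4⟩ := hp
          rw [h4] at h3
          exact ⟨h3, h2⟩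
        · intro p hp q hq hpq
          simp only [Finset.coe_filter, Set.mem_toFinset, Set.mem_setOf_eq] at hp hq
          exact Prod.ext (hp.2.trans hq.2.symm) hpq
      rw [← Set.ncard_eq_toFinset_card'] at h1
      exact_mod_cast h1
    · have h1 : (S.toFinset.filter (fun p => p.1 = y)) = ∅ := by
        rw [Finset.filter_eq_empty_iff]
        intro p hp hpy
        rw [Set.mem_toFinset] at hp
        exact hy (hpy ▸ hp.1)
      rw [h1]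
      simpa using hd
  refine (Finset.sum_le_sum hle).trans ?_
  rw [Finset.sum_const, nsmul_eq_mul, Finset.card_univ, Nat.card_eq_fintype_card]

private theorem pp_pe_mono [Finite V] (G : SimpleGraph V) {A B A' B' : Set V} (h1 : A ⊆ A') (h2 : B ⊆ B') :
    pe G A B ≤ pe G A' B' := by
  unfold pe
  refine Set.ncard_le_ncard ?_ (Set.toFinite _)
  rintro p ⟨h3, h4, h5⟩
  exact ⟨h1 h3, h2 h4, h5⟩

private theorem pp_pe_comm [Finite V] (G : SimpleGraph V) (A B : Set V) : pe G A B ≤ pe G B A := by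
  unfold pe
  refine Set.ncard_le_ncard_of_injOn Prod.swap ?_ (Prod.swap_injective.injOn) (Set.toFinite _)
  rintro p ⟨h3, h4, h5⟩
  exact ⟨h4, h3, h5.symm⟩

private theorem pp_pe_union [Finite V] (G : SimpleGraph V) (S I : Set V) :
    pe G (S ∪ I) (S ∪ I) ≤ pe G S S + pe G I I + 2 * pe G I S := by
  have h1 : pe G (S ∪ I) (S ∪ I) ≤ (pe G S S + pe G I I) + (pe G S I + pe G I S) := by
    unfold pe
    refine le_trans (Set.ncard_le_ncard (t := ({p : V × V | p.1 ∈ S ∧ p.2 ∈ S ∧ G.Adj p.1 p.2} ∪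
      {p : V × V | p.1 ∈ I ∧ p.2 ∈ I ∧ G.Adj p.1 p.2}) ∪ ({p : V × V | p.1 ∈ S ∧ p.2 ∈ I ∧ G.Adj p.1 p.2} ∪
      {p : V × V | p.1 ∈ I ∧ p.2 ∈ S ∧ G.Adj p.1 p.2})) ?_ (Set.toFinite _)) ?_
    · rintro p ⟨h3 | h3, h4 | h4, h5⟩
      · exact Or.inl (Or.inl ⟨h3, h4, h5⟩)
      · exact Or.inr (Or.inl ⟨h3, h4, h5⟩)
      · exact Or.inr (Or.inr ⟨h3, h4, h5⟩)
      · exact Or.inl (Or.inr ⟨h3, h4, h5⟩)
    · refine (Set.ncard_union_le _ _).trans ?_
      exact Nat.add_le_add (Set.ncard_union_le _ _) (Set.ncard_union_le _ _)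
  have h2 := pp_pe_comm G S I
  omega

private theorem pp_deg [Finite α] [Nonempty α] {H : SimpleGraph α} (hI : NoIso H) (hπ : 0 < pi3 H) {ε : ℝ} (hε : ε ≤ pi3 H)
    [Finite V] (G : SimpleGraph V) (x : V)
    (hx : (pi3 H * Nat.card α - ε) * (Nat.card V : ℝ) ^ (Nat.card α - 1) ≤ dg H G x) :
    pi3 H / 2 * (Nat.card V : ℝ) ≤ ((G.neighborSet x).ncard : ℝ) := by
  have h2 := two_le_card hI
  haveI : Nonempty V := ⟨x⟩
  have hn : (0 : ℝ) < (Nat.card V : ℝ) := by exact_mod_cast Nat.card_pos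
  have h3 : (dg H G x : ℝ) ≤ Nat.card α * (((G.neighborSet x).ncard : ℝ) * (Nat.card V : ℝ) ^ (Nat.card α - 2)) := by
    exact_mod_cast dg_le hI G x
  have h4 : (Nat.card V : ℝ) ^ (Nat.card α - 1) = (Nat.card V : ℝ) ^ (Nat.card α - 2) * (Nat.card V : ℝ) := by
    rw [← pow_succ]
    congr 1
    omega
  rw [h4] at hx
  have hh : (2 : ℝ) ≤ Nat.card α := by exact_mod_cast h2
  have hp : (0 : ℝ) < (Nat.card V : ℝ) ^ (Nat.card α - 2) := pow_pos hn _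
  have h5 : pi3 H / 2 * Nat.card α ≤ pi3 H * Nat.card α - ε := by nlinarith
  have h6 : (pi3 H / 2 * Nat.card α) * ((Nat.card V : ℝ) ^ (Nat.card α - 2) * (Nat.card V : ℝ)) ≤
      Nat.card α * (((G.neighborSet x).ncard : ℝ) * (Nat.card V : ℝ) ^ (Nat.card α - 2)) :=
    le_trans (le_trans (mul_le_mul_of_nonneg_right h5 (by positivity)) hx) h3
  have h7 : (Nat.card α : ℝ) * (Nat.card V : ℝ) ^ (Nat.card α - 2) * (pi3 H / 2 * (Nat.card V : ℝ)) ≤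
      (Nat.card α : ℝ) * (Nat.card V : ℝ) ^ (Nat.card α - 2) * ((G.neighborSet x).ncard : ℝ) := by
    calc _ = (pi3 H / 2 * Nat.card α) * ((Nat.card V : ℝ) ^ (Nat.card α - 2) * (Nat.card V : ℝ)) := by ring
      _ ≤ _ := h6
      _ = _ := by ring
  exact le_of_mul_le_mul_left h7 (by positivity)

/-- the contradiction -/
private theorem pp_contra [Finite α] [Nonempty α] {H : SimpleGraph α} (hI : NoIso H) [Finite V] (G : SimpleGraph V)
    (u : V) (I : Set V) (hd : Disjoint (G.neighborSet u) I) {ε c : ℝ} (hc : 0 < c) (hεc : ε ≤ c / 4)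
    (hu : (pi3 H * Nat.card α - ε) * (Nat.card V : ℝ) ^ (Nat.card α - 1) ≤ dg H G u)
    (hDI : c * (Nat.card V : ℝ) ^ (Nat.card α - 1) ≤ D H G I)
    (hst : (D H G (G.neighborSet u ∪ I) : ℝ) ≤
      (pi3 H * Nat.card α + c / 2) * (Nat.card V : ℝ) ^ (Nat.card α - 1)) : False := by
  haveI : Nonempty V := ⟨u⟩
  have hn : (0 : ℝ) < (Nat.card V : ℝ) := by exact_mod_cast Nat.card_pos
  have hp : (0 : ℝ) < (Nat.card V : ℝ) ^ (Nat.card α - 1) := pow_pos hn _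
  have h1 : (D H G (G.neighborSet u) : ℝ) + D H G I ≤ D H G (G.neighborSet u ∪ I) := by
    exact_mod_cast D_add_le hI G hd
  have h2 : (dg H G u : ℝ) ≤ D H G (G.neighborSet u) := by exact_mod_cast dg_le_D H G u
  nlinarith

theorem propP [Finite α] [Nonempty α] {H : SimpleGraph α} (hH : H.Colorable 2) (hI : NoIso H) (hπ : 0 < pi3 H)
    {ρ : ℝ} (hρ : 0 < ρ) : ∃ ε : ℝ, 0 < ε ∧ ε ≤ pi3 H ∧ ∃ δ : ℝ, 0 < δ ∧ ∃ τ : ℝ, 0 < τ ∧ ∃ n₀ : ℕ,
      ∀ (V : Type) [Finite V], n₀ ≤ Nat.card V → ∀ G G' : SimpleGraph V,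
        G' ≤ G → G'.CliqueFree 3 → (df G G' : ℝ) ≤ τ * (Nat.card V : ℝ) ^ 2 →
        (∀ x, (pe G (G.neighborSet x) (G.neighborSet x) : ℝ) ≤ τ * (Nat.card V : ℝ) ^ 2) →
        (pi3 H - τ) * (Nat.card V : ℝ) ^ Nat.card α ≤ inj H G →
        (∀ x, (pi3 H * Nat.card α - ε) * (Nat.card V : ℝ) ^ (Nat.card α - 1) ≤ dg H G x) →
        ∀ u, ((Z G u (δ * Nat.card V)).ncard : ℝ) ≤ ρ * Nat.card V := by
  have h2 := two_le_card hI
  have hc0 : 0 < pi3 H / 2 := by linarith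
  obtain ⟨c₁, hc₁, n₁, hlow₁⟩ := D_lower hH hI hρ hc0
  obtain ⟨τ₁, hτ₁, n₂, hstar₁⟩ := star h2 H (ε := c₁ / 2) (by linarith)
  have hρ' : 0 < min (τ₁ / 4) ρ := lt_min (by linarith) hρ
  obtain ⟨c₂, hc₂, n₃, hlow₂⟩ := D_lower hH hI hρ' hc0
  obtain ⟨τ₂, hτ₂, n₄, hstar₂⟩ := star h2 H (ε := c₂ / 2) (by linarith)
  set ρ' := min (τ₁ / 4) ρ with hρdef
  set ε := min c₁ (min c₂ (pi3 H)) / 4 with hεdef
  set τ := min τ₁ τ₂ / 8 with hτdef
  have hε0 : 0 < ε := by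
    have : 0 < min c₁ (min c₂ (pi3 H)) := lt_min hc₁ (lt_min hc₂ hπ)
    linarith
  have hε1 : ε ≤ c₁ / 4 := by
    have : min c₁ (min c₂ (pi3 H)) ≤ c₁ := min_le_left _ _
    linarith
  have hε2 : ε ≤ c₂ / 4 := by
    have : min c₁ (min c₂ (pi3 H)) ≤ c₂ := (min_le_right _ _).trans (min_le_left _ _)
    linarith
  have hε3 : ε ≤ pi3 H := by
    have : min c₁ (min c₂ (pi3 H)) ≤ pi3 H := (min_le_right _ _).trans (min_le_right _ _)
    linarith
  have hτ0 : 0 < τ := by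
    have : 0 < min τ₁ τ₂ := lt_min hτ₁ hτ₂
    linarith
  have hτ1 : τ ≤ τ₁ / 8 := by
    have : min τ₁ τ₂ ≤ τ₁ := min_le_left _ _
    linarith
  have hτ2 : τ ≤ τ₂ / 8 := by
    have : min τ₁ τ₂ ≤ τ₂ := min_le_right _ _
    linarith
  refine ⟨ε, hε0, hε3, τ, hτ0, τ, hτ0, max (max n₁ n₂) (max n₃ n₄), ?_⟩
  intro V _ hn G G' hle hcf hdf hpe hinj hdg u
  have hn1 : n₁ ≤ Nat.card V := ((le_max_left _ _).trans (le_max_left _ _)).trans hn
  have hn2 : n₂ ≤ Nat.card V := ((le_max_right _ _).trans (le_max_left _ _)).trans hn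
  have hn3 : n₃ ≤ Nat.card V := ((le_max_left _ _).trans (le_max_right _ _)).trans hn
  have hn4 : n₄ ≤ Nat.card V := ((le_max_right _ _).trans (le_max_right _ _)).trans hn
  have hdeg : ∀ x, pi3 H / 2 * (Nat.card V : ℝ) ≤ ((G.neighborSet x).ncard : ℝ) :=
    fun x => pp_deg hI hπ hε3 G x (hdg x)
  have hsq : (0 : ℝ) ≤ (Nat.card V : ℝ) ^ 2 := sq_nonneg _
  have hpw : (0 : ℝ) ≤ (Nat.card V : ℝ) ^ Nat.card α := by positivity
  have hst : ∀ {c τ' : ℝ} {n' : ℕ}, n' ≤ Nat.card V → τ ≤ τ' / 8 → 0 < τ' →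
      (∀ (V : Type) [Finite V], n' ≤ Nat.card V → ∀ (G G' : SimpleGraph V) (A : Set V),
      G' ≤ G → G'.CliqueFree 3 → (df G G' : ℝ) ≤ τ' * (Nat.card V : ℝ) ^ 2 →
      (pi3 H - τ') * (Nat.card V : ℝ) ^ Nat.card α ≤ inj H G → (pe G A A : ℝ) ≤ τ' * (Nat.card V : ℝ) ^ 2 →
      (D H G A : ℝ) ≤ (pi3 H * Nat.card α + c / 2) * (Nat.card V : ℝ) ^ (Nat.card α - 1)) →
      ∀ I : Set V, I ⊆ Z G u (τ * Nat.card V) → (pe G I I : ℝ) ≤ τ' / 4 * (Nat.card V : ℝ) ^ 2 →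
      (D H G (G.neighborSet u ∪ I) : ℝ) ≤
        (pi3 H * Nat.card α + c / 2) * (Nat.card V : ℝ) ^ (Nat.card α - 1) := by
    intro c τ' n' hn' hττ hτ' hs I hIZ hII
    have h3 : (pe G I (G.neighborSet u) : ℝ) ≤ (Nat.card V : ℝ) * (τ * Nat.card V) := by
      refine pp_pe_le G I _ (by positivity) ?_
      intro y hy
      exact (hIZ hy).2.le
    have h4 : (pe G (G.neighborSet u ∪ I) (G.neighborSet u ∪ I) : ℝ) ≤
        pe G (G.neighborSet u) (G.neighborSet u) + pe G I I + 2 * pe G I (G.neighborSet u) := by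
      exact_mod_cast pp_pe_union G (G.neighborSet u) I
    have h5 := hpe u
    have h6 : τ * (Nat.card V : ℝ) ^ 2 ≤ τ' / 8 * (Nat.card V : ℝ) ^ 2 := mul_le_mul_of_nonneg_right hττ hsq
    have h7 : τ' / 8 * (Nat.card V : ℝ) ^ 2 ≤ τ' * (Nat.card V : ℝ) ^ 2 :=
      mul_le_mul_of_nonneg_right (by linarith) hsq
    refine hs V hn' G G' _ hle hcf (by linarith) ?_ ?_
    · refine le_trans (mul_le_mul_of_nonneg_right ?_ hpw) hinj
      linarith
    · have h8 : (Nat.card V : ℝ) * (τ * Nat.card V) = τ * (Nat.card V : ℝ) ^ 2 := by ring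
      rw [h8] at h3
      have h9 : 0 ≤ τ' * (Nat.card V : ℝ) ^ 2 := by positivity
      have h10 : τ' / 8 * (Nat.card V : ℝ) ^ 2 = τ' * (Nat.card V : ℝ) ^ 2 / 8 := by ring
      have h11 : τ' / 4 * (Nat.card V : ℝ) ^ 2 = τ' * (Nat.card V : ℝ) ^ 2 / 4 := by ring
      linarith
  have hdis : ∀ I : Set V, I ⊆ Z G u (τ * Nat.card V) → Disjoint (G.neighborSet u) I := by
    intro I hIZ
    rw [Set.disjoint_left]
    intro y hy hyI
    exact (hIZ hyI).1 hy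
  by_contra hcon
  push Not at hcon
  by_cases hcase : ∃ y₀, ρ' * (Nat.card V : ℝ) ≤ ((G.neighborSet y₀ ∩ Z G u (τ * Nat.card V)).ncard : ℝ)
  · obtain ⟨y₀, hy₀⟩ := hcase
    have hsub : G.neighborSet y₀ ∩ Z G u (τ * Nat.card V) ⊆ Z G u (τ * Nat.card V) := Set.inter_subset_right
    refine pp_contra hI G u _ (hdis _ hsub) hc₂ hε2 (hdg u) (hlow₂ V hn3 G _ hdeg hy₀) ?_
    refine hst hn4 hτ2 hτ₂ hstar₂ _ hsub ?_
    have h3 : (pe G (G.neighborSet y₀ ∩ Z G u (τ * Nat.card V)) (G.neighborSet y₀ ∩ Z G u (τ * Nat.card V)) : ℝ) ≤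
        pe G (G.neighborSet y₀) (G.neighborSet y₀) := by
      exact_mod_cast pp_pe_mono G Set.inter_subset_left Set.inter_subset_left
    have h4 := hpe y₀
    have h5 : τ * (Nat.card V : ℝ) ^ 2 ≤ τ₂ / 4 * (Nat.card V : ℝ) ^ 2 :=
      mul_le_mul_of_nonneg_right (by linarith) hsq
    linarith
  · push Not at hcase
    refine pp_contra hI G u _ (hdis _ subset_rfl) hc₁ hε1 (hdg u) (hlow₁ V hn1 G _ hdeg hcon.le) ?_
    refine hst hn2 hτ1 hτ₁ hstar₁ _ subset_rfl ?_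
    have h3 : (pe G (Z G u (τ * Nat.card V)) (Z G u (τ * Nat.card V)) : ℝ) ≤
        (Nat.card V : ℝ) * (ρ' * Nat.card V) :=
      pp_pe_le G _ _ (by positivity) fun y _ => (hcase y).le
    refine h3.trans ?_
    have h4 : ρ' ≤ τ₁ / 4 := min_le_left _ _
    have h5 : (Nat.card V : ℝ) * (ρ' * Nat.card V) = ρ' * (Nat.card V : ℝ) ^ 2 := by ring
    rw [h5]
    exact mul_le_mul_of_nonneg_right h4 hsq

theorem deg_lower [Finite α] [Nonempty α] {H : SimpleGraph α} (hI : NoIso H) (hπ : 0 < pi3 H) {ε : ℝ} (hε : ε ≤ pi3 H)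
    [Finite V] (G : SimpleGraph V) (x : V)
    (hx : (pi3 H * Nat.card α - ε) * (Nat.card V : ℝ) ^ (Nat.card α - 1) ≤ dg H G x) :
    pi3 H / 2 * (Nat.card V : ℝ) ≤ ((G.neighborSet x).ncard : ℝ) := pp_deg hI hπ hε G x hx

end Pool.Agent.WT7
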