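import Pool.Agent.WT7.Defs

/-!
# [WT7-Rem] few triangles, removal

`removal`: let `κ' > 0` be smaller than `SimpleGraph.triangleRemovalBound (κ / 2)`. `∑_x pe G N(x) N(x)` is the number of ordered triples `(x, y, z)` of pairwise adjacent vertices, which is `6` times the number of triangles (only needed: it is at
least `#(G.cliqueFinset 3)`, since every triangle is `{x, y, z}` for at least one such triple). So `#(G.cliqueFinset 3) ≤ κ' n³ < triangleRemovalBound (κ/2) * n³` (`n ≥ 1`), and
`SimpleGraph.triangle_removal` gives `G' ≤ G` triangle-free with `#E(G) - #E(G') < κ/2 n²`, and `df G G' = 2 (#E(G) - #E(G'))` (pairs = darts, twice the number of edges; or `df G G' + pairs of G' = pairs of G`, `SimpleGraph.sum_degrees_eq_twice_card_edges`,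
`two_mul_card_edgeFinset`).
(Use `classical` and `Fintype.ofFinite V`.)
-/

set_option autoImplicit false

namespace Pool.Agent.WT7

variable {α β V W : Type}

open Finset in
private lemma rem_card_clique [Fintype V] [DecidableEq V] (G : SimpleGraph V) [DecidableRel G.Adj] :
    (G.cliqueFinset 3).card ≤ ∑ x : V, pe G (G.neighborSet x) (G.neighborSet x) := by
  have h1 : ∀ x : V, pe G (G.neighborSet x) (G.neighborSet x) =
      ((Finset.univ : Finset (V × V)).filter
        (fun p => G.Adj x p.1 ∧ G.Adj x p.2 ∧ G.Adj p.1 p.2)).card := by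
    intro x
    unfold pe
    rw [← Set.ncard_coe_finset]
    congr 1
    ext p
    simp
  simp_rw [h1]
  rw [← Finset.card_sigma]
  refine Finset.card_le_card_of_surjOn (fun p : (_ : V) × (V × V) => {p.1, p.2.1, p.2.2}) ?_
  intro t ht
  rw [Finset.mem_coe, SimpleGraph.mem_cliqueFinset_iff, SimpleGraph.is3Clique_iff] at ht
  obtain ⟨x, y, z, hxy, hxz, hyz, rfl⟩ := ht
  refine ⟨⟨x, (y, z)⟩, ?_, rfl⟩
  simp [hxy, hxz, hyz]

open Finset in
private lemma rem_df [Fintype V] [DecidableEq V] (G G' : SimpleGraph V) [DecidableRel G.Adj]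
    [DecidableRel G'.Adj] (h : G' ≤ G) :
    (df G G' : ℝ) = 2 * ((G.edgeFinset.card : ℝ) - (G'.edgeFinset.card : ℝ)) := by
  have h1 : df G G' = ((Finset.univ : Finset (V × V)).filter
      (fun (x, y) => G.Adj x y ∧ ¬ G'.Adj x y)).card := by
    unfold df
    rw [← Set.ncard_coe_finset]
    congr 1
    ext p
    simp
  rw [h1, mul_sub, filter_and_not, cast_card_sdiff]
  · norm_cast
    rw [SimpleGraph.two_mul_card_edgeFinset, SimpleGraph.two_mul_card_edgeFinset]
  · gcongr with xy _
    exact fun hxy => h hxy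

theorem removal {κ : ℝ} (hκ : 0 < κ) : ∃ κ' : ℝ, 0 < κ' ∧ ∀ (V : Type) [Finite V] [Nonempty V] (G : SimpleGraph V),
    (∀ x, (pe G (G.neighborSet x) (G.neighborSet x) : ℝ) ≤ κ' * (Nat.card V : ℝ) ^ 2) →
      ∃ G' : SimpleGraph V, G' ≤ G ∧ G'.CliqueFree 3 ∧ (df G G' : ℝ) ≤ κ * (Nat.card V : ℝ) ^ 2 := by
  have hκ2 : 0 < κ / 2 := by linarith
  have hb := SimpleGraph.triangleRemovalBound_pos hκ2
  refine ⟨SimpleGraph.triangleRemovalBound (κ / 2) / 2, by linarith, ?_⟩
  intro V _ _ G hG
  classical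
  letI : Fintype V := Fintype.ofFinite V
  rw [Nat.card_eq_fintype_card] at hG
  rw [Nat.card_eq_fintype_card]
  have hn : (0 : ℝ) < (Fintype.card V : ℝ) := by
    exact_mod_cast Fintype.card_pos
  have h1 : ((G.cliqueFinset 3).card : ℝ) < SimpleGraph.triangleRemovalBound (κ / 2) *
      (Fintype.card V : ℝ) ^ 3 := by
    have h2 : ((G.cliqueFinset 3).card : ℝ) ≤
        ∑ x : V, (pe G (G.neighborSet x) (G.neighborSet x) : ℝ) := by
      exact_mod_cast rem_card_clique G
    have h3 : ∑ x : V, (pe G (G.neighborSet x) (G.neighborSet x) : ℝ) ≤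
        ∑ _x : V, SimpleGraph.triangleRemovalBound (κ / 2) / 2 * (Fintype.card V : ℝ) ^ 2 :=
      Finset.sum_le_sum (fun x _ => hG x)
    rw [Finset.sum_const, Finset.card_univ, nsmul_eq_mul] at h3
    have h4 : (Fintype.card V : ℝ) * (SimpleGraph.triangleRemovalBound (κ / 2) / 2 *
        (Fintype.card V : ℝ) ^ 2) < SimpleGraph.triangleRemovalBound (κ / 2) *
      (Fintype.card V : ℝ) ^ 3 := by
      have h5 : 0 < SimpleGraph.triangleRemovalBound (κ / 2) * (Fintype.card V : ℝ) ^ 3 := by
        positivity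
      nlinarith
    linarith
  obtain ⟨G', hle, hdec, hE, hfree⟩ := SimpleGraph.triangle_removal h1
  refine ⟨G', hle, hfree, ?_⟩
  rw [rem_df G G' hle]
  push_cast at hE
  linarith

end Pool.Agent.WT7
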