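import Pool.Agent.WT7.Pig
import Pool.Agent.WT7.Emb

/-!
# [WT7-TriM] `G` is triangle-free

`t = Nat.card β`, `n = |V|`.
`codeg`: let `X = N(a) ∩ N(b)`, `|X| ≥ δ₁ n`. Every `x ∈ X` has at least `c₀ n` neighbours. `pig` (`A = univ`, `N = n`, `δ = c₀`, `B = {a, b}`): `P` of size `t` without `a, b`, `X' ⊆ X` complete to `P`,
`|X'| ≥ (c₀/2)^t δ₁ n ≥ t`. `Q = X'`, `emb2`.
`triFree`: let `a, b, w` be a triangle. By `codeg` with `δ₁ = c₀ / 8` all three codegrees are `< c₀ n / 8`. Let `M = N(w) \ (N(a) ∪ N(b) ∪ Z G a (δ n) ∪ Z G b (δ n))`: `|M| ≥ c₀ n - 4 c₀ n / 8 = c₀ n / 2`. Every `y ∈ M` has at least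
`δ n` neighbours in `N(a)` and in `N(b)` (as `y ∉ N(a)`, `y ∉ Z G a (δ n)`). `pig` for `X = M`, `A = N(a)`, `B = {a, b, w}`: `P ⊆ N(a)`, `M'`, `|M'| ≥ (δ/2)^t |M|`. `pig` for `X = M'`, `A = N(b)`, `B = P ∪ {a, b, w}`: `Q`, `M''`,
`|M''| ≥ (δ/2)^(2t) c₀ n / 2 ≥ t + 3`; `Y = M'' \ {a, b, w}`. `emb3`. (`Y ∩ P = ∅` because `Y`-`P` is complete.)
-/

set_option autoImplicit false

namespace Pool.Agent.WT7

variable {α β V W : Type}

private theorem trim_large {a : ℝ} (ha : 0 < a) (b : ℝ) : ∃ n₀ : ℕ, ∀ n : ℕ, n₀ ≤ n → b ≤ a * (n : ℝ) := by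
  obtain ⟨m, hm⟩ := exists_nat_ge (b / a)
  refine ⟨m, fun n hn => ?_⟩
  have h1 : (m : ℝ) ≤ (n : ℝ) := by exact_mod_cast hn
  have h2 : b / a ≤ (n : ℝ) := hm.trans h1
  rw [div_le_iff₀ ha] at h2
  linarith

private theorem trim_ncard_le [Finite V] (A : Set V) : A.ncard ≤ Nat.card V := by
  rw [← Set.ncard_univ]
  exact Set.ncard_le_ncard (Set.subset_univ _) (Set.toFinite _)

private theorem trim_two (a b : V) : ({a, b} : Set V).ncard ≤ 2 := by
  have h := Set.ncard_insert_le a ({b} : Set V)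
  rw [Set.ncard_singleton] at h
  omega

private theorem trim_three (a b w : V) : ({a, b, w} : Set V).ncard ≤ 3 := by
  have h := Set.ncard_insert_le a ({b, w} : Set V)
  have h2 := trim_two b w
  omega

theorem codeg [Finite β] {F : SimpleGraph β} {u v : β} {c : β → Bool} (hF : Crit F u v c) {c₀ δ₁ : ℝ} (hc₀ : 0 < c₀)
    (hδ₁ : 0 < δ₁) : ∃ n₀ : ℕ, ∀ (V : Type) [Finite V], n₀ ≤ Nat.card V → ∀ G : SimpleGraph V, F.Free G →
      (∀ x, c₀ * (Nat.card V : ℝ) ≤ ((G.neighborSet x).ncard : ℝ)) →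
        ∀ a b, G.Adj a b → ((G.neighborSet a ∩ G.neighborSet b).ncard : ℝ) < δ₁ * Nat.card V := by
  obtain ⟨n₁, hn₁⟩ := trim_large (half_pos hc₀) (2 + (Nat.card β : ℝ))
  have hpos : 0 < (c₀ / 2) ^ Nat.card β * δ₁ := by positivity
  obtain ⟨n₂, hn₂⟩ := trim_large hpos (Nat.card β : ℝ)
  refine ⟨max 1 (max n₁ n₂), fun V _ hV G hG hdeg a b hab => ?_⟩
  by_contra hcon
  push Not at hcon
  have h1 := hn₁ (Nat.card V) (by omega)
  have h2 := hn₂ (Nat.card V) (by omega)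
  have hn0 : (0 : ℝ) < (Nat.card V : ℝ) := by
    have : 0 < Nat.card V := by omega
    exact_mod_cast this
  have hXpos : (0 : ℝ) < ((G.neighborSet a ∩ G.neighborSet b).ncard : ℝ) :=
    lt_of_lt_of_le (mul_pos hδ₁ hn0) hcon
  have hX₀ : (G.neighborSet a ∩ G.neighborSet b).Nonempty := by
    by_contra hne
    rw [Set.not_nonempty_iff_eq_empty] at hne
    rw [hne, Set.ncard_empty] at hXpos
    simp at hXpos
  have htwo : (({a, b} : Set V).ncard : ℝ) ≤ 2 := by exact_mod_cast trim_two a b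
  obtain ⟨P, hP1, hP2, X', hX'1, hX'2, hX'3⟩ := pig (fun x y => G.Adj x y) (Nat.card V) hc₀
    (Nat.card β) (G.neighborSet a ∩ G.neighborSet b) Set.univ {a, b} (trim_ncard_le _)
    (by linarith) hX₀ (fun x _ => by
      have h3 : {y | y ∈ (Set.univ : Set V) ∧ G.Adj x y} = G.neighborSet x := by
        ext y
        simp [SimpleGraph.mem_neighborSet]
      rw [h3]
      exact hdeg x)
  refine hG (emb2 hF (a := a) (b := b) (P := P) (Q := X') hP2.ge ?_ ?_ ?_ hab ?_ ?_ ?_ ?_)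
  · have h4 : (Nat.card β : ℝ) ≤ (X'.ncard : ℝ) := by
      calc (Nat.card β : ℝ) ≤ (c₀ / 2) ^ Nat.card β * δ₁ * (Nat.card V : ℝ) := h2
        _ = (c₀ / 2) ^ Nat.card β * (δ₁ * (Nat.card V : ℝ)) := by ring
        _ ≤ (c₀ / 2) ^ Nat.card β * ((G.neighborSet a ∩ G.neighborSet b).ncard : ℝ) :=
            mul_le_mul_of_nonneg_left hcon (by positivity)
        _ ≤ X'.ncard := hX'2
    exact_mod_cast h4
  · rw [Set.disjoint_left]
    intro z hz1 hz2
    exact G.loopless.irrefl z (hX'3 z hz2 z hz1)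
  · intro p hp q hq
    exact (hX'3 q hq p hp).symm
  · intro h
    exact (hP1 h).2 (by simp)
  · intro h
    exact (hP1 h).2 (by simp)
  · intro q hq
    exact (hX'1 hq).1
  · intro q hq
    exact (hX'1 hq).2

theorem triFree [Finite β] {F : SimpleGraph β} {u v : β} {c : β → Bool} (hF : Crit F u v c) {c₀ δ : ℝ} (hc₀ : 0 < c₀)
    (hδ : 0 < δ) : ∃ n₀ : ℕ, ∀ (V : Type) [Finite V], n₀ ≤ Nat.card V → ∀ G : SimpleGraph V, F.Free G →
      (∀ x, c₀ * (Nat.card V : ℝ) ≤ ((G.neighborSet x).ncard : ℝ)) →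
        (∀ x, ((Z G x (δ * Nat.card V)).ncard : ℝ) ≤ c₀ / 8 * Nat.card V) → G.CliqueFree 3 := by
  obtain ⟨n₁, hn₁⟩ := codeg hF hc₀ (show 0 < c₀ / 8 by linarith)
  obtain ⟨n₂, hn₂⟩ := trim_large (half_pos hδ) (3 + 2 * (Nat.card β : ℝ))
  have hpos : 0 < (δ / 2) ^ Nat.card β * ((δ / 2) ^ Nat.card β * (c₀ / 2)) := by positivity
  obtain ⟨n₃, hn₃⟩ := trim_large hpos ((Nat.card β : ℝ) + 3)
  refine ⟨max 1 (max n₁ (max n₂ n₃)), fun V _ hV G hG hdeg hZ => ?_⟩
  classical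
  intro s hs
  rw [SimpleGraph.is3Clique_iff] at hs
  obtain ⟨a, b, w, hab, haw, hbw, -⟩ := hs
  have hcod := hn₁ V (by omega) G hG hdeg
  have h2 := hn₂ (Nat.card V) (by omega)
  have h3 := hn₃ (Nat.card V) (by omega)
  have hn0 : (0 : ℝ) < (Nat.card V : ℝ) := by
    have : 0 < Nat.card V := by omega
    exact_mod_cast this
  obtain ⟨M, hM⟩ : ∃ M : Set V, M = {y | G.Adj w y ∧ ¬ G.Adj a y ∧ ¬ G.Adj b y ∧
      y ∉ Z G a (δ * Nat.card V) ∧ y ∉ Z G b (δ * Nat.card V)} := ⟨_, rfl⟩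
  -- the size of `M`
  have hMcard : c₀ / 2 * (Nat.card V : ℝ) ≤ (M.ncard : ℝ) := by
    have hsub : G.neighborSet w ⊆ M ∪ ((G.neighborSet a ∩ G.neighborSet w) ∪
        ((G.neighborSet b ∩ G.neighborSet w) ∪
          (Z G a (δ * Nat.card V) ∪ Z G b (δ * Nat.card V)))) := by
      intro y hy
      by_cases e1 : G.Adj a y
      · exact Or.inr (Or.inl ⟨e1, hy⟩)
      by_cases e2 : G.Adj b y
      · exact Or.inr (Or.inr (Or.inl ⟨e2, hy⟩))
      by_cases e3 : y ∈ Z G a (δ * Nat.card V)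
      · exact Or.inr (Or.inr (Or.inr (Or.inl e3)))
      by_cases e4 : y ∈ Z G b (δ * Nat.card V)
      · exact Or.inr (Or.inr (Or.inr (Or.inr e4)))
      left
      rw [hM]
      exact ⟨hy, e1, e2, e3, e4⟩
    have k1 := Set.ncard_le_ncard hsub (Set.toFinite _)
    have k2 := Set.ncard_union_le M ((G.neighborSet a ∩ G.neighborSet w) ∪
        ((G.neighborSet b ∩ G.neighborSet w) ∪
          (Z G a (δ * Nat.card V) ∪ Z G b (δ * Nat.card V))))
    have k3 := Set.ncard_union_le (G.neighborSet a ∩ G.neighborSet w)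
        ((G.neighborSet b ∩ G.neighborSet w) ∪
          (Z G a (δ * Nat.card V) ∪ Z G b (δ * Nat.card V)))
    have k4 := Set.ncard_union_le (G.neighborSet b ∩ G.neighborSet w)
          (Z G a (δ * Nat.card V) ∪ Z G b (δ * Nat.card V))
    have k5 := Set.ncard_union_le (Z G a (δ * Nat.card V)) (Z G b (δ * Nat.card V))
    have k6 : (G.neighborSet w).ncard ≤ M.ncard + ((G.neighborSet a ∩ G.neighborSet w).ncard +
        ((G.neighborSet b ∩ G.neighborSet w).ncard + ((Z G a (δ * Nat.card V)).ncard +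
          (Z G b (δ * Nat.card V)).ncard))) := by omega
    have k7 : ((G.neighborSet w).ncard : ℝ) ≤ M.ncard + ((G.neighborSet a ∩ G.neighborSet w).ncard +
        ((G.neighborSet b ∩ G.neighborSet w).ncard + ((Z G a (δ * Nat.card V)).ncard +
          (Z G b (δ * Nat.card V)).ncard))) := by exact_mod_cast k6
    have k8 := hcod a w haw
    have k9 := hcod b w hbw
    have k10 := hZ a
    have k11 := hZ b
    have k12 := hdeg w
    linarith
  have hne : ∀ S : Set V, (0 : ℝ) < (S.ncard : ℝ) → S.Nonempty := by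
    intro S hS
    by_contra hne
    rw [Set.not_nonempty_iff_eq_empty] at hne
    rw [hne, Set.ncard_empty] at hS
    simp at hS
  have hMpos : (0 : ℝ) < (M.ncard : ℝ) := lt_of_lt_of_le (mul_pos (half_pos hc₀) hn0) hMcard
  have hthree : (({a, b, w} : Set V).ncard : ℝ) ≤ 3 := by exact_mod_cast trim_three a b w
  have hmany : ∀ z x : V, ¬ G.Adj z x → x ∉ Z G z (δ * Nat.card V) →
      δ * (Nat.card V : ℝ) ≤ ({y | y ∈ G.neighborSet z ∧ G.Adj x y}.ncard : ℝ) := by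
    intro z x e1 e2
    have e3 : {y | y ∈ G.neighborSet z ∧ G.Adj x y} = G.neighborSet x ∩ G.neighborSet z := by
      ext y
      simp only [Set.mem_ofPred_eq, Set.mem_inter_iff, SimpleGraph.mem_neighborSet]
      exact and_comm
    rw [e3]
    by_contra e4
    push Not at e4
    exact e2 ⟨e1, e4⟩
  obtain ⟨P, hP1, hP2, M', hM'1, hM'2, hM'3⟩ := pig (fun x y => G.Adj x y) (Nat.card V) hδ
    (Nat.card β) M (G.neighborSet a) {a, b, w} (trim_ncard_le _)
    (by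
      have : (0 : ℝ) ≤ (Nat.card β : ℝ) := by positivity
      linarith) (hne M hMpos) (fun x hx => by
      rw [hM] at hx
      exact hmany a x hx.2.1 hx.2.2.2.1)
  have hM'pos : (0 : ℝ) < (M'.ncard : ℝ) :=
    lt_of_lt_of_le (mul_pos (by positivity) hMpos) hM'2
  have hPB : ((P ∪ {a, b, w} : Set V).ncard : ℝ) ≤ Nat.card β + 3 := by
    have k1 := Set.ncard_union_le P {a, b, w}
    have k2 := trim_three a b w
    have k3 : (P ∪ {a, b, w} : Set V).ncard ≤ Nat.card β + 3 := by omega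
    exact_mod_cast k3
  obtain ⟨Q, hQ1, hQ2, M'', hM''1, hM''2, hM''3⟩ := pig (fun x y => G.Adj x y) (Nat.card V) hδ
    (Nat.card β) M' (G.neighborSet b) (P ∪ {a, b, w}) (trim_ncard_le _)
    (by linarith) (hne M' hM'pos) (fun x hx => by
      have hx2 := hM'1 hx
      rw [hM] at hx2
      exact hmany b x hx2.2.2.1 hx2.2.2.2.2)
  have hM''card : (Nat.card β : ℝ) + 3 ≤ (M''.ncard : ℝ) := by
    have hq : (0 : ℝ) ≤ (δ / 2) ^ Nat.card β := by positivity
    calc (Nat.card β : ℝ) + 3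
        ≤ (δ / 2) ^ Nat.card β * ((δ / 2) ^ Nat.card β * (c₀ / 2)) * (Nat.card V : ℝ) := h3
      _ = (δ / 2) ^ Nat.card β * ((δ / 2) ^ Nat.card β * (c₀ / 2 * (Nat.card V : ℝ))) := by ring
      _ ≤ (δ / 2) ^ Nat.card β * ((δ / 2) ^ Nat.card β * (M.ncard : ℝ)) :=
          mul_le_mul_of_nonneg_left (mul_le_mul_of_nonneg_left hMcard hq) hq
      _ ≤ (δ / 2) ^ Nat.card β * (M'.ncard : ℝ) := mul_le_mul_of_nonneg_left hM'2 hq
      _ ≤ M''.ncard := hM''2
  have hY : Nat.card β ≤ (M'' \ {a, b, w}).ncard := by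
    have hsub : M'' ⊆ (M'' \ {a, b, w}) ∪ {a, b, w} := by
      rw [Set.sdiff_union_self]
      exact Set.subset_union_left
    have k1 := Set.ncard_le_ncard hsub (Set.toFinite _)
    have k2 := Set.ncard_union_le (M'' \ {a, b, w}) {a, b, w}
    have k3 := trim_three a b w
    have k4 : Nat.card β + 3 ≤ M''.ncard := by exact_mod_cast hM''card
    omega
  have hYsub : ∀ y ∈ M'' \ {a, b, w}, y ∈ M'' := fun y hy => hy.1
  refine hG (emb3 hF (a := a) (b := b) (w := w) (Y := M'' \ {a, b, w}) (P := P) (Q := Q) hY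
    hP2.ge hQ2.ge ?_ ?_ ?_ ?_ ?_ hab haw hbw ?_ ?_ ?_ ?_ ?_ ?_)
  · rw [Set.disjoint_left]
    intro z hz1 hz2
    exact G.loopless.irrefl z (hM'3 z (hM''1 hz1.1) z hz2)
  · rw [Set.disjoint_left]
    intro z hz1 hz2
    exact G.loopless.irrefl z (hM''3 z hz1.1 z hz2)
  · rw [Set.disjoint_left]
    intro z hz1 hz2
    exact (hQ1 hz2).2 (Or.inl hz1)
  · intro y hy p hp
    exact hM'3 y (hM''1 hy.1) p hp
  · intro y hy q hq
    exact hM''3 y hy.1 q hq
  · intro p hp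
    exact (hP1 hp).1
  · intro q hq
    exact (hQ1 hq).1
  · intro y hy
    have hy2 := hM'1 (hM''1 hy.1)
    rw [hM] at hy2
    exact hy2.1
  · exact ⟨fun h => h.2 (by simp), fun h => (hQ1 h).2 (Or.inr (by simp))⟩
  · exact ⟨fun h => h.2 (by simp), fun h => (hP1 h).2 (by simp)⟩
  · exact ⟨fun h => (hP1 h).2 (by simp), fun h => (hQ1 h).2 (Or.inr (by simp))⟩

end Pool.Agent.WT7
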