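import Pool.Agent.WT7.Growth
import Pool.Agent.WT7.PropP
import Pool.Agent.WT7.Few
import Pool.Agent.WT7.Rem
import Pool.Agent.WT7.TriM

/-!
# [WT7-MainInj] the theorem for labelled copies, no isolated vertices

`h = |α| ≥ 2` (`two_le_card`), `π > 0` (`pi_pos`; `H` is triangle-free as it is 2-colourable: `SimpleGraph.Colorable.cliqueFree`). `propP` with `ρ = π / 16` gives `ε, δ, τ, n₁`; `removal` with `κ = τ` gives `κ'`; `few` with `min(κ', τ)`; `a3_lower` with `η = τ`;
`triFree` with `c₀ = π / 2` (so `c₀ / 8 = ρ`) and `δ`.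
`step`: for all large `n` and every `F`-free `G` on `n` vertices with `a3 H n < inj H G` there is a vertex `v` with `dg v < (π h - ε) n^(h-1)`: otherwise all the hypotheses of `propP` and `triFree` hold, `G` is triangle-free, and
`inj_le_a3` gives a contradiction.
`main_inj`: by `growth` (with `ε`) and `bF_step`: for large `n` (`n + 1 ≥ n₂`), `bF (n+1) > a3 (n+1)` implies `bF (n+1) ≤ bF n + dg v`, `dg v < (π h - ε) (n+1)^(h-1) ≤ a3 (n+1) - a3 n`, so
`bF n + a3 (n+1) > bF (n+1) + a3 n` (in particular `bF n > a3 n`). Hence `bF n₂ - a3 n₂ ≥ n - n₂ + 1` if `bF n > a3 n`, `n ≥ n₂`; this is impossible for `n > n₂ + bF n₂`.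
(`exists_bF` gives `G` on `Fin (n+1)` with `inj H G = bF (n+1)`.)
-/

set_option autoImplicit false

namespace Pool.Agent.WT7

variable {α β V W : Type}

theorem step [Finite α] [Nonempty α] {H : SimpleGraph α} (hH : H.Colorable 2) (hI : NoIso H) [Finite β]
    {F : SimpleGraph β} {u v : β} {c : β → Bool} (hF : Crit F u v c) : ∃ ε : ℝ, 0 < ε ∧ ∃ n₀ : ℕ,
      ∀ (V : Type) [Finite V], n₀ ≤ Nat.card V → ∀ G : SimpleGraph V, F.Free G → a3 H (Nat.card V) < inj H G →
        ∃ x, (dg H G x : ℝ) < (pi3 H * Nat.card α - ε) * (Nat.card V : ℝ) ^ (Nat.card α - 1) := by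
  have hπ : 0 < pi3 H := pi_pos (hH.cliqueFree (by norm_num))
  obtain ⟨ε, hε, hεπ, δ, hδ, τ, hτ, n₁, hP⟩ := propP hH hI hπ (ρ := pi3 H / 16) (by positivity)
  obtain ⟨κ', hκ', hrem⟩ := removal hτ
  obtain ⟨n₂, hfew⟩ := few hF (lt_min hκ' hτ)
  obtain ⟨n₃, ha3⟩ := a3_lower H hτ
  obtain ⟨n₄, htri⟩ := triFree hF (c₀ := pi3 H / 2) (δ := δ) (by positivity) hδ
  refine ⟨ε, hε, 1 + (n₁ + (n₂ + (n₃ + n₄))), ?_⟩
  intro V _ hn G hG ha
  by_contra hcon
  push Not at hcon
  have hV : Nonempty V := Finite.card_pos_iff.1 (by omega)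
  have hpe := hfew V (by omega) G hG
  have hsq : (0 : ℝ) ≤ (Nat.card V : ℝ) ^ 2 := by positivity
  obtain ⟨G', hle, hcf', hdf⟩ := hrem V G
    (fun x => (hpe x).trans (mul_le_mul_of_nonneg_right (min_le_left _ _) hsq))
  have hinj : (pi3 H - τ) * (Nat.card V : ℝ) ^ Nat.card α ≤ inj H G :=
    (ha3 (Nat.card V) (by omega)).trans (by exact_mod_cast ha.le)
  have hZ := hP V (by omega) G G' hle hcf' hdf
    (fun x => (hpe x).trans (mul_le_mul_of_nonneg_right (min_le_right _ _) hsq)) hinj hcon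
  have hcf : G.CliqueFree 3 := htri V (by omega) G hG
    (fun x => deg_lower hI hπ hεπ G x (hcon x)) (fun x => by
      have h1 := hZ x
      have h2 : pi3 H / 2 / 8 * (Nat.card V : ℝ) = pi3 H / 16 * (Nat.card V : ℝ) := by ring
      rw [h2]
      exact h1)
  exact absurd (inj_le_a3 H hcf) (by omega)

theorem main_inj [Finite α] [Nonempty α] {H : SimpleGraph α} (hH : H.Colorable 2) (hI : NoIso H) [Finite β]
    {F : SimpleGraph β} {u v : β} {c : β → Bool} (hF : Crit F u v c) : ∃ n₀ : ℕ, ∀ n ≥ n₀, bF H F n ≤ a3 H n := by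
  obtain ⟨ε, hε, n₁, hstep⟩ := step hH hI hF
  obtain ⟨n₂, hgr⟩ := growth H hε
  have hA : ∀ n, n₁ + n₂ ≤ n → a3 H (n + 1) < bF H F (n + 1) →
      bF H F (n + 1) + a3 H n < bF H F n + a3 H (n + 1) := by
    intro n hn hlt
    obtain ⟨G, hG, hGb⟩ := exists_bF H (F := F) ⟨u, v, hF.adj⟩ (n + 1)
    have hcard : Nat.card (Fin (n + 1)) = n + 1 := Nat.card_fin _
    obtain ⟨x, hx⟩ := hstep (Fin (n + 1)) (by omega) G hG (by rw [hcard, hGb]; exact hlt)
    have h1 := bF_step H hG x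
    have h2 := hgr n (by omega)
    rw [hcard, Nat.add_sub_cancel, hGb] at h1
    rw [hcard] at hx
    push_cast at hx
    have h3 : ((bF H F (n + 1) : ℕ) : ℝ) ≤ bF H F n + dg H G x := by exact_mod_cast h1
    have h4 : ((bF H F (n + 1) + a3 H n : ℕ) : ℝ) < ((bF H F n + a3 H (n + 1) : ℕ) : ℝ) := by
      push_cast
      linarith
    exact_mod_cast h4
  refine ⟨n₁ + n₂ + bF H F (n₁ + n₂), fun n hn => ?_⟩
  by_contra hcon
  push Not at hcon
  have hB : ∀ d, n₁ + n₂ + d ≤ n → a3 H (n - d) + d + 1 ≤ bF H F (n - d) := by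
    intro d
    induction d with
    | zero =>
      intro _
      rw [Nat.sub_zero]
      omega
    | succ d ih =>
      intro hd
      have h1 := ih (by omega)
      have h2 : n - d = n - (d + 1) + 1 := by omega
      rw [h2] at h1
      have h3 := hA (n - (d + 1)) (by omega) (by omega)
      omega
  have h1 := hB (n - (n₁ + n₂)) (by omega)
  have h2 : n - (n - (n₁ + n₂)) = n₁ + n₂ := by omega
  rw [h2] at h1
  omega

end Pool.Agent.WT7
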