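import Pool.Agent.WT7.Basic

/-!
# [WT7-PiA] the supremum `π`

The set in the definition of `pi3` is bounded by `1` (`hom_le_pow`), so `le_csSup` applies. `hom_le_pi`: transport `G` to
`Fin (Nat.card V)` (`Finite.equivFin`, `hom_le_of_emb`; triangle-free by `SimpleGraph.CliqueFree.comap`). `pi_pos`: the graph `H` itself (transported to `Fin`), the identity is a
homomorphism. `pi_le_one`: `csSup_le` or `Real.sSup_le`.
-/

set_option autoImplicit false

namespace Pool.Agent.WT7

variable {α β V W : Type}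

private theorem piA_mem_le [Finite α] (H : SimpleGraph α) {r : ℝ}
    (hr : r ∈ {r | ∃ n : ℕ, 1 ≤ n ∧ ∃ G : SimpleGraph (Fin n), G.CliqueFree 3 ∧
      r = (hom H G : ℝ) / (n : ℝ) ^ Nat.card α}) : r ≤ 1 := by
  obtain ⟨n, hn, G, -, rfl⟩ := hr
  have hpos : (0 : ℝ) < (n : ℝ) ^ Nat.card α := by positivity
  rw [div_le_one hpos]
  have h := hom_le_pow H G
  rw [Nat.card_fin] at h
  exact_mod_cast h

private theorem piA_bdd [Finite α] (H : SimpleGraph α) :
    BddAbove {r | ∃ n : ℕ, 1 ≤ n ∧ ∃ G : SimpleGraph (Fin n), G.CliqueFree 3 ∧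
      r = (hom H G : ℝ) / (n : ℝ) ^ Nat.card α} :=
  ⟨1, fun _ hr => piA_mem_le H hr⟩

theorem hom_le_pi [Finite α] [Finite V] [Nonempty V] (H : SimpleGraph α) {G : SimpleGraph V} (hG : G.CliqueFree 3) :
    (hom H G : ℝ) ≤ pi3 H * (Nat.card V : ℝ) ^ Nat.card α := by
  have hn : 1 ≤ Nat.card V := Nat.card_pos
  have hpos : (0 : ℝ) < (Nat.card V : ℝ) ^ Nat.card α := by
    have : (0 : ℝ) < (Nat.card V : ℝ) := by exact_mod_cast hn
    positivity
  have h1 : hom H G ≤ hom H (G.comap (Finite.equivFin V).symm) := by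
    refine hom_le_of_emb H (Finite.equivFin V) (Finite.equivFin V).injective ?_
    intro a b hab
    rw [SimpleGraph.comap_adj, Equiv.symm_apply_apply, Equiv.symm_apply_apply]
    exact hab
  have h2 : (G.comap (Finite.equivFin V).symm).CliqueFree 3 :=
    hG.comap ⟨(SimpleGraph.Embedding.comap (Finite.equivFin V).symm.toEmbedding G).toCopy⟩
  have h3 : (hom H (G.comap (Finite.equivFin V).symm) : ℝ) / (Nat.card V : ℝ) ^ Nat.card α ≤ pi3 H := by
    unfold pi3
    exact le_csSup (piA_bdd H) ⟨Nat.card V, hn, _, h2, rfl⟩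
  rw [div_le_iff₀ hpos] at h3
  have h1' : (hom H G : ℝ) ≤ (hom H (G.comap (Finite.equivFin V).symm) : ℝ) := by exact_mod_cast h1
  exact h1'.trans h3

theorem pi_pos [Finite α] [Nonempty α] {H : SimpleGraph α} (hH : H.CliqueFree 3) : 0 < pi3 H := by
  have h := hom_le_pi H hH
  have hn : 1 ≤ Nat.card α := Nat.card_pos
  have hpos : (0 : ℝ) < (Nat.card α : ℝ) ^ Nat.card α := by
    have : (0 : ℝ) < (Nat.card α : ℝ) := by exact_mod_cast hn
    positivity
  have h1 : 0 < hom H H := by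
    unfold hom
    rw [Set.ncard_pos (Set.toFinite _)]
    exact ⟨id, fun x y hxy => hxy⟩
  have h1' : (0 : ℝ) < (hom H H : ℝ) := by exact_mod_cast h1
  by_contra hc
  push Not at hc
  have : pi3 H * (Nat.card α : ℝ) ^ Nat.card α ≤ 0 := mul_nonpos_of_nonpos_of_nonneg hc hpos.le
  linarith

theorem pi_le_one [Finite α] (H : SimpleGraph α) : pi3 H ≤ 1 := by
  unfold pi3
  exact Real.sSup_le (fun r hr => piA_mem_le H hr) zero_le_one

end Pool.Agent.WT7
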