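import Pool.Agent.WT7.Defs

/-!
# [WT7-Pig] pigeonhole and complete bipartite subgraphs

`pig`: induction on `t`. `t = 0`: `P = ∅`, `X' = X`. Step: every `x ∈ X` has at least `δ N - |B| ≥ (δ/2) N ≥ (δ/2) |A|` `r`-neighbours in `A \ B`, so (double counting) some `p ∈ A \ B` has
`X₁ = {x ∈ X | r x p}` with `|X₁| ≥ (δ/2) |X|` (if `X = ∅` any choice of `P` would do; if `A \ B = ∅` then `X = ∅`; note that the size of `P` must be `t`, so use
`hBN` to see that `A \ B` has enough elements only if `X` is nonempty; hence the hypothesis `hX₀`). Apply the induction hypothesis to `X₁`, `B ∪ {p}`, `t - 1`.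
`ktt`: `X = {x ∈ A | |N(x) ∩ A| ≥ (κ/2) n}`: from `pe G A A ≥ κ n²` and `|N(x) ∩ A| ≤ n` one gets `|X| ≥ (κ/2) n` (`∑_{x ∈ A} |N(x) ∩ A| = pe G A A`). `pig` with `N = n`, `δ = κ/2`, `B = ∅`:
`P ⊆ A`, `X' ⊆ X` complete to `P`, `|X'| ≥ (κ/4)^t (κ/2) n ≥ t`; `Q ⊆ X'` with `t` elements. (`P ∩ Q = ∅` as `G` is loopless.)
-/

set_option autoImplicit false

namespace Pool.Agent.WT7

variable {α β V W : Type}

private lemma pig_double [Finite V] (r : V → V → Prop) (S T : Set V) (c d : ℝ)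
    (h1 : ∀ x ∈ S, c ≤ ({a | a ∈ T ∧ r x a}.ncard : ℝ))
    (h2 : ∀ p ∈ T, ({x | x ∈ S ∧ r x p}.ncard : ℝ) < d) :
    T.Nonempty → (S.ncard : ℝ) * c < (T.ncard : ℝ) * d := by
  classical
  intro hT
  haveI : Fintype V := Fintype.ofFinite V
  have e1 : ∀ x, ({a | a ∈ T ∧ r x a}.ncard : ℝ)
      = ((Finset.bipartiteAbove r T.toFinset x).card : ℝ) := by
    intro x
    rw [← Set.ncard_coe_finset]
    congr 2
    ext a
    simp [Finset.bipartiteAbove]
  have e2 : ∀ p, ({x | x ∈ S ∧ r x p}.ncard : ℝ)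
      = ((Finset.bipartiteBelow r S.toFinset p).card : ℝ) := by
    intro p
    rw [← Set.ncard_coe_finset]
    congr 2
    ext a
    simp [Finset.bipartiteBelow]
  have key : (∑ x ∈ S.toFinset, ((Finset.bipartiteAbove r T.toFinset x).card : ℝ))
      = ∑ p ∈ T.toFinset, ((Finset.bipartiteBelow r S.toFinset p).card : ℝ) := by
    exact_mod_cast Finset.sum_card_bipartiteAbove_eq_sum_card_bipartiteBelow r
      (s := S.toFinset) (t := T.toFinset)
  have a1 : (S.ncard : ℝ) * c ≤ ∑ x ∈ S.toFinset, ((Finset.bipartiteAbove r T.toFinset x).card : ℝ) := by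
    rw [Set.ncard_eq_toFinset_card', ← nsmul_eq_mul]
    apply Finset.card_nsmul_le_sum
    intro x hx
    rw [← e1 x]
    exact h1 x (by simpa using hx)
  have a2 : ∑ p ∈ T.toFinset, ((Finset.bipartiteBelow r S.toFinset p).card : ℝ)
      < (T.ncard : ℝ) * d := by
    rw [Set.ncard_eq_toFinset_card', ← nsmul_eq_mul]
    have hT' : T.toFinset.Nonempty := by simpa using hT
    calc ∑ p ∈ T.toFinset, ((Finset.bipartiteBelow r S.toFinset p).card : ℝ)
        < ∑ _p ∈ T.toFinset, d := by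
          apply Finset.sum_lt_sum_of_nonempty hT'
          intro p hp
          rw [← e2 p]
          exact h2 p (by simpa using hp)
      _ = T.toFinset.card • d := by rw [Finset.sum_const]
  linarith

theorem pig [Finite V] (r : V → V → Prop) (N : ℕ) {δ : ℝ} (hδ : 0 < δ) (t : ℕ) (X A B : Set V) (hA : A.ncard ≤ N)
    (hBN : (B.ncard : ℝ) + t ≤ δ / 2 * N) (hX₀ : X.Nonempty) (hX : ∀ x ∈ X, δ * N ≤ ({a | a ∈ A ∧ r x a}.ncard : ℝ)) :
    ∃ P : Set V, P ⊆ A \ B ∧ P.ncard = t ∧ ∃ X' : Set V, X' ⊆ X ∧ (δ / 2) ^ t * (X.ncard : ℝ) ≤ X'.ncard ∧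
      ∀ x ∈ X', ∀ p ∈ P, r x p := by
  classical
  induction t generalizing X B with
  | zero =>
    exact ⟨∅, by simp, by simp, X, subset_rfl, by simp, by simp⟩
  | succ t ih =>
    have hXpos : 0 < (X.ncard : ℝ) := by
      have : 0 < X.ncard := (Set.ncard_pos (Set.toFinite X)).2 hX₀
      exact_mod_cast this
    have hB0 : (0 : ℝ) ≤ (B.ncard : ℝ) := Nat.cast_nonneg _
    have ht0 : (0 : ℝ) ≤ (t : ℝ) := Nat.cast_nonneg _
    push_cast at hBN
    have hB1 : (B.ncard : ℝ) ≤ δ / 2 * N := by linarith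
    have h1 : ∀ x ∈ X, δ / 2 * N ≤ ({a | a ∈ A \ B ∧ r x a}.ncard : ℝ) := by
      intro x hx
      have hsub : {a | a ∈ A ∧ r x a} ⊆ {a | a ∈ A \ B ∧ r x a} ∪ B := by
        intro a ha
        by_cases hb : a ∈ B
        · exact Or.inr hb
        · exact Or.inl ⟨⟨ha.1, hb⟩, ha.2⟩
      have hc : {a | a ∈ A ∧ r x a}.ncard ≤ {a | a ∈ A \ B ∧ r x a}.ncard + B.ncard :=
        (Set.ncard_le_ncard hsub (Set.toFinite _)).trans (Set.ncard_union_le _ _)
      have hc' : ({a | a ∈ A ∧ r x a}.ncard : ℝ) ≤ ({a | a ∈ A \ B ∧ r x a}.ncard : ℝ) + (B.ncard : ℝ) := by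
        exact_mod_cast hc
      have := hX x hx
      linarith
    have hNpos : 0 < δ / 2 * N := by linarith
    have hTne : (A \ B).Nonempty := by
      obtain ⟨x, hx⟩ := hX₀
      have h2 := h1 x hx
      have h3 : 0 < ({a | a ∈ A \ B ∧ r x a}.ncard : ℝ) := by linarith
      have h4 : 0 < {a | a ∈ A \ B ∧ r x a}.ncard := by exact_mod_cast h3
      obtain ⟨a, ha⟩ := (Set.ncard_pos (Set.toFinite _)).1 h4
      exact ⟨a, ha.1⟩
    obtain ⟨p, hp, hpc⟩ : ∃ p ∈ A \ B, δ / 2 * (X.ncard : ℝ) ≤ ({x | x ∈ X ∧ r x p}.ncard : ℝ) := by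
      by_contra hcon
      push Not at hcon
      have h5 := pig_double r X (A \ B) (δ / 2 * N) (δ / 2 * (X.ncard : ℝ)) h1 hcon hTne
      have h6 : ((A \ B).ncard : ℝ) ≤ N := by
        have h7 : (A \ B).ncard ≤ A.ncard := Set.ncard_le_ncard Set.diff_subset (Set.toFinite _)
        exact_mod_cast h7.trans hA
      have h8 : ((A \ B).ncard : ℝ) * (δ / 2 * (X.ncard : ℝ)) ≤ N * (δ / 2 * (X.ncard : ℝ)) := by
        apply mul_le_mul_of_nonneg_right h6
        positivity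
      nlinarith
    have hX1 : {x | x ∈ X ∧ r x p}.Nonempty := by
      have h3 : 0 < ({x | x ∈ X ∧ r x p}.ncard : ℝ) := by
        have : 0 < δ / 2 * (X.ncard : ℝ) := by positivity
        linarith
      have h4 : 0 < {x | x ∈ X ∧ r x p}.ncard := by exact_mod_cast h3
      exact (Set.ncard_pos (Set.toFinite _)).1 h4
    have hB2 : ((insert p B).ncard : ℝ) + t ≤ δ / 2 * N := by
      have : (insert p B).ncard ≤ B.ncard + 1 := Set.ncard_insert_le _ _
      have h' : ((insert p B).ncard : ℝ) ≤ (B.ncard : ℝ) + 1 := by exact_mod_cast this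
      linarith
    obtain ⟨P, hP, hPc, X', hX', hX'c, hr⟩ := ih {x | x ∈ X ∧ r x p} (insert p B) hB2 hX1
      (fun x hx => hX x hx.1)
    have hpP : p ∉ P := fun h => (hP h).2 (Set.mem_insert _ _)
    refine ⟨insert p P, ?_, ?_, X', fun x hx => (hX' hx).1, ?_, ?_⟩
    · intro q hq
      rcases Set.mem_insert_iff.1 hq with h | h
      · rw [h]; exact hp
      · exact ⟨(hP h).1, fun hb => (hP h).2 (Set.mem_insert_of_mem _ hb)⟩
    · rw [Set.ncard_insert_of_notMem hpP (Set.toFinite _), hPc]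
    · calc (δ / 2) ^ (t + 1) * (X.ncard : ℝ) = (δ / 2) ^ t * (δ / 2 * (X.ncard : ℝ)) := by ring
        _ ≤ (δ / 2) ^ t * ({x | x ∈ X ∧ r x p}.ncard : ℝ) := by
          apply mul_le_mul_of_nonneg_left hpc
          positivity
        _ ≤ X'.ncard := hX'c
    · intro x hx q hq
      rcases Set.mem_insert_iff.1 hq with h | h
      · rw [h]; exact (hX' hx).2
      · exact hr x hx q h

private lemma pig_pe_le [Finite V] (G : SimpleGraph V) (A : Set V) {c : ℝ} (hc : 0 ≤ c) :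
    (pe G A A : ℝ) ≤ ({x | x ∈ A ∧ c ≤ ({a | a ∈ A ∧ G.Adj x a}.ncard : ℝ)}.ncard : ℝ) * Nat.card V
      + Nat.card V * c := by
  classical
  haveI : Fintype V := Fintype.ofFinite V
  set X : Set V := {x | x ∈ A ∧ c ≤ ({a | a ∈ A ∧ G.Adj x a}.ncard : ℝ)} with hX
  have e0 : (pe G A A : ℝ) = ∑ x : V, ∑ y : V, (if x ∈ A ∧ y ∈ A ∧ G.Adj x y then (1 : ℝ) else 0) := by
    have h1 : {p : V × V | p.1 ∈ A ∧ p.2 ∈ A ∧ G.Adj p.1 p.2}
        = ((Finset.univ.filter (fun p : V × V => p.1 ∈ A ∧ p.2 ∈ A ∧ G.Adj p.1 p.2) : Finset (V × V)) : Set (V × V)) := by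
      ext p; simp
    unfold pe
    rw [h1, Set.ncard_coe_finset, Finset.card_filter]
    push_cast
    rw [Fintype.sum_prod_type]
  have e1 : ∀ x : V, ∑ y : V, (if x ∈ A ∧ y ∈ A ∧ G.Adj x y then (1 : ℝ) else 0)
      ≤ (if x ∈ X then (Nat.card V : ℝ) else 0) + c := by
    intro x
    by_cases hxX : x ∈ X
    · rw [if_pos hxX]
      have : ∑ y : V, (if x ∈ A ∧ y ∈ A ∧ G.Adj x y then (1 : ℝ) else 0) ≤ ∑ _y : V, (1 : ℝ) := by
        apply Finset.sum_le_sum
        intro y _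
        split_ifs
        · exact le_rfl
        · exact zero_le_one
      have h2 : ∑ _y : V, (1 : ℝ) = Nat.card V := by simp
      linarith
    · rw [if_neg hxX]
      by_cases hxA : x ∈ A
      · have h3 : ({a | a ∈ A ∧ G.Adj x a}.ncard : ℝ) < c := by
          by_contra hcon
          push Not at hcon
          exact hxX ⟨hxA, hcon⟩
        have h4 : ∑ y : V, (if x ∈ A ∧ y ∈ A ∧ G.Adj x y then (1 : ℝ) else 0)
            = ({a | a ∈ A ∧ G.Adj x a}.ncard : ℝ) := by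
          have h5 : {a | a ∈ A ∧ G.Adj x a}
              = ((Finset.univ.filter (fun y : V => x ∈ A ∧ y ∈ A ∧ G.Adj x y) : Finset V) : Set V) := by
            ext a; simp [hxA]
          rw [h5, Set.ncard_coe_finset, Finset.card_filter]
          push_cast
          rfl
        linarith
      · have h4 : ∑ y : V, (if x ∈ A ∧ y ∈ A ∧ G.Adj x y then (1 : ℝ) else 0) = 0 := by
          apply Finset.sum_eq_zero
          intro y _
          rw [if_neg (fun h => hxA h.1)]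
        linarith
  rw [e0]
  calc ∑ x : V, ∑ y : V, (if x ∈ A ∧ y ∈ A ∧ G.Adj x y then (1 : ℝ) else 0)
      ≤ ∑ x : V, ((if x ∈ X then (Nat.card V : ℝ) else 0) + c) := Finset.sum_le_sum (fun x _ => e1 x)
    _ = (X.ncard : ℝ) * Nat.card V + Nat.card V * c := by
      rw [Finset.sum_add_distrib, ← Finset.sum_filter, Finset.sum_const, Finset.sum_const,
        nsmul_eq_mul, nsmul_eq_mul]
      have h6 : (X.ncard : ℝ) = ((Finset.univ.filter (fun x => x ∈ X)).card : ℝ) := by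
        rw [← Set.ncard_coe_finset]
        congr 2
        ext a; simp
      rw [h6]
      simp

theorem ktt {κ : ℝ} (hκ : 0 < κ) (t : ℕ) : ∃ n₀ : ℕ, ∀ (V : Type) [Finite V], n₀ ≤ Nat.card V →
    ∀ (G : SimpleGraph V) (A : Set V), κ * (Nat.card V : ℝ) ^ 2 ≤ pe G A A →
      ∃ P Q : Set V, P ⊆ A ∧ Q ⊆ A ∧ P.ncard = t ∧ Q.ncard = t ∧ Disjoint P Q ∧ Full G P Q := by
  classical
  set c : ℝ := (κ / 4) ^ t * (κ / 2) with hc
  have hcpos : 0 < c := by positivity
  refine ⟨⌈4 * t / κ⌉₊ + ⌈(t : ℝ) / c⌉₊ + 1, ?_⟩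
  intro V _ hn G A hpe
  set n : ℕ := Nat.card V with hndef
  have hn1 : (1 : ℝ) ≤ n := by
    have : 1 ≤ n := by omega
    exact_mod_cast this
  have hn2 : 4 * (t : ℝ) / κ ≤ n := by
    have h1 : ⌈4 * (t : ℝ) / κ⌉₊ ≤ n := by omega
    exact (Nat.le_ceil _).trans (by exact_mod_cast h1)
  have hn3 : (t : ℝ) / c ≤ n := by
    have h1 : ⌈(t : ℝ) / c⌉₊ ≤ n := by omega
    exact (Nat.le_ceil _).trans (by exact_mod_cast h1)
  have hn2' : (t : ℝ) ≤ κ / 4 * n := by
    rw [div_le_iff₀ hκ] at hn2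
    linarith
  have hn3' : (t : ℝ) ≤ c * n := by
    rw [div_le_iff₀ hcpos] at hn3
    linarith
  set X : Set V := {x | x ∈ A ∧ κ / 2 * n ≤ ({a | a ∈ A ∧ G.Adj x a}.ncard : ℝ)} with hX
  have hXc : κ / 2 * n ≤ (X.ncard : ℝ) := by
    have h1 := pig_pe_le G A (c := κ / 2 * n) (by positivity)
    rw [← hndef, ← hX] at h1
    have h2 : κ / 2 * (n : ℝ) * n ≤ (X.ncard : ℝ) * n := by nlinarith
    exact le_of_mul_le_mul_right h2 (by linarith)
  have hXne : X.Nonempty := by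
    have h3 : 0 < (X.ncard : ℝ) := by
      have : 0 < κ / 2 * (n : ℝ) := by positivity
      linarith
    have h4 : 0 < X.ncard := by exact_mod_cast h3
    exact (Set.ncard_pos (Set.toFinite _)).1 h4
  have hAn : A.ncard ≤ n := by
    rw [hndef, ← Set.ncard_univ]
    exact Set.ncard_le_ncard (Set.subset_univ _) (Set.toFinite _)
  obtain ⟨P, hP, hPc, X', hX', hX'c, hr⟩ := pig (fun x a => G.Adj x a) n (δ := κ / 2) (by positivity) t X A ∅
    hAn (by
      rw [Set.ncard_empty]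
      push_cast
      linarith) hXne (fun x hx => hx.2)
  have ht : t ≤ X'.ncard := by
    have h1 : (κ / 2 / 2) ^ t * (κ / 2 * n) ≤ (κ / 2 / 2) ^ t * (X.ncard : ℝ) :=
      mul_le_mul_of_nonneg_left hXc (by positivity)
    have h2 : (κ / 2 / 2) ^ t * (κ / 2 * n) = c * n := by
      rw [hc, show κ / 2 / 2 = κ / 4 by ring]
      ring
    have h3 : (t : ℝ) ≤ (X'.ncard : ℝ) := by linarith
    exact_mod_cast h3
  obtain ⟨Q, hQ, hQc⟩ := Set.exists_subset_card_eq ht
  refine ⟨P, Q, fun x hx => (hP hx).1, fun x hx => (hX' (hQ hx)).1, hPc, hQc, ?_, ?_⟩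
  · rw [Set.disjoint_left]
    intro x hxP hxQ
    exact G.irrefl (hr x (hQ hxQ) x hxP)
  · intro a ha b hb
    exact (hr b (hQ hb) a ha).symm

end Pool.Agent.WT7
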