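import Pool.Agent.WT7.PiA
import Pool.Agent.WT7.Loss
import Pool.Agent.WT7.Clone

/-!
# [WT7-Star] sparse sets have small `D`

`n = |V|`, `h = |α| ≥ 2`, `N = n^(h-1)`. Let `σ ∈ (0, 1]` with `h ((1 + 2 σ)^(h-1) - 1) ≤ ε / 2` (continuity, or Bernoulli-type bounds), `τ = σ ε / (2 (1 + 2 h² 3^h))`,
`n₀ ≥ 1/σ`, `m = ⌈σ n⌉₊`, so `σ n ≤ m ≤ σ n + 1 ≤ 2 σ n`.
Let `G''` be `G'` without the edges inside `A`: triangle-free, `A` independent in `G''`, `df G G'' ≤ df G G' + pe G A A ≤ 2 τ n²`.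
`inj H G + m D ≤ inj H (Cl G A m)` (inj_clone) `≤ inj H (Cl G'' A m) + h² (2 τ n²) (n + m)^(h-2)` (inj_le_add_df, df_clone)
`≤ π (n + m)^h + ..` (inj ≤ hom, hom_le_pi, clone_cliqueFree; `Nat.card (V ⊕ Fin m) = n + m`). With `inj H G ≥ (π - τ) n^h`, `(n + m)^h - n^h ≤ m h (n + m)^(h-1)`,
`n + m ≤ (1 + 2 σ) n ≤ 3 n`, `π ≤ 1`:
`m D ≤ π h m (1 + 2 σ)^(h-1) N + τ n N + 2 h² τ 3^h n N`, divide by `m ≥ σ n`: `D ≤ π h N + (ε / 2) N + (τ (1 + 2 h² 3^h) / σ) N ≤ (π h + ε) N`.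
-/

set_option autoImplicit false

namespace Pool.Agent.WT7

variable {α β V W : Type}

private theorem star_pow (k : ℕ) {x y : ℝ} (hx : 0 ≤ x) (hxy : x ≤ y) :
    y ^ (k + 1) - x ^ (k + 1) ≤ (k + 1) * y ^ k * (y - x) := by
  have hy : 0 ≤ y := hx.trans hxy
  induction k with
  | zero => simp
  | succ k ih =>
    have h1 : x ^ (k + 1) ≤ y ^ (k + 1) := pow_le_pow_left₀ hx hxy _
    have h2 : 0 ≤ y - x := sub_nonneg.2 hxy
    have h3 : y * (y ^ (k + 1) - x ^ (k + 1)) ≤ y * ((k + 1) * y ^ k * (y - x)) :=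
      mul_le_mul_of_nonneg_left ih hy
    have h4 : x ^ (k + 1) * (y - x) ≤ y ^ (k + 1) * (y - x) :=
      mul_le_mul_of_nonneg_right h1 h2
    push_cast
    calc y ^ (k + 1 + 1) - x ^ (k + 1 + 1)
        = y * (y ^ (k + 1) - x ^ (k + 1)) + x ^ (k + 1) * (y - x) := by ring
      _ ≤ y * ((k + 1) * y ^ k * (y - x)) + y ^ (k + 1) * (y - x) := add_le_add h3 h4
      _ = ((k : ℝ) + 1 + 1) * y ^ (k + 1) * (y - x) := by ring

private theorem star_sigma (k : ℕ) {ε : ℝ} (hε : 0 < ε) :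
    ∃ σ : ℝ, 0 < σ ∧ σ ≤ 1 ∧ ((k : ℝ) + 2) * ((1 + 2 * σ) ^ (k + 1) - 1) ≤ ε / 2 := by
  have hc : ContinuousAt (fun σ : ℝ => ((k : ℝ) + 2) * ((1 + 2 * σ) ^ (k + 1) - 1)) 0 := by
    fun_prop
  have h0 : ((k : ℝ) + 2) * ((1 + 2 * (0 : ℝ)) ^ (k + 1) - 1) < ε / 2 := by
    have : (0 : ℝ) < ε / 2 := by positivity
    simpa using this
  have hev := hc.eventually_lt_const h0
  obtain ⟨δ, hδ, hball⟩ := Metric.eventually_nhds_iff.1 hev
  refine ⟨min 1 (δ / 2), by positivity, min_le_left _ _, ?_⟩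
  have hpos : 0 < min 1 (δ / 2) := by positivity
  have := hball (y := min 1 (δ / 2)) (by
    rw [Real.dist_eq, sub_zero, abs_of_pos hpos]
    exact (min_le_right _ _).trans_lt (by linarith))
  exact this.le

private theorem star_arith (k : ℕ) {n m d p t s e : ℝ} (hn : 1 ≤ n) (hs : 0 < s) (hs1 : s ≤ 1)
    (hm1 : s * n ≤ m) (hm2 : m ≤ 2 * s * n) (hp0 : 0 ≤ p) (hp1 : p ≤ 1) (he : 0 < e)
    (hK : ((k : ℝ) + 2) * ((1 + 2 * s) ^ (k + 1) - 1) ≤ e / 2)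
    (ht : t * (2 * (1 + 2 * ((k : ℝ) + 2) ^ 2 * 3 ^ (k + 2))) = s * e) (ht0 : 0 ≤ t)
    (hmain : m * d ≤ p * (n + m) ^ (k + 2) - (p - t) * n ^ (k + 2) +
      ((k : ℝ) + 2) ^ 2 * (2 * t * n ^ 2 * (n + m) ^ k)) :
    d ≤ (p * ((k : ℝ) + 2) + e) * n ^ (k + 1) := by
  have hn0 : 0 < n := by linarith
  have hm0 : 0 < m := lt_of_lt_of_le (by positivity) hm1
  have hk0 : (0 : ℝ) ≤ k := Nat.cast_nonneg k
  have hN : 0 ≤ n ^ (k + 1) := by positivity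
  have hnm : n + m ≤ (1 + 2 * s) * n := by linarith
  have hnm3 : n + m ≤ 3 * n := by nlinarith
  have h1 : (n + m) ^ (k + 2) - n ^ (k + 2) ≤ ((k : ℝ) + 2) * (n + m) ^ (k + 1) * m := by
    have := star_pow (k + 1) hn0.le (show n ≤ n + m by linarith)
    push_cast at this
    have e1 : n + m - n = m := by ring
    rw [e1] at this
    have e2 : ((k : ℝ) + 1 + 1) = (k : ℝ) + 2 := by ring
    rw [e2] at this
    exact this
  have h2 : (n + m) ^ (k + 1) ≤ (1 + 2 * s) ^ (k + 1) * n ^ (k + 1) := by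
    rw [← mul_pow]
    exact pow_le_pow_left₀ (by linarith) hnm _
  have h3 : n ^ 2 * (n + m) ^ k ≤ 3 ^ (k + 2) * (n * n ^ (k + 1)) := by
    have a1 : (n + m) ^ k ≤ 3 ^ k * n ^ k := by
      rw [← mul_pow]
      exact pow_le_pow_left₀ (by linarith) hnm3 _
    have a2 : (3 : ℝ) ^ k ≤ 3 ^ (k + 2) := pow_le_pow_right₀ (by norm_num) (by omega)
    calc n ^ 2 * (n + m) ^ k ≤ n ^ 2 * (3 ^ k * n ^ k) :=
          mul_le_mul_of_nonneg_left a1 (by positivity)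
      _ = 3 ^ k * (n * n ^ (k + 1)) := by ring
      _ ≤ 3 ^ (k + 2) * (n * n ^ (k + 1)) := mul_le_mul_of_nonneg_right a2 (by positivity)
  set K := (1 + 2 * s) ^ (k + 1) with hKdef
  set N := n ^ (k + 1) with hNdef
  have h4 : p * ((n + m) ^ (k + 2) - n ^ (k + 2)) ≤ p * (((k : ℝ) + 2) * (K * N) * m) := by
    refine mul_le_mul_of_nonneg_left (h1.trans ?_) hp0
    exact mul_le_mul_of_nonneg_right (mul_le_mul_of_nonneg_left h2 (by positivity)) hm0.le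
  have h5 : ((k : ℝ) + 2) ^ 2 * (2 * t * n ^ 2 * (n + m) ^ k) ≤
      t * (2 * ((k : ℝ) + 2) ^ 2 * 3 ^ (k + 2)) * (n * N) := by
    have := mul_le_mul_of_nonneg_left h3 (show 0 ≤ 2 * t * ((k : ℝ) + 2) ^ 2 by positivity)
    calc ((k : ℝ) + 2) ^ 2 * (2 * t * n ^ 2 * (n + m) ^ k)
        = 2 * t * ((k : ℝ) + 2) ^ 2 * (n ^ 2 * (n + m) ^ k) := by ring
      _ ≤ 2 * t * ((k : ℝ) + 2) ^ 2 * (3 ^ (k + 2) * (n * N)) := this
      _ = _ := by ring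
  have h6 : n ^ (k + 2) = n * N := by rw [hNdef]; ring
  have h7 : m * d ≤ p * (((k : ℝ) + 2) * (K * N) * m) +
      t * (1 + 2 * ((k : ℝ) + 2) ^ 2 * 3 ^ (k + 2)) * (n * N) := by
    have e1 : p * (n + m) ^ (k + 2) - (p - t) * n ^ (k + 2) =
        p * ((n + m) ^ (k + 2) - n ^ (k + 2)) + t * (n * N) := by
      rw [h6]; ring
    rw [e1] at hmain
    calc m * d ≤ _ := hmain
      _ ≤ p * (((k : ℝ) + 2) * (K * N) * m) + t * (n * N) +
          t * (2 * ((k : ℝ) + 2) ^ 2 * 3 ^ (k + 2)) * (n * N) := by linarith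
      _ = _ := by ring
  have h8 : t * (1 + 2 * ((k : ℝ) + 2) ^ 2 * 3 ^ (k + 2)) * (n * N) = (e / 2) * (s * n) * N := by
    have : t * (1 + 2 * ((k : ℝ) + 2) ^ 2 * 3 ^ (k + 2)) = s * e / 2 := by linarith
    rw [this]; ring
  have h9 : (e / 2) * (s * n) * N ≤ (e / 2) * m * N :=
    mul_le_mul_of_nonneg_right (mul_le_mul_of_nonneg_left hm1 (by positivity)) hN
  have h10 : p * (((k : ℝ) + 2) * (K - 1)) ≤ e / 2 := by
    have hK1 : 1 ≤ K := one_le_pow₀ (by linarith)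
    have h0 : 0 ≤ ((k : ℝ) + 2) * (K - 1) := mul_nonneg (by positivity) (by linarith)
    calc p * (((k : ℝ) + 2) * (K - 1)) ≤ 1 * (((k : ℝ) + 2) * (K - 1)) :=
          mul_le_mul_of_nonneg_right hp1 h0
      _ ≤ e / 2 := by rw [one_mul]; exact hK
  have h11 : p * (((k : ℝ) + 2) * (K * N) * m) ≤ (p * ((k : ℝ) + 2) + e / 2) * N * m := by
    have h12 : p * (((k : ℝ) + 2) * (K - 1)) * (N * m) ≤ e / 2 * (N * m) :=
      mul_le_mul_of_nonneg_right h10 (by positivity)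
    nlinarith [h12]
  have h13 : m * d ≤ m * ((p * ((k : ℝ) + 2) + e) * N) := by
    rw [h8] at h7
    nlinarith [h7, h9, h11]
  exact le_of_mul_le_mul_left h13 hm0

/-- `G'` without the edges inside `A` -/
private def starDel (G' : SimpleGraph V) (A : Set V) : SimpleGraph V where
  Adj x y := G'.Adj x y ∧ ¬ (x ∈ A ∧ y ∈ A)
  symm := ⟨fun _ _ h => ⟨h.1.symm, fun h' => h.2 ⟨h'.2, h'.1⟩⟩⟩
  loopless := ⟨fun _ h => h.1.ne rfl⟩

private theorem star_df [Finite V] (G G' : SimpleGraph V) (A : Set V) :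
    df G (starDel G' A) ≤ df G G' + pe G A A := by
  unfold df pe
  refine (Set.ncard_le_ncard ?_ (Set.toFinite _)).trans (Set.ncard_union_le _ _)
  rintro ⟨x, y⟩ ⟨h1, h2⟩
  by_cases h3 : G'.Adj x y
  · right
    by_contra h4
    exact h2 ⟨h3, fun h5 => h4 ⟨h5.1, h5.2, h1⟩⟩
  · left
    exact ⟨h1, h3⟩

private theorem pi_nonneg' [Finite α] (H : SimpleGraph α) : 0 ≤ pi3 H := by
  have h := hom_le_pi (V := Fin 1) H (G := ⊥) (SimpleGraph.cliqueFree_bot (by norm_num))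
  have h0 : (0 : ℝ) ≤ (hom H (⊥ : SimpleGraph (Fin 1)) : ℝ) := Nat.cast_nonneg _
  simp only [Nat.card_eq_fintype_card, Fintype.card_fin, Nat.cast_one, one_pow, mul_one] at h
  exact h0.trans h

theorem star [Finite α] (hα : 2 ≤ Nat.card α) (H : SimpleGraph α) {ε : ℝ} (hε : 0 < ε) :
    ∃ τ : ℝ, 0 < τ ∧ ∃ n₀ : ℕ, ∀ (V : Type) [Finite V], n₀ ≤ Nat.card V → ∀ (G G' : SimpleGraph V) (A : Set V),
      G' ≤ G → G'.CliqueFree 3 → (df G G' : ℝ) ≤ τ * (Nat.card V : ℝ) ^ 2 →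
      (pi3 H - τ) * (Nat.card V : ℝ) ^ Nat.card α ≤ inj H G → (pe G A A : ℝ) ≤ τ * (Nat.card V : ℝ) ^ 2 →
      (D H G A : ℝ) ≤ (pi3 H * Nat.card α + ε) * (Nat.card V : ℝ) ^ (Nat.card α - 1) := by
  obtain ⟨k, hk⟩ : ∃ k, Nat.card α = k + 2 := ⟨Nat.card α - 2, by omega⟩
  obtain ⟨σ, hσ, hσ1, hK⟩ := star_sigma k hε
  have hden : (0 : ℝ) < 2 * (1 + 2 * ((k : ℝ) + 2) ^ 2 * 3 ^ (k + 2)) := by positivity
  refine ⟨σ * ε / (2 * (1 + 2 * ((k : ℝ) + 2) ^ 2 * 3 ^ (k + 2))), by positivity,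
    ⌈1 / σ⌉₊ + 1, ?_⟩
  intro V _ hV G G' A hGG' hfree hdf hinj hpe
  set τ := σ * ε / (2 * (1 + 2 * ((k : ℝ) + 2) ^ 2 * 3 ^ (k + 2))) with hτ
  have hτ0 : 0 < τ := by positivity
  set n : ℝ := (Nat.card V : ℝ) with hn
  have hn1 : 1 ≤ Nat.card V := by omega
  have hn1' : (1 : ℝ) ≤ n := by rw [hn]; exact_mod_cast hn1
  have : Nonempty V := (Nat.card_pos_iff.1 (by omega)).1
  have hσn : 1 ≤ σ * n := by
    have h1 : 1 / σ ≤ n := by
      have h2 : (1 / σ : ℝ) ≤ (⌈1 / σ⌉₊ : ℝ) := Nat.le_ceil _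
      have h3 : ((⌈1 / σ⌉₊ + 1 : ℕ) : ℝ) ≤ n := by rw [hn]; exact_mod_cast hV
      push_cast at h3
      linarith
    rw [div_le_iff₀ hσ] at h1
    linarith
  set m : ℕ := ⌈σ * n⌉₊ with hm
  have hm1 : σ * n ≤ (m : ℝ) := Nat.le_ceil _
  have hm2 : (m : ℝ) ≤ 2 * σ * n := by
    have := Nat.ceil_lt_add_one (show 0 ≤ σ * n by positivity)
    linarith
  have hc1 := inj_clone H G A m
  have hc2 := inj_le_add_df H (Cl G A m) (Cl (starDel G' A) A m)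
  have hc3 := (df_clone G (starDel G' A) A m).trans (star_df G G' A)
  have hcard : Nat.card (V ⊕ Fin m) = Nat.card V + m := by
    rw [Nat.card_sum, Nat.card_eq_fintype_card (α := Fin m), Fintype.card_fin]
  have hfree2 : (starDel G' A).CliqueFree 3 :=
    hfree.anti (fun x y (h : G'.Adj x y ∧ ¬ (x ∈ A ∧ y ∈ A)) => h.1)
  have hfree3 := clone_cliqueFree (A := A) hfree2 (fun a ha b hb h => h.2 ⟨ha, hb⟩) m
  have hc4 : (inj H (Cl (starDel G' A) A m) : ℝ) ≤ pi3 H * (n + m) ^ (k + 2) := by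
    have h1 := hom_le_pi H hfree3
    have h2 : (inj H (Cl (starDel G' A) A m) : ℝ) ≤ hom H (Cl (starDel G' A) A m) := by
      exact_mod_cast inj_le_hom H (Cl (starDel G' A) A m)
    rw [hcard, hk] at h1
    push_cast at h1
    exact h2.trans h1
  have hc5 : (df (Cl G A m) (Cl (starDel G' A) A m) : ℝ) ≤ 2 * τ * n ^ 2 := by
    have h1 : (df (Cl G A m) (Cl (starDel G' A) A m) : ℝ) ≤ (df G G' : ℝ) + (pe G A A : ℝ) := by
      exact_mod_cast hc3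
    linarith
  have hc6 : (inj H G : ℝ) + m * (D H G A : ℝ) ≤ (inj H (Cl (starDel G' A) A m) : ℝ) +
      ((k : ℝ) + 2) ^ 2 * ((df (Cl G A m) (Cl (starDel G' A) A m) : ℝ) * (n + m) ^ k) := by
    have h1 := hc1.trans hc2
    rw [hcard, hk] at h1
    have h2 : k + 2 - 2 = k := by omega
    rw [h2] at h1
    have h3 : ((inj H G + m * D H G A : ℕ) : ℝ) ≤ ((inj H (Cl (starDel G' A) A m) +
      (k + 2) ^ 2 * (df (Cl G A m) (Cl (starDel G' A) A m) * (Nat.card V + m) ^ k) : ℕ) : ℝ) := by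
      exact_mod_cast h1
    push_cast at h3
    exact h3
  have hc7 : ((k : ℝ) + 2) ^ 2 * ((df (Cl G A m) (Cl (starDel G' A) A m) : ℝ) * (n + m) ^ k) ≤
      ((k : ℝ) + 2) ^ 2 * (2 * τ * n ^ 2 * (n + m) ^ k) := by
    refine mul_le_mul_of_nonneg_left (mul_le_mul_of_nonneg_right hc5 ?_) (by positivity)
    positivity
  rw [hk] at hinj ⊢
  have h21 : k + 2 - 1 = k + 1 := by omega
  rw [h21]
  push_cast
  refine star_arith k hn1' hσ hσ1 hm1 hm2 (pi_nonneg' H) (pi_le_one H) hε hK ?_ hτ0.le ?_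
  · rw [hτ]; field_simp
  · linarith

end Pool.Agent.WT7
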